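import Pool.Agent.H37.S3.CI


/-!
# Ball frontier lemma: core statements (board kbfl)

`/team-store/K_BFL_helper19.md`, sections 5, 6, 7. Everything is in the scaled ball of radius `1`
(space and time unit `2 ^ (-(w + u))`, height unit `2 ^ (-(g + j u))`); `U` is the number of digits
of `u`, and `m` the number of digits from the level `w + u` to the level `w + b'`.
Entropies are in nats.
-/

set_option autoImplicit false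

namespace Pool.BFL

open Finset Real
open Pool.Agent.H49.Ent Pool.Agent.H32.Dense Pool.STK Pool.KS3

/-- Polynomials in the base coordinates. -/
abbrev Pl (n : ℕ) : Type := MvPolynomial (Fin n) ℝ

/-- All coefficients are at most `r`. -/
def CB {n : ℕ} (P : Pl n) (r : ℝ) : Prop := ∀ k, |P.coeff k| ≤ r

open Classical in
/-- The probability of an event. -/
noncomputable def Pb {W : Type} [Fintype W] (q : W → ℝ) (A : W → Prop) : ℝ :=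
  ∑ w, if A w then q w else 0

open Classical in
/-- The probability of an event for a pair of conditionally independent copies given `g`. -/
noncomputable def P2 {Ω G : Type} [Fintype Ω] (p : Ω → ℝ) (g : Ω → G) (A : Ω → Ω → Prop) : ℝ :=
  ∑ ω, ∑ ω', if g ω = g ω' ∧ A ω ω' then p ω * p ω' / law p g (g ω) else 0

/-- A Markov chain `z 0, …, z M`: `z (i + 1)` is a copy of `z i` given `c i`, independent of the
past given `c i`. -/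
structure MC {Ω C W : Type} [Fintype Ω] [Fintype W] (p : Ω → ℝ) (c : ℕ → Ω → C) (M : ℕ)
    (q : W → ℝ) (z : ℕ → W → Ω) : Prop where
  isLaw : IsLaw q
  marg : ∀ i ≤ M, Marg q p (z i)
  same : ∀ w, 0 < q w → ∀ i < M, c i (z i w) = c i (z (i + 1) w)
  markov : ∀ i < M, CI q (fun w (k : Fin (M - i)) => z (i + 1 + k) w)
    (fun w (k : Fin (i + 1)) => z k w) (fun w => c i (z i w))
  pair : ∀ i < M, ∀ A : Ω → Ω → Prop, Pb q (fun w => A (z i w) (z (i + 1) w)) = P2 p (c i) A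

/-- Row MCH: existence of the chain. -/
def MCHStmt : Prop :=
  ∀ (Ω C : Type) [Fintype Ω] (p : Ω → ℝ) (c : ℕ → Ω → C) (M : ℕ), IsLaw p →
    ∃ (W : Type) (_ : Fintype W) (q : W → ℝ) (z : ℕ → W → Ω), MC p c M q z

/-- The labels of the walk: `z (2 a)` and `z (2 a + 1)` have the same `g` (line and window), while
`z (2 a + 1)` and `z (2 a + 2)` have the same block. -/
def alt {Ω G B : Type} (g : Ω → G) (bk : Ω → B) (i : ℕ) (ω : Ω) : G ⊕ B :=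
  if i % 2 = 0 then Sum.inl (g ω) else Sum.inr (bk ω)

/-- Row WLE: (5.1). The lengths of the legs are almost uniform given the variables `V` of the legs
and the first block. -/
def WLEStmt : Prop :=
  ∀ (Ω G B 𝔅 𝒱 W : Type) [Fintype Ω] [Fintype W] (p : Ω → ℝ) (g : Ω → G) (bk : Ω → B)
    (β : Ω → 𝔅) (V : Ω → 𝒱) (τ : Ω → ℤ) (N : ℕ) (q : W → ℝ) (z : ℕ → W → Ω) (h d : ℝ),
    IsLaw p → 1 ≤ N → MC p (alt g bk) (2 * N - 1) q z →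
    Det p bk β → Det p g β → Det p bk τ →
    h ≤ CH p τ g → CH p V β - CH p V bk ≤ d →
    N * h - (N - 1) * d ≤
      CH q (fun w (a : Fin N) => τ (z (2 * a + 1) w) - τ (z (2 * a) w))
        (fun w => ((fun a : Fin N => V (z (2 * a) w)), bk (z 0 w)))

/-- Row SPN: consecutive directions of the walk are in general position. -/
def SPNStmt : Prop :=
  ∀ (n : ℕ) (Ω G B W : Type) [Fintype Ω] [Fintype W] (p : Ω → ℝ) (g : Ω → G) (bk : Ω → B)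
    (E : Ω → Fin n → ℝ) (N a₀ : ℕ) (q : W → ℝ) (z : ℕ → W → Ω) (δ ε : ℝ) (e : B → ℝ),
    IsLaw p → MC p (alt g bk) (2 * N - 1) q z → a₀ + n ≤ N → 0 < δ → (∀ b, 0 ≤ e b) →
    Ex p (fun ω => e (bk ω)) ≤ ε →
    (∀ ω, 0 < p ω → ∀ u : Fin n → ℝ, (∃ i, 1 ≤ |u i|) →
      Pb p (fun ω' => bk ω' = bk ω ∧ |∑ i, u i * E ω' i| ≤ δ) ≤ e (bk ω) * law p bk (bk ω)) →
    Pb q (fun w => |Matrix.det (Matrix.of fun i k : Fin n => E (z (2 * (a₀ + k)) w) i)| < δ ^ n) ≤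
      n * ε

/-- The change of the jet at `x` when the base point moves from `y` to `y + s E`. -/
noncomputable def lg {n : ℕ} (b : Pl n) (y E : Fin n → ℝ) (s : ℝ) (x : Fin n → ℝ) : ℝ :=
  ∫ τ in (0 : ℝ)..s, MvPolynomial.eval (fun i => x i - y i - τ * E i) b

/-- The height of the walk above the Taylor polynomial at its starting point. -/
noncomputable def Qw {n N : ℕ} (b : Fin N → Pl n) (E : Fin N → Fin n → ℝ) (s : Fin N → ℝ) : ℝ :=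
  ∑ a, ∫ τ in (0 : ℝ)..(s a),
    MvPolynomial.eval (fun i => τ * E a i + ∑ c ∈ univ.filter (a < ·), s c * E c i) (b a)

/-- Row TRN: (5.2), transport of the jets along a walk. -/
def TRNStmt : Prop :=
  ∀ (n N j : ℕ) (C₀ : ℝ), 1 ≤ C₀ → ∃ C : ℝ, 1 ≤ C ∧
    ∀ (x y : Fin N → Fin n → ℝ) (E : Fin N → Fin n → ℝ) (s : Fin N → ℝ) (T : ℕ → Pl n)
      (b : Fin N → Pl n) (δ₁ δ₂ r : ℝ) (hN : 0 < N),
      0 ≤ δ₁ → 0 ≤ δ₂ → δ₂ ≤ 1 → 1 ≤ r → (∀ a i, |x a i| ≤ C₀) → (∀ a i, |y a i| ≤ C₀) →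
      (∀ a i, |E a i| ≤ C₀) →
      (∀ a, |s a| ≤ 1) → (∀ a, (b a).totalDegree ≤ j) → (∀ a, CB (b a) r) →
      (∀ a i, |y a i - x a i - s a * E a i| ≤ δ₂) →
      (∀ a a' : Fin N, a'.val = a.val + 1 → ∀ i, |x a' i - y a i| ≤ δ₂) →
      (∀ a : Fin N, ∀ x' : Fin n → ℝ, (∀ i, |x' i| ≤ C₀) →
        |MvPolynomial.eval x' (T (a.val + 1)) - MvPolynomial.eval x' (T a.val) -
          lg (b a) (x a) (E a) (s a) x'| ≤ δ₁) →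
      |MvPolynomial.eval (y ⟨N - 1, by omega⟩) (T N) -
        MvPolynomial.eval (y ⟨N - 1, by omega⟩) (T 0) - Qw b E s| ≤ C * (δ₁ + r * δ₂)

/-- The determinant of the last `n` of `N` vectors. -/
noncomputable def ldet {n N : ℕ} (hN : n ≤ N) (E : Fin N → Fin n → ℝ) : ℝ :=
  Matrix.det (Matrix.of fun i k : Fin n => E ⟨N - n + k, by omega⟩ i)

/-- The function `Q` of the lengths varies by more than `δ` along a fibre of the end point. -/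
def KV {n N : ℕ} (δ : ℝ) (E : Fin N → Fin n → ℝ) (Q : (Fin N → ℝ) → ℝ) : Prop :=
  ∃ σ σ' : Fin N → ℝ, (∀ a, |σ a| ≤ 1) ∧ (∀ a, |σ' a| ≤ 1) ∧
    (∀ i, ∑ a, σ a * E a i = ∑ a, σ' a * E a i) ∧ δ < |Q σ - Q σ'|

/-- Row ALG: (6.1), effective. If the height of the walk is a function of the end point, then the
`b a` are the derivatives of one homogeneous polynomial. -/
def ALGStmt : Prop :=
  ∀ (n N j : ℕ) (C₀ : ℝ) (hN : n ≤ N), 1 ≤ n → 1 ≤ j → 1 ≤ C₀ → ∃ C : ℝ, 1 ≤ C ∧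
    ∀ (E : Fin N → Fin n → ℝ) (b : Fin N → Pl n) (κ ε : ℝ),
      (∀ a i, |E a i| ≤ C₀) → (∀ a, (b a).IsHomogeneous (j - 1)) → 0 < κ → κ ≤ 1 → 0 ≤ ε →
      κ ≤ |ldet hN E| → ¬ KV ε E (Qw b E) →
      ∃ φ : Pl n, φ.IsHomogeneous j ∧ ∀ a : Fin N, a.val + n ≤ N → ∀ v : Fin n → ℝ,
        (∀ i, |v i| ≤ 1) →
        |MvPolynomial.eval v (b a) -
          ∑ i, E a i * MvPolynomial.eval v (MvPolynomial.pderiv i φ)| ≤ C * ε / κ ^ (2 * j)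

/-- Row UNQ: the polynomial `φ` is determined by `n` spanning directions. -/
def UNQStmt : Prop :=
  ∀ (n j : ℕ) (C₀ : ℝ), 1 ≤ n → 1 ≤ j → 1 ≤ C₀ → ∃ C : ℝ, 1 ≤ C ∧
    ∀ (E : Fin n → Fin n → ℝ) (φ : Pl n) (κ ε : ℝ),
      (∀ a i, |E a i| ≤ C₀) → φ.IsHomogeneous j → 0 < κ → κ ≤ 1 → 0 ≤ ε →
      κ ≤ |Matrix.det (Matrix.of fun i k : Fin n => E k i)| →
      (∀ (a : Fin n) (v : Fin n → ℝ), (∀ i, |v i| ≤ 1) →
        |∑ i, E a i * MvPolynomial.eval v (MvPolynomial.pderiv i φ)| ≤ ε) →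
      CB φ (C * ε / κ)

/-- Row FIB: (5.3), the count in a fibre. -/
def FIBStmt : Prop :=
  ∀ (n N j : ℕ) (C₀ τ₀ : ℝ) (hN : n ≤ N), 1 ≤ C₀ → 0 < τ₀ →
    ∃ τ₁ : ℝ, 0 < τ₁ ∧ ∃ U₀ : ℕ, ∀ U m : ℕ, U₀ ≤ U → U ≤ m → (m : ℝ) ≤ C₀ * U →
    ∀ (W : Type) [Fintype W] (μ : W → ℝ) (s : W → Fin N → ℤ) (E : Fin N → Fin n → ℝ)
      (Q : Pl N) (y₀ : Fin n → ℝ) (Yc : W → Fin n → ℤ) (h : W → ℝ) (x : ℝ),
      IsLaw μ → (∀ w a, |s w a| ≤ 2 ^ m) → N * (m * Real.log 2) - τ₁ * U ≤ H μ s →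
      (∀ a i, |E a i| ≤ C₀) → Real.exp (-(τ₁ * U)) ≤ |ldet hN E| →
      Q.totalDegree ≤ j → CB Q (Real.exp (τ₁ * U)) →
      (∀ w, 0 < μ w → ∀ i, |(Yc w i : ℝ) - y₀ i - ∑ a, (s w a : ℝ) * E a i| ≤ C₀) →
      (∀ w, 0 < μ w → |h w - MvPolynomial.eval (fun a => (s w a : ℝ) / 2 ^ m) Q| ≤
        Real.exp (τ₁ * U) / 2 ^ U) →
      0 ≤ x → KV (Real.exp (-x)) E (fun σ => MvPolynomial.eval σ Q) →
      U * Real.log 2 - x - τ₀ * U ≤ CH μ (fun w => ⌊(2 : ℝ) ^ U * h w⌋) Yc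

/-- Row KVR: (5.3) and (5.4). If the rows of the height are not full then the kernel variation is
small, outside a small probability. -/
def KVRStmt : Prop :=
  ∀ (n N j : ℕ) (c C₀ τ₀ : ℝ) (hN : n ≤ N), 0 < c → 1 ≤ C₀ → 0 < τ₀ →
    ∃ τ₁ : ℝ, 0 < τ₁ ∧ ∃ U₀ : ℕ, ∀ U m : ℕ, U₀ ≤ U → U ≤ m → (m : ℝ) ≤ C₀ * U →
    ∀ (W 𝒱 𝔅 : Type) [Fintype W] (q : W → ℝ) (v : W → 𝒱) (β : W → 𝔅) (s : W → Fin N → ℤ)
      (E : 𝒱 → Fin N → Fin n → ℝ) (Q : 𝒱 → Pl N) (y₀ : 𝒱 → Fin n → ℝ)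
      (Yc : W → Fin n → ℤ) (base : 𝒱 → (Fin n → ℤ) → ℝ) (h : W → ℝ) (Gd : W → Prop),
      IsLaw q → Det q v β → (∀ w a, |s w a| ≤ 2 ^ m) →
      N * (m * Real.log 2) - τ₁ * U ≤ CH q s v →
      (∀ x a i, |E x a i| ≤ C₀) → (∀ x, (Q x).totalDegree ≤ j) →
      (∀ x, CB (Q x) (Real.exp (τ₁ * U))) → Pb q (fun w => ¬ Gd w) ≤ τ₁ →
      (∀ w, Gd w → 0 < q w → Real.exp (-(τ₁ * U)) ≤ |ldet hN (E (v w))| ∧
        (∀ i, |(Yc w i : ℝ) - y₀ (v w) i - ∑ a, (s w a : ℝ) * E (v w) a i| ≤ C₀) ∧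
        |h w - base (v w) (Yc w) - MvPolynomial.eval (fun a => (s w a : ℝ) / 2 ^ m) (Q (v w))| ≤
          Real.exp (τ₁ * U) / 2 ^ U) →
      (∀ P₁ P₂ : ℕ, P₁ ≤ P₂ → P₂ ≤ U → ∀ w, 0 < q w →
        (Set.ncard {k : ℤ | ∃ w', 0 < q w' ∧ β w' = β w ∧ Yc w' = Yc w ∧
          ⌊(2 : ℝ) ^ P₁ * h w'⌋ = ⌊(2 : ℝ) ^ P₁ * h w⌋ ∧ k = ⌊(2 : ℝ) ^ P₂ * h w'⌋} : ℝ) ≤
          Real.exp ((1 - c) * ((P₂ : ℝ) - P₁) * Real.log 2 + τ₁ * U)) →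
      Pb q (fun w => KV (Real.exp (τ₀ * U) / 2 ^ U) (E (v w))
        (fun σ => MvPolynomial.eval σ (Q (v w)))) ≤ τ₀

/-- Row VIS: two functions which are independent given `Z` and close to each other are close to a
function of `Z`. -/
def VISStmt : Prop :=
  ∀ (ι W Z : Type) [Fintype ι] [Fintype W] (q : W → ℝ) (X Y : W → ι → ℝ) (f : W → Z)
    (t η : ℝ), IsLaw q → CI q X Y f → Pb q (fun w => ∃ i, t < |X w i - Y w i|) ≤ η →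
    ∃ h : Z → ι → ℝ, (∀ z, ∃ w, h z = Y w) ∧ Pb q (fun w => ∃ i, t < |X w i - h (f w) i|) ≤ η

/-- The data of the core theorem: the scaled ball. `g` is the line and the `(w + u)`-window, `bk`
the block (ball label at the level `w + b'`), `β` the ball label at the level `w + u`, `V` the fixed
variable of (4.1), `tm` the time in units `2 ^ (-m)`, `T` the Taylor polynomial of degree `< j` of
the ball sheet, `hgt` the height. -/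
structure Core {n : ℕ} {Ω G B 𝔅 𝒱 : Type} [Fintype Ω] (j U m : ℕ) (c C₀ θ η : ℝ) (p : Ω → ℝ)
    (g : Ω → G) (bk : Ω → B) (β : Ω → 𝔅) (V : Ω → 𝒱) (tm : Ω → ℤ) (Y E : Ω → Fin n → ℝ)
    (yc : Ω → Fin n → ℤ) (hgt : Ω → ℝ) (T : B → Pl n) (bV : 𝒱 → 𝔅 → Pl n)
    (EV : 𝒱 → Fin n → ℝ) : Prop where
  isLaw : IsLaw p
  bk_β : Det p bk β
  g_β : Det p g β
  bk_tm : Det p bk tm
  bk_yc : Det p bk yc
  E_g : ∀ ω ω', g ω = g ω' → E ω = E ω'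
  tm_g : ∀ ω ω', g ω = g ω' → |tm ω' - tm ω| ≤ 2 ^ m
  Y_g : ∀ ω ω', g ω = g ω' → ∀ i,
    |Y ω' i - Y ω i - ((tm ω' - tm ω : ℤ) : ℝ) / 2 ^ m * E ω i| ≤ C₀ / 2 ^ m
  Y_bk : ∀ ω ω', bk ω = bk ω' → ∀ i, |Y ω' i - Y ω i| ≤ C₀ / 2 ^ m
  E_le : ∀ ω i, |E ω i| ≤ C₀
  Y_le : ∀ ω i, |Y ω i| ≤ C₀
  yc_near : ∀ ω i, |(yc ω i : ℝ) - 2 ^ m * Y ω i| ≤ C₀
  EV_le : ∀ v i, |EV v i| ≤ C₀
  EV_near : ∀ ω, 0 < p ω → ∀ i, |EV (V ω) i - E ω i| ≤ C₀ / 2 ^ m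
  bV_hom : ∀ v x, (bV v x).IsHomogeneous (j - 1)
  bV_le : ∀ v x, CB (bV v x) (Real.exp θ)
  T_deg : ∀ x, (T x).totalDegree < j
  T_lip : ∀ x (y y' : Fin n → ℝ), (∀ i, |y i| ≤ 2 * C₀) → (∀ i, |y' i| ≤ 2 * C₀) →
    (∀ i, |y i - y' i| ≤ 3 * C₀ / 2 ^ m) →
    |MvPolynomial.eval y (T x) - MvPolynomial.eval y' (T x)| ≤ Real.exp θ / 2 ^ U
  T_hgt : Pb p (fun ω =>
    Real.exp θ / 2 ^ U < |hgt ω - MvPolynomial.eval (Y ω) (T (bk ω))|) ≤ η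
  transport : P2 p g (fun ω ω' => ¬ ∀ x : Fin n → ℝ, (∀ i, |x i| ≤ C₀) →
    |MvPolynomial.eval x (T (bk ω')) - MvPolynomial.eval x (T (bk ω)) -
      lg (bV (V ω) (β ω)) (Y ω) (E ω) (((tm ω' - tm ω : ℤ) : ℝ) / 2 ^ m) x| ≤
      Real.exp θ / 2 ^ U) ≤ η
  timeFull : m * Real.log 2 - θ ≤ CH p tm g
  indep : CH p V β - CH p V bk ≤ θ
  span : ∃ e : B → ℝ, (∀ x, 0 ≤ e x) ∧ Ex p (fun ω => e (bk ω)) ≤ η ∧
    ∀ ω, 0 < p ω → ∀ u : Fin n → ℝ, (∃ i, 1 ≤ |u i|) →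
      Pb p (fun ω' => bk ω' = bk ω ∧ |∑ i, u i * E ω' i| ≤ Real.exp (-θ)) ≤
        e (bk ω) * law p bk (bk ω)
  count : ∀ P₁ P₂ : ℕ, P₁ ≤ P₂ → P₂ ≤ U → ∀ ω, 0 < p ω →
    (Set.ncard {k : ℤ | ∃ ω', 0 < p ω' ∧ β ω' = β ω ∧ yc ω' = yc ω ∧
      ⌊(2 : ℝ) ^ P₁ * hgt ω'⌋ = ⌊(2 : ℝ) ^ P₁ * hgt ω⌋ ∧ k = ⌊(2 : ℝ) ^ P₂ * hgt ω'⌋} : ℝ) ≤
      Real.exp ((1 - c) * ((P₂ : ℝ) - P₁) * Real.log 2 + θ)

/-- Row COR (assembly): the core theorem. There is a visible homogeneous polynomial `Hf` of degree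
`j`, such that the Taylor polynomial of degree `j` is conserved along the lines. -/
def CORStmt : Prop :=
  ∀ (n j : ℕ) (c C₀ τ₀ : ℝ), 1 ≤ n → 1 ≤ j → 0 < c → 1 ≤ C₀ → 0 < τ₀ →
    ∃ τ₁ : ℝ, 0 < τ₁ ∧ ∃ U₀ : ℕ, ∀ U m : ℕ, U₀ ≤ U → U ≤ m → (m : ℝ) ≤ C₀ * U →
    ∀ (Ω G B 𝔅 𝒱 : Type) [Fintype Ω] (p : Ω → ℝ)
      (g : Ω → G) (bk : Ω → B) (β : Ω → 𝔅) (V : Ω → 𝒱) (tm : Ω → ℤ) (Y E : Ω → Fin n → ℝ)
      (yc : Ω → Fin n → ℤ) (hgt : Ω → ℝ) (T : B → Pl n) (bV : 𝒱 → 𝔅 → Pl n)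
      (EV : 𝒱 → Fin n → ℝ),
      Core j U m c C₀ (τ₁ * U) τ₁ p g bk β V tm Y E yc hgt T bV EV →
      ∃ Hf : B → Pl n, (∀ x, (Hf x).IsHomogeneous j) ∧ (∀ x, CB (Hf x) (Real.exp (τ₀ * U))) ∧
        P2 p g (fun ω ω' => ¬ ∀ x : Fin n → ℝ, (∀ i, |x i| ≤ C₀) →
          |MvPolynomial.eval x (T (bk ω')) +
              MvPolynomial.eval (fun i => x i - Y ω' i) (Hf (bk ω')) -
            (MvPolynomial.eval x (T (bk ω)) +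
              MvPolynomial.eval (fun i => x i - Y ω i) (Hf (bk ω)))| ≤
            Real.exp (τ₀ * U) / 2 ^ U) ≤ τ₀

end Pool.BFL
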