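import Pool.Agent.H19.BFL.Stmts4

/-!
# Ball frontier lemma: the final form, with `γ` as small as we like
-/

set_option autoImplicit false

namespace Pool.BFL

open Finset Real
open Pool.Agent.H49.Ent Pool.Agent.H32.Dense Pool.STK Pool.KS3 Pool.KA Pool.KSAT Pool.K2S Pool.PB

variable {m : ℕ}

open Classical in
/-- **The ball frontier lemma** for a class of families: at most of the radii where the precision
of the tubes is almost that of the balls, the rows are full. As `BFLS`, with `γ ≤ γ₀`. -/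
def BFLW (S : FCl m) : Prop :=
  ∀ (c h₁ X ε : ℝ) (K : ℕ), 0 < c → 0 < h₁ → 0 < X → 0 < ε → 1 ≤ K → ∀ γ₀ : ℝ, 0 < γ₀ →
    ∃ γ : ℝ, 0 < γ ∧ γ ≤ γ₀ ∧
    ∃ M₁ : ℕ, ∀ M ≥ M₁, ∃ L₁ : ℕ, ∀ L ≥ L₁, ∀ N : ℕ, N = M * L → ∀ (i₁ : Fin m) (ρ w : ℕ),
    (ρ : ℝ) + X * N ≤ N → Clg S (fun J F A => Ch F i₁ ⌊h₁ * J⌋₊ A →
      (((range N).filter fun a => w ≤ a ∧
        (thrT F i₁ N ρ K A a a : ℝ) ≤ thrT F i₁ N ρ K A a w + γ * N ∧
        (thrT F i₁ N ρ K A a w : ℝ) + 2 * γ * N ≤ ρ ∧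
        Zr F c N (thrT F i₁ N ρ K A a w / L * L)
          ((thrT F i₁ N ρ K A a w / L + 1) * L) A).card : ℝ) ≤ ε * N)

end Pool.BFL
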