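import Pool.Agent.H19.BFL.Stmts5
import Pool.Agent.H19.BFL.Stmts6

/-!
# Ball frontier lemma, assembly 1: labels of precision `1`, laws of the thresholds
-/

set_option autoImplicit false

namespace Pool.BFL

open Finset Real MvPolynomial
open Pool.Agent.H49.Ent Pool.Agent.H32.Dense Pool.STK Pool.KS3 Pool.KA Pool.KSAT Pool.K2S Pool.PB

variable {m J : ℕ}

/-- Labels of precision `1` always exist. -/
theorem tb_zero {F : Fam m J} {i₁ : Fin m} {r K a w : ℕ} {A : F.Ω → Prop} (hw : w ≤ J) :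
    Tb F i₁ r K a w 0 A := by
  have hm : (0 : ℝ) ≤ 2 * m := by positivity
  refine ⟨fun y => C (((y.1 i₁ : ℝ) + 1 / 2) / 2 ^ r),
    fun s => C (s.1.1 i₁ + ((s.2.2 : ℝ) + 1 / 2) / 2 ^ w * s.1.2 i₁), fun y => ?_, fun s => ?_,
    fun ω _ => ?_⟩
  · rw [totalDegree_C]; exact Nat.zero_le _
  · rw [totalDegree_C]; exact Nat.zero_le _
  have hr0 : (0 : ℝ) < 2 ^ r := by positivity
  have hr1 : (1 : ℝ) ≤ 2 ^ r := one_le_pow₀ one_le_two
  have hw0 : (0 : ℝ) < 2 ^ w := by positivity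
  have hw1 : (1 : ℝ) ≤ 2 ^ w := one_le_pow₀ one_le_two
  have h1 : |F.x ω i₁ - (((F.X r ω i₁ : ℤ) : ℝ) + 1 / 2) / 2 ^ r| ≤ 1 / 2 := by
    have a1 := Int.floor_le ((2 : ℝ) ^ r * F.x ω i₁)
    have a2 := Int.lt_floor_add_one ((2 : ℝ) ^ r * F.x ω i₁)
    have e : F.x ω i₁ - (((F.X r ω i₁ : ℤ) : ℝ) + 1 / 2) / 2 ^ r =
        (2 ^ r * F.x ω i₁ - (((⌊(2 : ℝ) ^ r * F.x ω i₁⌋ : ℤ) : ℝ) + 1 / 2)) / 2 ^ r := by
      change F.x ω i₁ - (((⌊(2 : ℝ) ^ r * F.x ω i₁⌋ : ℤ) : ℝ) + 1 / 2) / 2 ^ r = _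
      field_simp
    rw [e, abs_div, abs_of_pos hr0, div_le_iff₀ hr0]
    have : |2 ^ r * F.x ω i₁ - (((⌊(2 : ℝ) ^ r * F.x ω i₁⌋ : ℤ) : ℝ) + 1 / 2)| ≤ 1 / 2 := by
      rw [abs_le]
      constructor <;> linarith
    linarith
  have h2 : |F.x ω i₁ - (F.u ω i₁ + ((F.T1 w ω : ℝ) + 1 / 2) / 2 ^ w * F.d ω i₁)| ≤ 1 / 2 := by
    have b1 := T1_real F hw ω
    have e : F.x ω i₁ - (F.u ω i₁ + ((F.T1 w ω : ℝ) + 1 / 2) / 2 ^ w * F.d ω i₁) =
        (2 ^ w * F.t ω - ((F.T1 w ω : ℝ) + 1 / 2)) / 2 ^ w * F.d ω i₁ := by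
      unfold Fam.x
      field_simp
      ring
    rw [e, abs_mul]
    have b2 : |(2 ^ w * F.t ω - ((F.T1 w ω : ℝ) + 1 / 2)) / 2 ^ w| ≤ 1 / 2 := by
      rw [abs_div, abs_of_pos hw0, div_le_iff₀ hw0]
      have : |2 ^ w * F.t ω - ((F.T1 w ω : ℝ) + 1 / 2)| ≤ 1 / 2 := by
        rw [abs_le]
        constructor <;> linarith [b1.1, b1.2]
      linarith
    calc _ ≤ 1 / 2 * 1 := mul_le_mul b2 (F.dir ω i₁) (abs_nonneg _) (by positivity)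
      _ = _ := mul_one _
  refine ⟨?_, fun j => ?_, fun b _ => ?_⟩
  · rw [eval_C]
    change |F.x ω i₁ - (((F.X r ω i₁ : ℤ) : ℝ) + 1 / 2) / 2 ^ r| ≤ 1 / 2 ^ 0
    rw [pow_zero]
    linarith
  · rw [pderiv_C, map_zero, abs_zero]
    exact hm
  · rw [eval_C, eval_C]
    change |(((F.X r ω i₁ : ℤ) : ℝ) + 1 / 2) / 2 ^ r -
      (F.u ω i₁ + ((F.T1 w ω : ℝ) + 1 / 2) / 2 ^ w * F.d ω i₁)| ≤ 1 / 2 ^ 0
    rw [pow_zero]
    rw [abs_le] at h1 h2 ⊢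
    constructor <;> linarith [h1.1, h1.2, h2.1, h2.2]

section

variable {F : Fam m J} {i₁ : Fin m} {N ρ K : ℕ} {A : F.Ω → Prop}

/-- The label at the threshold, also for the threshold `0`. -/
theorem thrT_tb {a w : ℕ} (hw : w ≤ N) :
    Tb F i₁ (ρ * (J / N)) K (a * (J / N)) (w * (J / N)) (thrT F i₁ N ρ K A a w * (J / N)) A := by
  rcases Nat.eq_zero_or_pos (thrT F i₁ N ρ K A a w) with h | h
  · rw [h, Nat.zero_mul]
    exact tb_zero ((Nat.mul_le_mul_right _ hw).trans (Nat.mul_div_le J N))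
  · exact thrT_spec h

/-- The trivial law of the labels (of the event). -/
def Trl (F : Fam m J) (i₁ : Fin m) (N ρ K : ℕ) (A : F.Ω → Prop) : Prop :=
  ∀ a w v P : ℕ, w ≤ a → a + v ≤ ρ → P + v ≤ ρ →
    Tb F i₁ (ρ * (J / N)) K (a * (J / N)) (w * (J / N)) (P * (J / N)) A →
    Tb F i₁ (ρ * (J / N)) K ((a + v) * (J / N)) (w * (J / N)) ((P + v - 1) * (J / N)) A

/-- The trivial law of the thresholds below the cap. -/
theorem trl_thr (hT : Trl F i₁ N ρ K A) (hρN : ρ ≤ N) {a a' w : ℕ} (hwa : w ≤ a) (ha : a ≤ a')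
    (ha' : a' ≤ ρ) (hc : thrT F i₁ N ρ K A a w + (a' - a) ≤ ρ) :
    thrT F i₁ N ρ K A a w + (a' - a) ≤ thrT F i₁ N ρ K A a' w + 1 := by
  have h1 := hT a w (a' - a) (thrT F i₁ N ρ K A a w) hwa (by omega) hc
    (thrT_tb (by omega))
  rw [show a + (a' - a) = a' by omega] at h1
  have h2 := le_thrT (by omega) h1
  omega

/-- The trivial law of the thresholds. -/
theorem trl_thr' (hT : Trl F i₁ N ρ K A) (hρN : ρ ≤ N) {a a' b w : ℕ} (hwa : w ≤ a) (ha : a ≤ a')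
    (hb : a' ≤ b) (hbρ : b ≤ ρ) (hc : thrT F i₁ N ρ K A b w + 2 ≤ ρ) :
    thrT F i₁ N ρ K A a w + (a' - a) ≤ thrT F i₁ N ρ K A a' w + 1 := by
  by_cases h : thrT F i₁ N ρ K A a w + (a' - a) ≤ ρ
  · exact trl_thr hT hρN hwa ha (by omega) h
  · exfalso
    push Not at h
    have h0 : thrT F i₁ N ρ K A a w ≤ ρ := thrT_le a w
    obtain ⟨v, hv⟩ : ∃ v, v = ρ - thrT F i₁ N ρ K A a w := ⟨_, rfl⟩
    have h1 := trl_thr (a' := a + v) hT hρN hwa (by omega) (by omega) (by omega)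
    have h2 : thrT F i₁ N ρ K A (a + v) w ≤ thrT F i₁ N ρ K A b w :=
      thrT_mono (by omega) le_rfl (by omega)
    omega

/-- The trivial law of the thresholds of the balls. -/
theorem trl_ball (hT : Trl F i₁ N ρ K A) (hρN : ρ ≤ N) {a a' b : ℕ} (ha : a ≤ a')
    (hb : a' ≤ b) (hbρ : b ≤ ρ) (hc : thrT F i₁ N ρ K A b b + 2 ≤ ρ) :
    thrT F i₁ N ρ K A a a + (a' - a) ≤ thrT F i₁ N ρ K A a' a' + 1 := by
  have h1 : thrT F i₁ N ρ K A b a ≤ thrT F i₁ N ρ K A b b := thrT_mono le_rfl (by omega) (by omega)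
  have h2 := trl_thr' (a := a) (a' := a') (w := a) hT hρN le_rfl ha hb hbρ (by omega)
  have h3 : thrT F i₁ N ρ K A a' a ≤ thrT F i₁ N ρ K A a' a' := thrT_mono le_rfl ha (by omega)
  omega

/-- The radii whose precision is below the cap are below the cap. -/
theorem le_cap (hN : 0 < N) (hJ : N ≤ J) (hρN : ρ ≤ N) {b : ℕ} (hbN : b ≤ N)
    (hc : thrT F i₁ N ρ K A b b + 2 ≤ ρ) : b ≤ ρ := by
  by_contra h
  push Not at h
  have h1 : thrT F i₁ N ρ K A ρ ρ ≤ thrT F i₁ N ρ K A b b := thrT_mono h.le h.le hbN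
  have h2 := thrT_trivial (F := F) (i₁ := i₁) (ρ := ρ) (K := K) (A := A) (a := ρ) (w := ρ) hN hJ
    hρN (by omega) le_rfl
  omega

/-- The trivial label of the balls. -/
theorem le_ball (hN : 0 < N) (hJ : N ≤ J) (hρN : ρ ≤ N) {a : ℕ} (ha : a ≤ ρ) :
    a ≤ thrT F i₁ N ρ K A a a + 1 := by
  rcases Nat.eq_zero_or_pos a with h | h
  · omega
  · have := thrT_trivial (F := F) (i₁ := i₁) (ρ := ρ) (K := K) (A := A) (a := a) (w := a) hN hJ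
      (by omega) h ha
    omega

end

/-! ### Lists of properties -/

/-- A finite list of properties. -/
noncomputable def plist {ι : Type} [Finite ι] (Q : ι → ∀ (J : ℕ) (F : Fam m J), (F.Ω → Prop) → Prop)
    (h : ∀ i J F, Hered (Q i J F)) : PList m where
  n := Nat.card ι
  Q J F i := Q ((Finite.equivFin ι).symm i) J F
  her J F i := h _ J F

theorem plist_sb {ι : Type} [Finite ι] {Q : ι → ∀ (J : ℕ) (F : Fam m J), (F.Ω → Prop) → Prop}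
    {h : ∀ i J F, Hered (Q i J F)} {F : Fam m J} {κ : ℝ} {A : F.Ω → Prop}
    (hs : (plist Q h).Sb F κ A) (i : ι) : Stb F.p (κ * J) A (Q i J F) := by
  have := hs ((Finite.equivFin ι) i)
  change Stb F.p (κ * J) A (Q ((Finite.equivFin ι).symm ((Finite.equivFin ι) i)) J F) at this
  rwa [Equiv.symm_apply_apply] at this

theorem cp_hered (F : Fam m J) (P₁ P₂ : ℕ) (θ : ℝ) : Hered (Cp F P₁ P₂ θ) := by
  intro A B hB h ω hω
  refine le_trans ?_ (h ω (hB ω hω))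
  have hsub : {x | ∃ ω', B ω' ∧ (F.X P₁ ω', F.W ω') = (F.X P₁ ω, F.W ω) ∧ x = F.X P₂ ω'} ⊆
      {x | ∃ ω', A ω' ∧ (F.X P₁ ω', F.W ω') = (F.X P₁ ω, F.W ω) ∧ x = F.X P₂ ω'} := by
    rintro x ⟨ω', h1, h2, h3⟩
    exact ⟨ω', hB ω' h1, h2, h3⟩
  have hfin : {x | ∃ ω', A ω' ∧ (F.X P₁ ω', F.W ω') = (F.X P₁ ω, F.W ω) ∧
      x = F.X P₂ ω'}.Finite := by
    refine (Set.finite_range (F.X P₂)).subset ?_
    rintro x ⟨ω', h1, h2, h3⟩
    exact ⟨ω', h3.symm⟩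
  exact_mod_cast Set.ncard_le_ncard hsub hfin

theorem cp_mono {F : Fam m J} {P₁ P₂ : ℕ} {θ θ' : ℝ} {A : F.Ω → Prop} (hθ : θ ≤ θ')
    (h : Cp F P₁ P₂ θ A) : Cp F P₁ P₂ θ' A :=
  fun ω hω => (h ω hω).trans (Real.exp_le_exp.2 hθ)

end Pool.BFL
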