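import Pool.Agent.H19.BFL.Asm1

/-!
# Ball frontier lemma, assembly 2: the scale, for functions with a cap
-/

set_option autoImplicit false

namespace Pool.BFL

open Finset Real

/-- The extension beyond `b` with slope one. -/
def cut (b : ℕ) (g : ℕ → ℕ) (a : ℕ) : ℕ := if a ≤ b then g a else g b + (a - b)

theorem cut_le {b : ℕ} {g : ℕ → ℕ} {a : ℕ} (h : a ≤ b) : cut b g a = g a := if_pos h

theorem cut_gt {b : ℕ} {g : ℕ → ℕ} {a : ℕ} (h : b < a) : cut b g a = g b + (a - b) :=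
  if_neg (by omega)

theorem cut_mono {b : ℕ} {g : ℕ → ℕ} (hg : ∀ a a', a ≤ a' → a' ≤ b → g a ≤ g a') :
    Monotone (cut b g) := by
  intro a a' h
  by_cases h1 : a' ≤ b
  · rw [cut_le h1, cut_le (h.trans h1)]
    exact hg a a' h h1
  · push Not at h1
    rw [cut_gt h1]
    by_cases h2 : a ≤ b
    · rw [cut_le h2]
      have := hg a b h2 le_rfl
      omega
    · push Not at h2
      rw [cut_gt h2]
      omega

theorem cut_triv {b w : ℕ} {g : ℕ → ℕ}
    (hg : ∀ a a', w ≤ a → a ≤ a' → a' ≤ b → g a + (a' - a) ≤ g a' + 1) {a a' : ℕ} (hw : w ≤ a)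
    (h : a ≤ a') : cut b g a + (a' - a) ≤ cut b g a' + 1 := by
  by_cases h1 : a' ≤ b
  · rw [cut_le h1, cut_le (h.trans h1)]
    exact hg a a' hw h h1
  · push Not at h1
    rw [cut_gt h1]
    by_cases h2 : a ≤ b
    · rw [cut_le h2]
      have := hg a b hw h2 le_rfl
      omega
    · push Not at h2
      rw [cut_gt h2]
      omega

theorem cut_lip {b w K : ℕ} {g : ℕ → ℕ} (hK : 1 ≤ K)
    (hg : ∀ a a', w ≤ a → a ≤ a' → a' ≤ b → g a' ≤ g a + K * (a' - a) + 1) {a a' : ℕ}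
    (hw : w ≤ a) (h : a ≤ a') : cut b g a' ≤ cut b g a + K * (a' - a) + 1 := by
  have key : ∀ d : ℕ, d ≤ K * d := fun d => Nat.le_mul_of_pos_left d hK
  by_cases h1 : a' ≤ b
  · rw [cut_le h1, cut_le (h.trans h1)]
    exact hg a a' hw h h1
  · push Not at h1
    rw [cut_gt h1]
    by_cases h2 : a ≤ b
    · rw [cut_le h2]
      have h3 := hg a b hw h2 le_rfl
      have h4 : K * (a' - a) = K * (b - a) + K * (a' - b) := by
        rw [← Nat.mul_add]
        congr 1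
        omega
      have := key (a' - b)
      omega
    · push Not at h2
      rw [cut_gt h2]
      have h4 : K * (a' - a) = K * (a' - a) := rfl
      have := key (a' - a)
      omega

open Classical in
/-- **The scale**, for functions with a cap: `b` is the last radius of the set. -/
theorem scale (hSCL : SCL2Stmt) (K B Λ : ℕ) (ε η : ℝ) (hK : 1 ≤ K) (hB : 1 ≤ B) (hΛ : 1 ≤ Λ)
    (hε : 0 < ε) (hη : 0 < η) : ∃ N₁ : ℕ, 1 ≤ N₁ ∧
    ∀ (N : ℕ) (g p : ℕ → ℕ) (R : ℕ → Prop) (w γ ρ : ℕ), (N₁ : ℝ) * N₁ ≤ ε * N →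
      (N₁ : ℝ) * γ ≤ ε * N → 2 ≤ γ →
      (∀ b < N, w ≤ b → g b ≤ p b + γ → p b + 2 * γ ≤ ρ →
        (∀ a a', a ≤ a' → a' ≤ b → g a ≤ g a') ∧
        (∀ a a', w ≤ a → a ≤ a' → a' ≤ b → p a' ≤ p a + K * (a' - a) + 1) ∧
        (∀ a, w ≤ a → a ≤ b → p a ≤ g a) ∧
        (∀ a a', w ≤ a → a ≤ a' → a' ≤ b → g a + (a' - a) ≤ g a' + 1) ∧
        (∀ a a', w ≤ a → a ≤ a' → a' ≤ b → p a + (a' - a) ≤ p a' + 1)) →
      ε * N < (((range N).filter fun a => w ≤ a ∧ g a ≤ p a + γ ∧ p a + 2 * γ ≤ ρ ∧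
        R (p a)).card : ℝ) →
      ∃ (x a₀ b kk : ℕ) (s : ℝ) (Good : Finset ℕ), N₁ ≤ x ∧ ε * N ≤ N₁ * x ∧ w ≤ a₀ ∧
        b < N ∧ g b ≤ p b + γ ∧ p b + 2 * γ ≤ ρ ∧ a₀ + (kk + B + 1) * x ≤ b ∧ kk ∈ Good ∧
        (∀ k ∈ Good, k ≤ kk) ∧ 1 ≤ s ∧ s ≤ K ∧ Good ⊆ range (Λ * B) ∧
        (1 - η) * (Λ * B) ≤ (Good.card : ℝ) ∧ ∀ k ∈ Good,
          (∀ v ≤ B, |(g (a₀ + (k + v) * x) : ℝ) - g (a₀ + k * x) - s * (v * x)| ≤
            4 * K * x) ∧
          (∀ v ≤ B, g (a₀ + (k + v) * x) ≤ p (a₀ + (k + v) * x) + 4 * K * x) ∧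
          (∀ P₁ P₂ : ℕ, g (a₀ + k * x) ≤ P₁ → P₁ + 32 * K * x ≤ P₂ →
            P₂ ≤ g (a₀ + (k + B) * x) →
            ε / (32 * K) * (P₂ - P₁) ≤ (((Ico P₁ P₂).filter fun P => R P).card : ℝ)) := by
  classical
  obtain ⟨N₁, hN₁, h⟩ := hSCL K (B + 1) Λ ε (min η (1 / 2) / 2) hK (by omega) hΛ hε (by positivity)
  refine ⟨N₁, hN₁, ?_⟩
  intro N g p R w γ ρ hNN hNγ hγ hlaw hcard
  have hN₁' : (1 : ℝ) ≤ N₁ := by exact_mod_cast hN₁
  have hεN : 0 < ε * N := by nlinarith only [hNN, hN₁']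
  set S := (range N).filter fun a => w ≤ a ∧ g a ≤ p a + γ ∧ p a + 2 * γ ≤ ρ ∧ R (p a) with hS
  have hne : S.Nonempty := by
    rw [← Finset.card_pos]
    have : (0 : ℝ) < S.card := hεN.trans hcard
    exact_mod_cast this
  obtain ⟨b, hb⟩ : ∃ b, b = S.max' hne := ⟨_, rfl⟩
  have hbS : b ∈ S := by rw [hb]; exact S.max'_mem hne
  have hbmax : ∀ a ∈ S, a ≤ b := fun a ha => by rw [hb]; exact S.le_max' a ha
  have hbS' := hbS
  rw [hS, Finset.mem_filter, Finset.mem_range] at hbS'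
  obtain ⟨hbN, hwb, hgb, hpb, hRb⟩ := hbS'
  obtain ⟨hmono, hlip, hpg, htg, htp⟩ := hlaw b hbN hwb hgb hpb
  -- the cut functions
  have hsub : S ⊆ (range (b + 1)).filter fun a => w ≤ a ∧ cut b g a ≤ cut b p a + γ ∧
      R (cut b p a) := by
    intro a ha
    have h1 := hbmax a ha
    rw [hS, Finset.mem_filter] at ha
    rw [Finset.mem_filter, Finset.mem_range, cut_le h1, cut_le h1]
    exact ⟨by omega, ha.2.1, ha.2.2.1, ha.2.2.2.2⟩
  have hSle : (S.card : ℝ) ≤ ((b + 1 : ℕ) : ℝ) := by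
    have h1 : S.card ≤ (range (b + 1)).card := Finset.card_le_card fun a ha => by
      rw [Finset.mem_range]
      have := hbmax a ha
      omega
    rw [Finset.card_range] at h1
    exact_mod_cast h1
  have hbig : ε * N ≤ ((b + 1 : ℕ) : ℝ) := hcard.le.trans hSle
  have hbN' : ((b + 1 : ℕ) : ℝ) ≤ N := by exact_mod_cast hbN
  obtain ⟨x, a₀, s, Good, c1, c2, c3, c4, c5, c6, c7, c8, c9⟩ := h (b + 1) (cut b g) (cut b p) R w γ
    (by
      have : ((N₁ * N₁ : ℕ) : ℝ) ≤ ((b + 1 : ℕ) : ℝ) := by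
        rw [Nat.cast_mul]
        exact hNN.trans hbig
      exact_mod_cast this)
    (by
      have : ((N₁ * γ : ℕ) : ℝ) ≤ ((b + 1 : ℕ) : ℝ) := by
        rw [Nat.cast_mul]
        exact hNγ.trans hbig
      exact_mod_cast this)
    (cut_mono hmono)
    (fun a a' h1 h2 h3 => by
      have := cut_lip hK hlip h1 h2
      omega)
    (fun a h1 h2 => by
      by_cases h3 : a ≤ b
      · rw [cut_le h3, cut_le h3]
        exact hpg a h1 h3
      · push Not at h3
        rw [cut_gt h3, cut_gt h3]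
        have := hpg b hwb le_rfl
        omega)
    (fun a a' h1 h2 h3 => by
      have := cut_triv htg h1 h2
      omega)
    (fun a a' h1 h2 h3 => by
      have := cut_triv htp h1 h2
      omega)
    (by
      refine le_trans ?_ ((hcard.le).trans (by exact_mod_cast Finset.card_le_card hsub))
      exact mul_le_mul_of_nonneg_left hbN' hε.le)
  -- the good levels
  obtain ⟨Good', hG'⟩ : ∃ G : Finset ℕ, G = Good.filter fun k => k < Λ * B := ⟨_, rfl⟩
  have hsubG : Good' ⊆ range (Λ * B) := by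
    intro k hk
    rw [hG', Finset.mem_filter] at hk
    exact Finset.mem_range.2 hk.2
  have hcG : Good.card ≤ Good'.card + Λ := by
    have h1 : Good ⊆ Good' ∪ (Ico (Λ * B) (Λ * (B + 1))) := by
      intro k hk
      rw [Finset.mem_union, hG', Finset.mem_filter, Finset.mem_Ico]
      have := Finset.mem_range.1 (c7 hk)
      by_cases h2 : k < Λ * B
      · exact Or.inl ⟨hk, h2⟩
      · exact Or.inr ⟨by omega, this⟩
    have h2 := (Finset.card_le_card h1).trans (Finset.card_union_le _ _)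
    rw [Nat.card_Ico] at h2
    have h3 : Λ * (B + 1) - Λ * B = Λ := by
      rw [Nat.mul_add, Nat.mul_one]
      omega
    omega
  have hΛ' : (1 : ℝ) ≤ Λ := by exact_mod_cast hΛ
  have hB' : (1 : ℝ) ≤ B := by exact_mod_cast hB
  have hη2 : min η (1 / 2) ≤ 1 / 2 := min_le_right _ _
  have hη1 : min η (1 / 2) ≤ η := min_le_left _ _
  have hη0 : 0 < min η (1 / 2) := by positivity
  have hcG' : (1 - min η (1 / 2)) * (Λ * B) ≤ (Good'.card : ℝ) := by
    have h1 : (Good.card : ℝ) ≤ Good'.card + Λ := by exact_mod_cast hcG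
    have h2 := c8
    push_cast at h2
    have h3 : (Λ : ℝ) ≤ Λ * B := le_mul_of_one_le_right (by linarith only [hΛ', hη2, hη0]) hB'
    nlinarith only [h1, h2, hη0, h3]
  have hneG : Good'.Nonempty := by
    rw [← Finset.card_pos]
    have h1 : (1 : ℝ) ≤ Λ * B := by nlinarith only [hB', hΛ']
    have : (0 : ℝ) < Good'.card := by nlinarith only [hη2, hcG', h1]
    exact_mod_cast this
  obtain ⟨kk, hkk⟩ : ∃ kk, kk = Good'.max' hneG := ⟨_, rfl⟩
  have hkkG : kk ∈ Good' := by rw [hkk]; exact Good'.max'_mem hneG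
  have hkkmax : ∀ k ∈ Good', k ≤ kk := fun k hk => by rw [hkk]; exact Good'.le_max' k hk
  have hmem : ∀ k ∈ Good', k ∈ Good := fun k hk => by
    rw [hG', Finset.mem_filter] at hk
    exact hk.1
  have hkb : a₀ + (kk + B + 1) * x ≤ b := by
    obtain ⟨b', hb1, hb2, hb3, hb4, hb5⟩ := (c9 kk (hmem kk hkkG)).2.2.2
    have e : kk + (B + 1) = kk + B + 1 := by omega
    rw [e] at hb1
    omega
  refine ⟨x, a₀, b, kk, s, Good', c2, ?_, c3, hbN, hgb, hpb, hkb, hkkG, hkkmax, c5, c6, hsubG, ?_,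
    fun k hk => ?_⟩
  · refine hbig.trans ?_
    exact_mod_cast c1
  · refine le_trans ?_ hcG'
    have h1 : (0 : ℝ) ≤ Λ * B := by positivity
    nlinarith only [hη1, h1]
  · obtain ⟨d1, d2, d3, -⟩ := c9 k (hmem k hk)
    have hle : ∀ v ≤ B, a₀ + (k + v) * x ≤ b := by
      intro v hv
      have h1 := hkkmax k hk
      have h2 : (k + v) * x ≤ (kk + B + 1) * x := Nat.mul_le_mul_right _ (by omega)
      omega
    have hle0 : a₀ + k * x ≤ b := hle 0 (by omega)
    refine ⟨fun v hv => ?_, fun v hv => ?_, fun P₁ P₂ h1 h2 h3 => ?_⟩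
    · have := d1 v (by omega)
      rwa [cut_le (hle v hv), cut_le hle0] at this
    · have := d2 v (by omega)
      rwa [cut_le (hle v hv), cut_le (hle v hv)] at this
    · refine d3 P₁ P₂ (by rwa [cut_le hle0]) h2 ?_
      refine h3.trans ?_
      have h4 := cut_mono hmono (show a₀ + (k + B) * x ≤ a₀ + (k + (B + 1)) * x by
        have : (k + B) * x ≤ (k + (B + 1)) * x := Nat.mul_le_mul_right _ (by omega)
        omega)
      rwa [cut_le (hle B le_rfl)] at h4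

end Pool.BFL
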