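import Pool.Agent.H19.BFL.Asm2

/-!
# Ball frontier lemma, assembly 3: the rates of the rows from blocks
-/

set_option autoImplicit false

namespace Pool.BFL

open Finset Real
open Pool.Agent.H49.Ent Pool.Agent.H32.Dense Pool.STK Pool.KS3 Pool.KA Pool.KSAT Pool.K2S Pool.PB

open Classical in
/-- Good rows are in good blocks, except near the ends. -/
theorem blocks (Z : ℕ → Prop) (L M p₁ p₂ : ℕ) (hL : 0 < L) (hM : p₂ ≤ M * L) :
    ((Ico p₁ p₂).filter fun P => Z (P / L)).card ≤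
      L * (((range M).filter fun l => p₁ ≤ l * L ∧ (l + 1) * L ≤ p₂ ∧ Z l).card + 2) := by
  set G := (range M).filter fun l => p₁ ≤ l * L ∧ (l + 1) * L ≤ p₂ ∧ Z l with hG
  have hsub : (Ico p₁ p₂).filter (fun P => Z (P / L)) ⊆
      (insert (p₁ / L) (insert (p₂ / L) G)).biUnion fun l => Ico (l * L) ((l + 1) * L) := by
    intro P hP
    rw [Finset.mem_filter, Finset.mem_Ico] at hP
    obtain ⟨⟨h1, h2⟩, h3⟩ := hP
    have h4 : P / L * L ≤ P := Nat.div_mul_le_self P L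
    have h5 : P < (P / L + 1) * L := by
      have := Nat.div_add_mod P L
      have h6 := Nat.mod_lt P hL
      rw [Nat.add_mul, Nat.one_mul, Nat.mul_comm]
      omega
    rw [Finset.mem_biUnion]
    refine ⟨P / L, ?_, Finset.mem_Ico.2 ⟨h4, h5⟩⟩
    rw [Finset.mem_insert, Finset.mem_insert]
    by_cases h6 : p₁ ≤ P / L * L
    · by_cases h7 : (P / L + 1) * L ≤ p₂
      · right; right
        rw [hG, Finset.mem_filter, Finset.mem_range]
        refine ⟨?_, h6, h7, h3⟩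
        have h8 : (P / L + 1) * L ≤ M * L := h7.trans hM
        have h9 := Nat.le_of_mul_le_mul_right h8 hL
        omega
      · right; left
        push Not at h7
        refine le_antisymm ?_ ?_
        · exact Nat.div_le_div_right h2.le
        · have := (Nat.div_lt_iff_lt_mul hL).2 h7
          omega
    · left
      push Not at h6
      refine le_antisymm ?_ ?_
      · have : P / L * L < (p₁ / L + 1) * L := by
          refine h6.trans ?_
          have := Nat.div_add_mod p₁ L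
          have h6 := Nat.mod_lt p₁ hL
          rw [Nat.add_mul, Nat.one_mul, Nat.mul_comm]
          omega
        have := Nat.lt_of_mul_lt_mul_right this
        omega
      · exact Nat.div_le_div_right h1
  refine (Finset.card_le_card hsub).trans ?_
  refine (Finset.card_biUnion_le).trans ?_
  have h1 : ∀ l ∈ insert (p₁ / L) (insert (p₂ / L) G), (Ico (l * L) ((l + 1) * L)).card = L := by
    intro l _
    rw [Nat.card_Ico, Nat.add_mul, Nat.one_mul]
    omega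
  rw [Finset.sum_congr rfl h1, Finset.sum_const, smul_eq_mul, Nat.mul_comm]
  refine Nat.mul_le_mul_left _ ?_
  have h2 := Finset.card_insert_le (p₁ / L) (insert (p₂ / L) G)
  have h3 := Finset.card_insert_le (p₂ / L) G
  omega

open Classical in
/-- **The rates** of the rows between the precisions `gk` and `gB`, for all smaller events. -/
theorem rates (hRTE : RTEStmt) {m J : ℕ} {F : Fam m J} {i₁ : Fin m} {r : ℕ} {Γ : Type}
    {c : ℕ → F.Ω → Γ} {y₀ : ℕ → Γ → Fin m → ℝ} {Φ : ℕ → Γ → Pl m} {g : ℕ → ℕ} {A : F.Ω → Prop}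
    {K L M u x gk gB : ℕ} {cc δ₀ c₂ : ℝ} (hTr : F.Tr) (hK : 1 ≤ K) (hL : 1 ≤ L) (hu : 1 ≤ u)
    (hx : 1 ≤ x) (hLx : L ≤ x) (hcL : cc * L ≤ x) (hc : 0 < cc) (hδ : 0 < δ₀) (hc₂ : c₂ ≤ 1)
    (hc₂' : c₂ ≤ cc / 2 * δ₀) (hc₂0 : 0 ≤ c₂) (hgB : gB ≤ M * L) (hJ : M * L * u ≤ J)
    (Z : ℕ → Prop)
    (hZ : ∀ l < M, Z l → Cp F (l * (L * u)) ((l + 1) * (L * u))
      ((m - cc / 2) * (((L * u : ℕ) : ℝ) * Real.log 2)) A)
    (hd : ∀ P₁ P₂ : ℕ, gk ≤ P₁ → P₁ + 32 * K * x ≤ P₂ → P₂ ≤ gB →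
      δ₀ * (P₂ - P₁) ≤ (((Ico P₁ P₂).filter fun P => Z (P / L)).card : ℝ))
    {B : F.Ω → Prop} (hB : Sub B A) (hB0 : 0 < Pe F.p B) {P₁ P₂ : ℕ} (h1 : gk * u ≤ P₁)
    (h12 : P₁ ≤ P₂) (h2 : P₂ ≤ gB * u) :
    (fdat F i₁ r c y₀ Φ g).Rate J (Pool.Agent.H49.Ent.cond F.p B True) c₂
      ((40 * K + 1 : ℝ) * ((x * u : ℕ) : ℝ)) P₁ P₂ := by
  have hP2J : P₂ ≤ J := h2.trans ((Nat.mul_le_mul_right _ hgB).trans hJ)
  have hlog : Real.log 2 ≤ 1 := by
    have := Real.log_two_lt_d9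
    linarith only [this]
  have hlog0 : 0 < Real.log 2 := Real.log_pos one_lt_two
  have hxr : (1 : ℝ) ≤ x := by exact_mod_cast hx
  have hur : (1 : ℝ) ≤ u := by exact_mod_cast hu
  have hKr : (1 : ℝ) ≤ K := by exact_mod_cast hK
  have hLr : (1 : ℝ) ≤ L := by exact_mod_cast hL
  have hxu : (u : ℝ) ≤ x * u := le_mul_of_one_le_left (by linarith only [hur]) hxr
  have hxu0 : (0 : ℝ) ≤ x * u := by positivity
  have hKxu : (x * u : ℝ) ≤ K * (x * u) := le_mul_of_one_le_left hxu0 hKr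
  -- the mesh points
  obtain ⟨p₁, hp₁⟩ : ∃ p₁, p₁ = (P₁ + u - 1) / u := ⟨_, rfl⟩
  obtain ⟨p₂, hp₂⟩ : ∃ p₂, p₂ = P₂ / u := ⟨_, rfl⟩
  have a1 : P₁ ≤ p₁ * u ∧ p₁ * u < P₁ + u := by
    have e1 := Nat.div_add_mod (P₁ + u - 1) u
    have e2 := Nat.mod_lt (P₁ + u - 1) hu
    rw [← hp₁, Nat.mul_comm] at e1
    omega
  have a2 : p₂ * u ≤ P₂ ∧ P₂ < p₂ * u + u := by
    have e1 := Nat.div_add_mod P₂ u
    have e2 := Nat.mod_lt P₂ hu
    rw [← hp₂, Nat.mul_comm] at e1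
    omega
  have a3 : gk ≤ p₁ := by
    have : gk * u ≤ p₁ * u := h1.trans a1.1
    exact Nat.le_of_mul_le_mul_right this hu
  have a4 : p₂ ≤ gB := by
    have : p₂ * u ≤ gB * u := a2.1.trans h2
    exact Nat.le_of_mul_le_mul_right this hu
  have b1 : (p₁ : ℝ) * u < P₁ + u := by exact_mod_cast a1.2
  have b2 : (P₂ : ℝ) < p₂ * u + u := by exact_mod_cast a2.2
  by_cases hlong : p₁ + 32 * K * x ≤ p₂
  · -- long intervals
    set G := (range M).filter fun l => p₁ ≤ l * L ∧ (l + 1) * L ≤ p₂ ∧ Z l with hG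
    have hcount := blocks Z L M p₁ p₂ hL (a4.trans hgB)
    rw [← hG] at hcount
    have hdens := hd p₁ p₂ a3 hlong a4
    refine hRTE m J F i₁ r Γ c y₀ Φ g A B (L * u) G P₁ P₂ (cc / 2) c₂ _ hTr hB hB0 h12 hP2J
      (fun l hl => ?_) ?_
    · rw [hG, Finset.mem_filter, Finset.mem_range] at hl
      obtain ⟨hlM, hl1, hl2, hl3⟩ := hl
      refine ⟨?_, ?_, hZ l hlM hl3⟩
      · calc P₁ ≤ p₁ * u := a1.1
          _ ≤ (l * L) * u := Nat.mul_le_mul_right _ hl1
          _ = _ := by ring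
      · calc (l + 1) * (L * u) = ((l + 1) * L) * u := by ring
          _ ≤ p₂ * u := Nat.mul_le_mul_right _ hl2
          _ ≤ P₂ := a2.1
    · have hcount' : δ₀ * ((p₂ : ℝ) - p₁) ≤ L * (G.card + 2) := by
        refine hdens.trans ?_
        exact_mod_cast hcount
      have e1 : ((P₂ : ℝ) - P₁) ≤ ((p₂ : ℝ) - p₁) * u + 2 * u := by nlinarith only [b1, b2]
      have e2 : ((p₁ : ℝ)) ≤ p₂ := by
        have : p₁ ≤ p₂ := by omega
        exact_mod_cast this
      have e3 : c₂ * ((P₂ : ℝ) - P₁) ≤ cc / 2 * (L * u) * G.card + (2 * u + cc * L * u) := by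
        have f1 : c₂ * ((P₂ : ℝ) - P₁) ≤ c₂ * (((p₂ : ℝ) - p₁) * u) + c₂ * (2 * u) := by
          rw [← mul_add]
          exact mul_le_mul_of_nonneg_left e1 hc₂0
        have f2 : c₂ * (2 * u) ≤ 2 * u := mul_le_of_le_one_left (by linarith only [hur]) hc₂
        have f3 : c₂ * (((p₂ : ℝ) - p₁) * u) ≤ cc / 2 * δ₀ * (((p₂ : ℝ) - p₁) * u) :=
          mul_le_mul_of_nonneg_right hc₂' (mul_nonneg (by linarith only [e2]) (by linarith only [hur]))
        have f4 : cc / 2 * δ₀ * (((p₂ : ℝ) - p₁) * u) = cc / 2 * u * (δ₀ * ((p₂ : ℝ) - p₁)) := by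
          ring
        have f5 : cc / 2 * u * (δ₀ * ((p₂ : ℝ) - p₁)) ≤ cc / 2 * u * (L * (G.card + 2)) :=
          mul_le_mul_of_nonneg_left hcount' (by positivity)
        have f6 : cc / 2 * u * ((L : ℝ) * (G.card + 2)) =
            cc / 2 * (L * u) * G.card + cc * L * u := by ring
        linarith only [f1, f2, f3, f5]
      have e4 : cc * L * u ≤ x * u := mul_le_mul_of_nonneg_right hcL (by linarith only [hur])
      have e5 : c₂ * (((P₂ : ℝ) - P₁) * Real.log 2) = c₂ * ((P₂ : ℝ) - P₁) * Real.log 2 := by ring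
      have e6 : c₂ * ((P₂ : ℝ) - P₁) * Real.log 2 ≤
          (cc / 2 * (L * u) * G.card + (2 * u + cc * L * u)) * Real.log 2 :=
        mul_le_mul_of_nonneg_right e3 hlog0.le
      have e7 : (2 * u + cc * L * u) * Real.log 2 ≤ 2 * u + cc * L * u :=
        mul_le_of_le_one_right (by positivity) hlog
      push_cast
      nlinarith only [hur, hxu, hKxu, e4, e6, e7]
  · -- short intervals
    push Not at hlong
    refine hRTE m J F i₁ r Γ c y₀ Φ g A B (L * u) ∅ P₁ P₂ (cc / 2) c₂ _ hTr hB hB0 h12 hP2J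
      (fun l hl => absurd hl (Finset.notMem_empty l)) ?_
    rw [Finset.card_empty]
    have hs : (p₂ : ℝ) ≤ p₁ + 32 * K * x := by exact_mod_cast hlong.le
    have e1 : ((P₂ : ℝ) - P₁) ≤ (32 * K * x + 2) * u := by
      have : ((p₂ : ℝ) - p₁) * u ≤ (32 * K * x) * u :=
        mul_le_mul_of_nonneg_right (by linarith only [hs]) (by linarith only [hur])
      nlinarith only [b1, b2, this]
    have e0 : 0 ≤ (P₂ : ℝ) - P₁ := by
      have : (P₁ : ℝ) ≤ P₂ := by exact_mod_cast h12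
      linarith only [this]
    have e2 : c₂ * (((P₂ : ℝ) - P₁) * Real.log 2) ≤ ((P₂ : ℝ) - P₁) * Real.log 2 :=
      mul_le_of_le_one_left (mul_nonneg e0 hlog0.le) hc₂
    have e3 : ((P₂ : ℝ) - P₁) * Real.log 2 ≤ (P₂ : ℝ) - P₁ := mul_le_of_le_one_right e0 hlog
    push_cast
    nlinarith only [hur, hxu, hKxu, e1, e2, e3]

end Pool.BFL
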