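import Pool.Agent.H19.BFL.Stmts4

/-!
# Ball frontier lemma: row SYS with `κ₁ ≤ κ`, and the trivial law of the labels
-/

set_option autoImplicit false

namespace Pool.BFL

open Finset Real
open Pool.Agent.H49.Ent Pool.Agent.H32.Dense Pool.STK Pool.KS3 Pool.KA Pool.KSAT Pool.K2S Pool.PB

variable {m : ℕ}

/-- Row SYS, with `κ₁ ≤ κ`: the system of a family, for all large events. -/
def SYS2Stmt : Prop :=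
  ∀ (m K M : ℕ) (κ : ℝ), 2 ≤ m → 0 < κ → ∃ κ₁ : ℝ, 0 < κ₁ ∧ κ₁ ≤ κ ∧ ∃ z₀ : ℕ,
    ∀ (J r w₀ z h : ℕ) (ψ τ gs : ℝ) (F : Fam m J) (i₁ : Fin m) (A : F.Ω → Prop) (g : ℕ → ℕ)
      (tp : ℕ → ℕ → ℕ), z₀ ≤ z → r ≤ J → w₀ + (M + 1) * z ≤ r → F.Tr → 0 ≤ τ →
    F.Tm (τ * J) → F.Rb (τ * J) → τ * J ≤ κ₁ * z → 2 * Real.exp (-(τ * J)) ≤ κ₁ * Pe F.p A →
    Ch F i₁ h A → κ₁ * z ≤ 2 * (h * Real.log 2) → 4 * (gs * J) ≤ κ₁ * z → 0 < gs →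
    Real.exp (-(ψ * J)) ≤ κ₁ → Sp F (m - 2) ψ gs A → Monotone g →
    (∀ k ≤ M, ((w₀ + k * z : ℕ) : ℝ) ≤ g k + κ₁ * z) →
    (∀ k ≤ M, Tb F i₁ r K (w₀ + k * z) (w₀ + k * z) (g k) A) →
    (∀ k v : ℕ, k + v ≤ M → Tb F i₁ r K (w₀ + (k + v) * z) (w₀ + k * z) (tp k v) A) →
    ∃ (Γ : Type) (c : ℕ → F.Ω → Γ) (y₀ : ℕ → Γ → Fin m → ℝ) (Φ : ℕ → Γ → Pl m)
      (A' : F.Ω → Prop), Sub A' A ∧ 1 / 4 * Pe F.p A ≤ Pe F.p A' ∧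
      (∀ B : F.Ω → Prop, Sub B A' → Real.exp (-(τ * J)) ≤ Pe F.p B →
        Real.exp (-(ψ * J)) * Pe F.p A ≤ κ₁ * Pe F.p B →
        (fdat F i₁ r c y₀ Φ g).Ok K J r w₀ z M κ (Pool.Agent.H49.Ent.cond F.p B True)) ∧
      ∀ k v : ℕ, k + v ≤ M →
        ∃ (Q : (((Fin m → ℝ) × (Fin m → ℝ)) × F.ζ) × ℕ → Pl m) (Qb : Γ → Pl m),
        (∀ x, (Q x).totalDegree ≤ K) ∧ (∀ x, (Qb x).totalDegree ≤ K) ∧
        ∀ ω, A' ω → |F.x ω i₁ - MvPolynomial.eval (bp F i₁ ω) (Qb (c (k + v) ω))| ≤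
            Real.exp (κ * z) / 2 ^ tp k v ∧
          ∀ b : Fin m → ℝ, (∀ i, |b i - bp F i₁ ω i| ≤ 1 / 2 ^ (w₀ + (k + v) * z)) →
            |MvPolynomial.eval b (Q ((F.l ω, F.Z ω), F.T ω / 2 ^ (J - (w₀ + k * z)))) -
              MvPolynomial.eval b (Qb (c (k + v) ω))| ≤ Real.exp (κ * z) / 2 ^ tp k v

/-- **The trivial law** of the labels: from the ball of radius `2 ^ (-a u)` to the ball of radius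
`2 ^ (-(a + v) u)` the precision increases by `v - 1` units. -/
def TRLS (S : FCl m) : Prop :=
  ∀ (h₁ X : ℝ) (K : ℕ), 0 < h₁ → 0 < X → 1 ≤ K → ∃ N₁ : ℕ, ∀ N ≥ N₁,
    ∀ (i₁ : Fin m) (ρ a w v P : ℕ), w ≤ a → a + v ≤ ρ → P + v ≤ ρ → (ρ : ℝ) + X * N ≤ N →
    Clg S (fun J F A => Ch F i₁ ⌊h₁ * J⌋₊ A →
      Tb F i₁ (ρ * (J / N)) K (a * (J / N)) (w * (J / N)) (P * (J / N)) A →
      Tb F i₁ (ρ * (J / N)) K ((a + v) * (J / N)) (w * (J / N)) ((P + v - 1) * (J / N)) A)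

end Pool.BFL
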