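import Pool.Agent.H19.BFL.Asm3
import Pool.Agent.H19.BFL.Stmts7
import Pool.Agent.H34.BFL.Mono
import Pool.Agent.H3.BFL.SYS

/-!
# Ball frontier lemma, assembly 4: one event, basic facts
-/

set_option autoImplicit false

namespace Pool.BFL

open Finset Real
open Pool.Agent.H49.Ent Pool.Agent.H32.Dense Pool.STK Pool.KS3 Pool.KA Pool.KSAT Pool.K2S Pool.PB
open Pool.Agent.H34.BFL

theorem exp_small (κ δ : ℝ) (hκ : 0 < κ) (hδ : 0 < δ) :
    ∃ J₀ : ℕ, ∀ J : ℕ, J₀ ≤ J → Real.exp (-(κ * J)) ≤ δ := by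
  obtain ⟨J₀, hJ₀⟩ := exists_nat_ge (-Real.log δ / κ)
  refine ⟨J₀, fun J hJ => ?_⟩
  have h1 : (J₀ : ℝ) ≤ J := by exact_mod_cast hJ
  have h2 : -Real.log δ ≤ κ * J := by
    have := hJ₀.trans h1
    rw [div_le_iff₀ hκ] at this
    linarith
  calc Real.exp (-(κ * J)) ≤ Real.exp (Real.log δ) := Real.exp_le_exp.2 (by linarith)
    _ = δ := Real.exp_log hδ

theorem two_pow_le (n : ℕ) : (2 : ℝ) ^ n ≤ Real.exp n := by
  have h1 : (2 : ℝ) ≤ Real.exp 1 := by
    have := Real.add_one_le_exp (1 : ℝ)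
    linarith
  calc (2 : ℝ) ^ n ≤ Real.exp 1 ^ n := pow_le_pow_left₀ (by norm_num) h1 n
    _ = Real.exp n := by rw [← Real.exp_nat_mul, mul_one]

/-- The precision of a tube label in terms of the precision of the ball. -/
theorem prec {κ C : ℝ} {z t g k : ℕ} (hg : g ≤ t + k * z) (hC : κ + k ≤ C) :
    Real.exp (κ * z) / 2 ^ t ≤ Real.exp (C * z) / 2 ^ g := by
  have hz : (0 : ℝ) ≤ z := Nat.cast_nonneg z
  rw [div_le_div_iff₀ (by positivity) (by positivity)]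
  have h1 : (2 : ℝ) ^ g ≤ 2 ^ t * Real.exp (k * z) := by
    calc (2 : ℝ) ^ g ≤ 2 ^ (t + k * z) := pow_le_pow_right₀ (by norm_num) hg
      _ = 2 ^ t * 2 ^ (k * z) := pow_add _ _ _
      _ ≤ 2 ^ t * Real.exp ((k * z : ℕ) : ℝ) :=
        mul_le_mul_of_nonneg_left (two_pow_le _) (by positivity)
      _ = _ := by push_cast; rfl
  calc Real.exp (κ * z) * 2 ^ g ≤ Real.exp (κ * z) * (2 ^ t * Real.exp (k * z)) :=
        mul_le_mul_of_nonneg_left h1 (Real.exp_pos _).le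
    _ = Real.exp (κ * z + k * z) * 2 ^ t := by rw [Real.exp_add]; ring
    _ ≤ Real.exp (C * z) * 2 ^ t := by
        refine mul_le_mul_of_nonneg_right (Real.exp_le_exp.2 ?_) (by positivity)
        nlinarith

end Pool.BFL
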