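import Pool.Agent.H19.BFL.Asm4

/-!
# Ball frontier lemma, assembly 5: one event, given the scale
-/

set_option autoImplicit false

namespace Pool.BFL

open Finset Real
open Pool.Agent.H49.Ent Pool.Agent.H32.Dense Pool.STK Pool.KS3 Pool.KA Pool.KSAT Pool.K2S Pool.PB
open Pool.Agent.H34.BFL

/-- Row MAI for given constants. -/
def MAIi (n K A U₀ : ℕ) (C₁ C₃ c : ℝ) (B L : ℕ) (η κ : ℝ) (z₀ : ℕ) : Prop :=
    ∀ (J r w₀ z M : ℕ) (s : ℝ) (Good : Finset ℕ) (D : Dat n) (q : D.Ω → ℝ),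
      z₀ ≤ z → D.Ok K J r w₀ z M κ q → M ≤ (L + 1) * B → 1 ≤ s → s ≤ K →
      Good ⊆ range (L * B) → (1 - η) * (L * B) ≤ (Good.card : ℝ) → (∀ k ∈ Good, k + B ≤ M) →
      (∀ k ∈ Good, D.Hom z B k s C₁) →
      (∀ k ∈ Good, ∀ v, 1 ≤ v → v ≤ B → ∃ Q Qb, D.Tube K J w₀ z v k C₁ q Q Qb) →
      (∀ k ∈ Good, ∀ j U B' : ℕ, 1 ≤ j → j ≤ K → U₀ ≤ U → (j + 2) * U ≤ B' → B' ≤ B →
        D.Hom z B' k j (C₁ + 1) → ∀ P₁ P₂ : ℕ, D.g k + j * ((U - 1) * z) ≤ P₁ → P₁ ≤ P₂ →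
        P₂ ≤ D.g k + (j + 1) * (U * z) →
        D.Cnt J k (k + U) (w₀ + (k + B') * z) q c (C₃ * z) P₁ P₂) →
      ∃ k ∈ Good, ∃ v ≤ B, D.g (k + v) + A * z ≤ D.g (k + B) ∧
        D.NewLab K J q (w₀ + (k + v) * z) (D.g (k + v) + A * z)

/-- Row UCN for given constants. -/
def UCNi (n K : ℕ) (C₁ C₃ : ℝ) (U₀ B R M : ℕ) (κ κ₂ : ℝ) (z₀ : ℕ) : Prop :=
    ∀ (J r w₀ z : ℕ) (c : ℝ) (D : Dat n) (p : D.Ω → ℝ) (A : D.Ω → Prop) (Good : Finset ℕ),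
      z₀ ≤ z → J ≤ R * z → IsLaw p → 0 < Pe p A → 0 ≤ c → c ≤ 1 →
      (∀ k ∈ Good, k + B ≤ M ∧ D.g (k + B) ≤ r) →
      (∀ B' : D.Ω → Prop, Sub B' A → Real.exp (-(κ₂ * z)) * Pe p A ≤ Pe p B' →
        D.Ok K J r w₀ z M κ (Pool.Agent.H49.Ent.cond p B' True) ∧
        ∀ k ∈ Good, ∀ P₁ P₂ : ℕ, D.g k ≤ P₁ → P₁ ≤ P₂ → P₂ ≤ D.g (k + B) →
          D.Rate J (Pool.Agent.H49.Ent.cond p B' True) c (C₁ * z) P₁ P₂) →
      ∃ B' : D.Ω → Prop, Sub B' A ∧ Real.exp (-(κ₂ * z)) * Pe p A ≤ Pe p B' ∧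
        ∀ k ∈ Good, ∀ j U B₁ : ℕ, 1 ≤ j → j ≤ K → U₀ ≤ U → (j + 2) * U ≤ B₁ → B₁ ≤ B →
        D.Hom z B₁ k j (C₁ + 1) → ∀ P₁ P₂ : ℕ, D.g k + j * ((U - 1) * z) ≤ P₁ → P₁ ≤ P₂ →
        P₂ ≤ D.g k + (j + 1) * (U * z) →
        D.Cnt J k (k + U) (w₀ + (k + B₁) * z) (Pool.Agent.H49.Ent.cond p B' True) c (C₃ * z)
          P₁ P₂

/-- Row PRD for given constants. -/
def PRDi (m K : ℕ) (κ κ₁ : ℝ) (z₀ : ℕ) : Prop :=
    ∀ (J r z v P h : ℕ) (ψ gs : ℝ) (F : Fam m J)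
    (i₁ : Fin m) (A B : F.Ω → Prop) (Γ : Type) (c : ℕ → F.Ω → Γ) (y₀ : ℕ → Γ → Fin m → ℝ)
    (Φ : ℕ → Γ → Pl m) (gp : ℕ → ℕ), z₀ ≤ z → r ≤ J → v + z ≤ P → v + z ≤ J → 0 < Pe F.p A →
    Ch F i₁ h A → κ * z ≤ 2 * (h * Real.log 2) → 4 * (gs * J) ≤ κ * z → 0 < gs →
    Sp F (m - 2) ψ gs A → Sub B A → Real.exp (-(ψ * J)) * Pe F.p A ≤ κ * Pe F.p B →
    J * Real.log 2 - κ₁ * z ≤
      CH (Pool.Agent.H49.Ent.cond F.p B True) F.T (fun ω => (F.l ω, F.Z ω)) →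
    (fdat F i₁ r c y₀ Φ gp).NewLab K J (Pool.Agent.H49.Ent.cond F.p B True) v P →
    ∃ B' : F.Ω → Prop, Sub B' B ∧ 1 / 4 * Pe F.p B ≤ Pe F.p B' ∧ Tb F i₁ r K v v P B'

/-- Row SYS for given constants. -/
def SYSi (m K M : ℕ) (κ κ₁ : ℝ) (z₀ : ℕ) : Prop :=
    ∀ (J r w₀ z h : ℕ) (ψ τ gs : ℝ) (F : Fam m J) (i₁ : Fin m) (A : F.Ω → Prop) (g : ℕ → ℕ)
      (tp : ℕ → ℕ → ℕ), z₀ ≤ z → r ≤ J → w₀ + (M + 1) * z ≤ r → F.Tr → 0 ≤ τ →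
    F.Tm (τ * J) → F.Rb (τ * J) → τ * J ≤ κ₁ * z → 2 * Real.exp (-(τ * J)) ≤ κ₁ * Pe F.p A →
    Ch F i₁ h A → κ₁ * z ≤ 2 * (h * Real.log 2) → 4 * (gs * J) ≤ κ₁ * z → 0 < gs →
    2 * Real.exp (-(ψ * J)) ≤ κ₁ → Sp F (m - 2) ψ gs A → Monotone g →
    (∀ k ≤ M, ((w₀ + k * z : ℕ) : ℝ) ≤ g k + κ₁ * z) →
    (∀ k ≤ M, Tb F i₁ r K (w₀ + k * z) (w₀ + k * z) (g k) A) →
    (∀ k v : ℕ, k + v ≤ M → Tb F i₁ r K (w₀ + (k + v) * z) (w₀ + k * z) (tp k v) A) →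
    ∃ (Γ : Type) (c : ℕ → F.Ω → Γ) (y₀ : ℕ → Γ → Fin m → ℝ) (Φ : ℕ → Γ → Pl m)
      (A' : F.Ω → Prop), Sub A' A ∧ 1 / 4 * Pe F.p A ≤ Pe F.p A' ∧
      (∀ B : F.Ω → Prop, Sub B A' → Real.exp (-(τ * J)) ≤ Pe F.p B →
        Real.exp (-(ψ * J)) * Pe F.p A ≤ κ₁ * Pe F.p B →
        (fdc F i₁ r c y₀ Φ g).Ok K J r w₀ z M κ (Pool.Agent.H49.Ent.cond F.p B True)) ∧
      ∀ k v : ℕ, k + v ≤ M →
        ∃ (Q : (((Fin m → ℝ) × (Fin m → ℝ)) × F.ζ) × ℕ → Pl m) (Qb : Γ → Pl m),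
        (∀ x, (Q x).totalDegree ≤ K) ∧ (∀ x, (Qb x).totalDegree ≤ K) ∧
        ∀ ω, A' ω → |F.x ω i₁ - MvPolynomial.eval (bp F i₁ ω) (Qb (c (k + v) ω))| ≤
            Real.exp (κ * z) / 2 ^ tp k v ∧
          ∀ b : Fin m → ℝ, (∀ i, |b i - bp F i₁ ω i| ≤ 1 / 2 ^ (w₀ + (k + v) * z)) →
            |MvPolynomial.eval b (Q ((F.l ω, F.Z ω), F.T ω / 2 ^ (J - (w₀ + k * z)))) -
              MvPolynomial.eval b (Qb (c (k + v) ω))| ≤ Real.exp (κ * z) / 2 ^ tp k v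

/-! ### Numerical facts -/

theorem num1 {e κ₁ κS P X : ℝ} (he : 0 < e) (he1 : e ≤ 1 / 32) (h4 : 4 * e ≤ κ₁) (hκ : κ₁ ≤ κS)
    (hP : e ≤ P) (hX : X ≤ e ^ 3) : 2 * X ≤ κS * P := by
  have h1 : e ^ 3 ≤ e * e := by
    have : 0 ≤ e * e := by positivity
    nlinarith only [he1]
  have h2 : 4 * e * e ≤ κS * P := mul_le_mul (h4.trans hκ) hP he.le (by linarith only [he, h4, hκ])
  nlinarith only [hX, h1, h2]

theorem num2 {e κ₁ κS X : ℝ} (he : 0 < e) (he1 : e ≤ 1 / 32) (h4 : 4 * e ≤ κ₁) (hκ : κ₁ ≤ κS)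
    (hX : X ≤ e ^ 4) : 2 * X ≤ κS := by
  have h1 : e ^ 4 ≤ e := pow_le_of_le_one he.le (by linarith only [he, he1]) (by norm_num)
  linarith only [he, h4, hκ, hX, h1]

theorem num3 {e P Q X : ℝ} (he : 0 < e) (he1 : e ≤ 1 / 32) (hP : e ≤ P) (hX : X ≤ e ^ 3)
    (hQ : e * (1 / 4 * P) ≤ Q) : X ≤ Q := by
  have h2 : e ^ 3 ≤ e * (1 / 4 * e) := by
    have : 0 ≤ e * e := by positivity
    nlinarith
  have h3 : e * (1 / 4 * e) ≤ e * (1 / 4 * P) := mul_le_mul_of_nonneg_left (by linarith only [hP]) he.le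
  linarith only [hX, hQ, h2, h3]

theorem num4 {e κ₁ κS P Q X : ℝ} (he : 0 < e) (he1 : e ≤ 1 / 32) (h4 : 4 * e ≤ κ₁)
    (hκ : κ₁ ≤ κS) (hP : 0 < P) (hX : X ≤ e ^ 4) (hQ : e * (1 / 4 * P) ≤ Q) :
    X * P ≤ κS * Q := by
  have hκS : 0 < κS := by linarith only [he, h4, hκ]
  have h2 : X * P ≤ e ^ 4 * P := mul_le_mul_of_nonneg_right hX hP.le
  have h5 : e ^ 4 ≤ e * e * e := by
    have : 0 ≤ e * e * e := by positivity
    nlinarith only [this, he1]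
  have h6 : e ^ 4 ≤ κ₁ * e / 4 := by
    have : e * e * e ≤ e * e := by
      have : 0 ≤ e * e := by positivity
      nlinarith only [he1]
    nlinarith only [h5, he1, he, h4]
  have h3 : e ^ 4 * P ≤ κ₁ * (e * (1 / 4 * P)) := by
    calc e ^ 4 * P ≤ κ₁ * e / 4 * P := mul_le_mul_of_nonneg_right h6 hP.le
      _ = _ := by ring
  have h4' : κ₁ * (e * (1 / 4 * P)) ≤ κS * Q := mul_le_mul hκ hQ (by positivity) hκS.le
  linarith only [h2, h3, h4']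

theorem num5 {e P Q Q' X : ℝ} (he : 0 < e) (he1 : e ≤ 1 / 32) (hP : 0 < P) (hX : X ≤ e ^ 4)
    (hQ : e * (1 / 4 * P) ≤ Q) (hQ' : 1 / 4 * Q ≤ Q') : X * P ≤ Q' := by
  have h2 : X * P ≤ e ^ 4 * P := mul_le_mul_of_nonneg_right hX hP.le
  have h5 : e ^ 4 ≤ 1 / 16 * e := by
    have h6 : e ^ 3 ≤ 1 / 16 := by
      have : e ^ 3 ≤ e := pow_le_of_le_one he.le (by linarith only [he, he1]) (by norm_num)
      linarith only [he, he1, this]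
    calc e ^ 4 = e ^ 3 * e := by ring
      _ ≤ 1 / 16 * e := mul_le_mul_of_nonneg_right h6 he.le
  have h3 : e ^ 4 * P ≤ 1 / 16 * e * P := mul_le_mul_of_nonneg_right h5 hP.le
  nlinarith only [hQ, hQ', h2, h3]

open Classical in
/-- The contradiction for one event and one homogeneous scale. The constants of the rows are given
for the number `kk + B` of levels. -/
theorem inner (hRTE : RTEStmt) {m J : ℕ} {F : Fam m J} {i₁ : Fin m} {A : F.Ω → Prop}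
    {K B Λ U₀ M L N u x a₀ b kk ρ w h : ℕ}
    {cc δ₀ c₂ η s κ κM κU κS κ₁ κP κ₁P κL κ₂ τ ψ gs C₃ : ℝ}
    {Good : Finset ℕ} {z₁ z₂ z₃ z₄ R : ℕ}
    -- the rows
    (hMain : MAIi m K 2 U₀ (40 * K + 1) C₃ c₂ B Λ η κM z₁)
    (hUcn : UCNi m K (40 * K + 1) C₃ U₀ B R (kk + B) κU κ₂ z₄)
    (hPrd : PRDi m K κP κ₁P z₂) (hSys : SYSi m K (kk + B) κ κS z₃)
    -- the constants
    (hu : u = J / N) (hN : N = M * L) (hNJ : 1 ≤ u) (hL : 1 ≤ L) (hK : 1 ≤ K) (hc : 0 < cc)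
    (hδ : 0 < δ₀) (hc₂ : c₂ ≤ 1) (hc₂' : c₂ ≤ cc / 2 * δ₀) (hc₂0 : 0 ≤ c₂) (hx1 : 1 ≤ x)
    (hκ1 : κ ≤ 1) (hκM : κ ≤ κM) (hκU : κ ≤ κU) (hκP : κ ≤ κ₁P)
    (hκ₁S : κ₁ ≤ κS) (hκ₁0 : 0 < κ₁) (hκP1 : κP ≤ 1 / 8)
    (hτ0 : 0 ≤ τ) (hκ₂0 : 0 < κ₂) (hκ₂τ : 3 * κ₂ ≤ τ) (hκ₂ψ : 4 * κ₂ ≤ ψ) (hκ₂L : 4 * κ₂ ≤ κL)
    (hτJ : τ * J ≤ κ₁ * ((x * u : ℕ) : ℝ)) (hgs : 4 * (gs * J) ≤ κ₁ * ((x * u : ℕ) : ℝ))
    (hgs' : 4 * (gs * J) ≤ κP * ((x * u : ℕ) : ℝ)) (hgs0 : 0 < gs)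
    (hJR : J ≤ R * (x * u)) (hz1 : z₁ ≤ u) (hz2 : z₂ ≤ u) (hz3 : z₃ ≤ u) (hz4 : z₄ ≤ u)
    (hh : κS * ((x * u : ℕ) : ℝ) ≤ 2 * (h * Real.log 2))
    (hh' : κP * ((x * u : ℕ) : ℝ) ≤ 2 * (h * Real.log 2))
    (hJ1 : 4 * Real.exp (-(κ₂ * J)) ≤ κ₁) (hJ2 : 4 * Real.exp (-(κ₂ * J)) ≤ κP)
    (hLx : L ≤ x) (hcL : cc * L ≤ x) (hκx : 1 ≤ κ₁ * x)
    -- the event
    (hTr : F.Tr) (hTm : F.Tm (τ * J)) (hRb : F.Rb (τ * J))
    (hPA : Real.exp (-(κ₂ * J)) ≤ Pe F.p A) (hCh : Ch F i₁ h A) (hSp : Sp F (m - 2) ψ gs A)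
    (hρN : ρ ≤ N)
    (hStb : ∀ a p : ℕ, a ≤ N → p ≤ N → Stb F.p (κL * J) A
      (Tb F i₁ (ρ * u) K (a * u) (a * u) (p * u)))
    (hCp : ∀ l < M, Zr F cc N (l * L) ((l + 1) * L) A →
      Cp F (l * (L * u)) ((l + 1) * (L * u))
        ((m - cc / 2) * (((L * u : ℕ) : ℝ) * Real.log 2)) A)
    -- the scale
    (hwa : w ≤ a₀) (hbρ : b ≤ ρ) (hkb : a₀ + (kk + B + 1) * x ≤ b) (hkk : ∀ k ∈ Good, k ≤ kk)
    (hkkG : kk ∈ Good) (hB : 1 ≤ B)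
    (hs1 : 1 ≤ s) (hsK : s ≤ K) (hGood : Good ⊆ range (Λ * B))
    (hcard : (1 - η) * (Λ * B) ≤ (Good.card : ℝ))
    (hhom : ∀ k ∈ Good, ∀ v ≤ B, |(thrT F i₁ N ρ K A (a₀ + (k + v) * x) (a₀ + (k + v) * x) : ℝ) -
      thrT F i₁ N ρ K A (a₀ + k * x) (a₀ + k * x) - s * (v * x)| ≤ 4 * K * x)
    (htube : ∀ k ∈ Good, ∀ v ≤ B, thrT F i₁ N ρ K A (a₀ + (k + v) * x) (a₀ + (k + v) * x) ≤
      thrT F i₁ N ρ K A (a₀ + (k + v) * x) w + 4 * K * x)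
    (hdens : ∀ k ∈ Good, ∀ P₁ P₂ : ℕ, thrT F i₁ N ρ K A (a₀ + k * x) (a₀ + k * x) ≤ P₁ →
      P₁ + 32 * K * x ≤ P₂ →
      P₂ ≤ thrT F i₁ N ρ K A (a₀ + (k + B) * x) (a₀ + (k + B) * x) →
      δ₀ * (P₂ - P₁) ≤ (((Ico P₁ P₂).filter fun P =>
        Zr F cc N (P / L * L) ((P / L + 1) * L) A).card : ℝ))
    (hNpos : 0 < N) (hNleJ : N ≤ J) :
    False := by
  have hxz : u ≤ x * u := Nat.le_mul_of_pos_left u hx1
  have huN : N * u ≤ J := by rw [hu]; exact Nat.mul_div_le J N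
  have hρJ : ρ * u ≤ J := (Nat.mul_le_mul_right _ hρN).trans huN
  have hxN : x ≤ N := by
    have : 1 * x ≤ (kk + B + 1) * x := Nat.mul_le_mul_right _ (by omega)
    omega
  have hzJ : x * u ≤ J := (Nat.mul_le_mul_right _ hxN).trans huN
  have hzJr : ((x * u : ℕ) : ℝ) ≤ J := by exact_mod_cast hzJ
  have hJ0 : (0 : ℝ) ≤ J := Nat.cast_nonneg J
  have hz0 : (0 : ℝ) ≤ ((x * u : ℕ) : ℝ) := Nat.cast_nonneg _
  have hb1 : ∀ k ≤ kk + B, a₀ + k * x ≤ b := by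
    intro k hk
    have : k * x ≤ (kk + B + 1) * x := Nat.mul_le_mul_right _ (by omega)
    omega
  -- probabilities
  have hPA0 : 0 < Pe F.p A := (Real.exp_pos _).trans_le hPA
  obtain ⟨e₂, he₂⟩ : ∃ e₂, e₂ = Real.exp (-(κ₂ * J)) := ⟨_, rfl⟩
  have he₂0 : 0 < e₂ := by rw [he₂]; exact Real.exp_pos _
  have he₂1 : e₂ ≤ 1 / 32 := by rw [he₂]; linarith only [hκP1, hJ2]
  have hpow : ∀ (n : ℕ) (t : ℝ), n * κ₂ ≤ t → Real.exp (-(t * J)) ≤ e₂ ^ n := by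
    intro n t ht
    rw [he₂, ← Real.exp_nat_mul]
    refine Real.exp_le_exp.2 ?_
    have := mul_le_mul_of_nonneg_right ht hJ0
    linarith only [this]
  have hτe : Real.exp (-(τ * J)) ≤ e₂ ^ 3 := hpow 3 τ (by norm_num; linarith only [hκ₂τ])
  have hψe : Real.exp (-(ψ * J)) ≤ e₂ ^ 4 := hpow 4 ψ (by norm_num; linarith only [hκ₂ψ])
  have hLe : Real.exp (-(κL * J)) ≤ e₂ ^ 4 := hpow 4 κL (by norm_num; linarith only [hκ₂L])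
  have hze : e₂ ≤ Real.exp (-(κ₂ * ((x * u : ℕ) : ℝ))) := by
    rw [he₂]
    refine Real.exp_le_exp.2 ?_
    have := mul_le_mul_of_nonneg_left hzJr hκ₂0.le
    linarith only [this]
  rw [← he₂] at hPA hJ1 hJ2
  have hκS0 : 0 < κS := hκ₁0.trans_le hκ₁S
  -- the functions
  obtain ⟨gf, hgf⟩ : ∃ gf : ℕ → ℕ, gf = fun a => thrT F i₁ N ρ K A a a := ⟨_, rfl⟩
  have hgmono : ∀ a a', a ≤ a' → a' ≤ b → gf a ≤ gf a' := by
    intro a a' h1 h2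
    rw [hgf]
    exact thrT_mono h1 h1 (by omega)
  obtain ⟨gD, hgD⟩ : ∃ gD : ℕ → ℕ, gD = fun k => cut b gf (a₀ + k * x) * u := ⟨_, rfl⟩
  have hgD1 : ∀ k ≤ kk + B, gD k = thrT F i₁ N ρ K A (a₀ + k * x) (a₀ + k * x) * u := by
    intro k hk
    rw [hgD]
    change cut b gf (a₀ + k * x) * u = _
    rw [cut_le (hb1 k hk), hgf]
  have hgDm : Monotone gD := by
    intro k k' hk
    rw [hgD]
    refine Nat.mul_le_mul_right _ (cut_mono hgmono ?_)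
    have : k * x ≤ k' * x := Nat.mul_le_mul_right _ hk
    omega
  have e1 : ∀ k, a₀ * u + k * (x * u) = (a₀ + k * x) * u := by intro k; ring
  -- the system
  obtain ⟨Γ, c, y₀, Φ, A', hA', hPA', hOk, hTube⟩ := hSys J (ρ * u) (a₀ * u) (x * u) h ψ τ gs F i₁ A
    gD (fun k v => thrT F i₁ N ρ K A (a₀ + (k + v) * x) (a₀ + k * x) * u)
    (by omega) hρJ
    (by
      rw [e1]
      exact Nat.mul_le_mul_right _ (hkb.trans hbρ))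
    hTr hτ0 hTm hRb
    (hτJ.trans (mul_le_mul_of_nonneg_right hκ₁S hz0))
    (num1 he₂0 he₂1 hJ1 hκ₁S hPA hτe)
    hCh hh
    (hgs.trans (mul_le_mul_of_nonneg_right hκ₁S hz0)) hgs0
    (num2 he₂0 he₂1 hJ1 hκ₁S hψe)
    hSp hgDm
    (by
      intro k hk
      rw [e1, hgD1 k hk]
      have h1 : a₀ + k * x ≤ thrT F i₁ N ρ K A (a₀ + k * x) (a₀ + k * x) + 1 :=
        le_ball hNpos hNleJ hρN ((hb1 k hk).trans hbρ)
      have h2 : (a₀ + k * x) * u ≤ thrT F i₁ N ρ K A (a₀ + k * x) (a₀ + k * x) * u + u := by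
        calc (a₀ + k * x) * u ≤ (thrT F i₁ N ρ K A (a₀ + k * x) (a₀ + k * x) + 1) * u :=
              Nat.mul_le_mul_right u h1
          _ = _ := by ring
      have h3 : (((a₀ + k * x) * u : ℕ) : ℝ) ≤
          ((thrT F i₁ N ρ K A (a₀ + k * x) (a₀ + k * x) * u : ℕ) : ℝ) + u := by
        exact_mod_cast h2
      have h4 : (u : ℝ) ≤ κS * ((x * u : ℕ) : ℝ) := by
        push_cast
        have h5 : (1 : ℝ) * u ≤ κ₁ * x * u := mul_le_mul_of_nonneg_right hκx (Nat.cast_nonneg u)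
        have h6 : κ₁ * (x * u) ≤ κS * (x * u) := mul_le_mul_of_nonneg_right hκ₁S (by positivity)
        linarith only [h5, h6]
      linarith only [h3, h4])
    (by
      intro k hk
      rw [e1, hgD1 k hk, hu]
      exact thrT_tb (by have := hb1 k hk; omega))
    (by
      intro k v hkv
      rw [e1, e1, hu]
      exact thrT_tb (by have := hb1 k (by omega); omega))
  have hPA'0 : 0 < Pe F.p A' := lt_of_lt_of_le (by positivity) hPA'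
  -- large events of the system
  have hlarge : ∀ B' : F.Ω → Prop, Sub B' A' →
      Real.exp (-(κ₂ * ((x * u : ℕ) : ℝ))) * Pe F.p A' ≤ Pe F.p B' →
      e₂ * (1 / 4 * Pe F.p A) ≤ Pe F.p B' ∧
      (fdc F i₁ (ρ * u) c y₀ Φ gD).Ok K J (ρ * u) (a₀ * u) (x * u) (kk + B) κ
        (Pool.Agent.H49.Ent.cond F.p B' True) := by
    intro B' hB' hP
    have h1 : e₂ * (1 / 4 * Pe F.p A) ≤ Pe F.p B' := by
      refine le_trans ?_ hP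
      exact mul_le_mul hze hPA' (by positivity) (Real.exp_pos _).le
    exact ⟨h1, hOk B' hB' (num3 he₂0 he₂1 hPA hτe h1)
      (num4 he₂0 he₂1 hJ1 hκ₁S hPA0 hψe h1)⟩
  have hgD0 : (fdc F i₁ (ρ * u) c y₀ Φ gD).g = gD := rfl
  have hkB : ∀ k ∈ Good, k + B ≤ kk + B := fun k hk => by
    have := hkk k hk
    omega
  -- uniform counts
  obtain ⟨B₁, hB₁, hPB₁, hCnt⟩ := hUcn J (ρ * u) (a₀ * u) (x * u) c₂
    (fdc F i₁ (ρ * u) c y₀ Φ gD) F.p A' Good (by omega) hJR F.isLaw hPA'0 hc₂0 hc₂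
    (by
      intro k hk
      refine ⟨hkB k hk, ?_⟩
      rw [hgD0, hgD1 _ (hkB k hk)]
      exact Nat.mul_le_mul_right _ (thrT_le _ _))
    (by
      intro B' hB' hP
      obtain ⟨h1, h2⟩ := hlarge B' hB' hP
      refine ⟨Ok_mono h2 hκU, ?_⟩
      intro k hk P₁ P₂ h3 h4 h5
      have hB'0 : 0 < Pe F.p B' := lt_of_lt_of_le (by positivity) h1
      rw [hgD0, hgD1 k (by have := hkB k hk; omega)] at h3
      rw [hgD0, hgD1 _ (hkB k hk)] at h5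
      refine fdc_Rate F i₁ (ρ * u) c y₀ Φ gD ?_
      exact rates hRTE (F := F) (i₁ := i₁) (A := A) (L := L) (M := M) (u := u) (x := x)
        (gk := thrT F i₁ N ρ K A (a₀ + k * x) (a₀ + k * x))
        (gB := thrT F i₁ N ρ K A (a₀ + (k + B) * x) (a₀ + (k + B) * x)) hTr hK hL hNJ hx1 hLx
        hcL hc hδ hc₂ hc₂' hc₂0 ((thrT_le _ _).trans (hρN.trans hN.le)) (by rw [← hN]; exact huN)
        (fun l => Zr F cc N (l * L) ((l + 1) * L) A) hCp (hdens k hk) (hB'.trans hA') hB'0 h3 h4 h5)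
  obtain ⟨hPB₁', hOkB₁⟩ := hlarge B₁ hB₁ hPB₁
  have hB₁0 : 0 < Pe F.p B₁ := lt_of_lt_of_le (by positivity) hPB₁'
  have hsupp : ∀ ω, 0 < Pool.Agent.H49.Ent.cond F.p B₁ True ω → A' ω := by
    intro ω hω
    have := ((cond_pos_iff F.isLaw.nonneg B₁ True ω).1 hω).2
    exact hB₁ ω (of_eq_true this)
  -- the homogeneous scale of the system
  have hHom : ∀ k ∈ Good, (fdc F i₁ (ρ * u) c y₀ Φ gD).Hom (x * u) B k s (40 * K + 1) := by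
    intro k hk v hv
    rw [hgD0, hgD1 (k + v) (by have := hkB k hk; omega), hgD1 k (by have := hkB k hk; omega)]
    have h1 := hhom k hk v hv
    have hu0 : (0 : ℝ) ≤ u := Nat.cast_nonneg u
    have h2 := mul_le_mul_of_nonneg_right h1 hu0
    rw [← abs_of_nonneg hu0, ← abs_mul, abs_of_nonneg hu0] at h2
    push_cast
    rw [show ((thrT F i₁ N ρ K A (a₀ + (k + v) * x) (a₀ + (k + v) * x) : ℝ)) * u -
      (thrT F i₁ N ρ K A (a₀ + k * x) (a₀ + k * x) : ℝ) * u - s * (v * (x * u)) =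
      ((thrT F i₁ N ρ K A (a₀ + (k + v) * x) (a₀ + (k + v) * x) : ℝ) -
      (thrT F i₁ N ρ K A (a₀ + k * x) (a₀ + k * x) : ℝ) - s * (v * x)) * u by ring]
    refine h2.trans ?_
    have hK0 : (0 : ℝ) ≤ K := Nat.cast_nonneg K
    have hxu0 : (0 : ℝ) ≤ x * u := by positivity
    nlinarith only [hxu0]
  have hTub : ∀ k ∈ Good, ∀ v, 1 ≤ v → v ≤ B → ∃ Q Qb,
      (fdc F i₁ (ρ * u) c y₀ Φ gD).Tube K J (a₀ * u) (x * u) v k (40 * K + 1)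
        (Pool.Agent.H49.Ent.cond F.p B₁ True) Q Qb := by
    intro k hk v hv hvB
    obtain ⟨Q, Qb, hQ1, hQ2, hQ3⟩ := hTube k v (by have := hkB k hk; omega)
    have hp : Real.exp (κ * ((x * u : ℕ) : ℝ)) /
        2 ^ (thrT F i₁ N ρ K A (a₀ + (k + v) * x) (a₀ + k * x) * u) ≤
        Real.exp ((40 * K + 1) * ((x * u : ℕ) : ℝ)) / 2 ^ gD (k + v) := by
      refine prec (k := 4 * K) ?_ ?_
      · rw [hgD1 (k + v) (by have := hkB k hk; omega)]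
        have h1 := htube k hk v hvB
        have h2 : thrT F i₁ N ρ K A (a₀ + (k + v) * x) w ≤
            thrT F i₁ N ρ K A (a₀ + (k + v) * x) (a₀ + k * x) :=
          thrT_mono le_rfl (by omega) (by have := hb1 k (by have := hkB k hk; omega); omega)
        calc thrT F i₁ N ρ K A (a₀ + (k + v) * x) (a₀ + (k + v) * x) * u ≤
              (thrT F i₁ N ρ K A (a₀ + (k + v) * x) (a₀ + k * x) + 4 * K * x) * u :=
              Nat.mul_le_mul_right _ (by omega)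
          _ = _ := by ring
      · push_cast
        have hK0 : (0 : ℝ) ≤ K := Nat.cast_nonneg K
        linarith only [hκ1, hκP1, hs1, hsK, hJ2, he₂0]
    refine ⟨Q, Qb, hQ1, hQ2, ?_, ?_⟩
    · intro ω hω b hb
      rw [fdc_Y] at hb
      exact ((hQ3 ω (hsupp ω hω)).2 b hb).trans hp
    · intro ω hω
      rw [fdc_Y]
      exact (hQ3 ω (hsupp ω hω)).1.trans hp
  -- the new label of the system
  obtain ⟨k, hk, v, hv, hgap, hnew⟩ := hMain J (ρ * u) (a₀ * u) (x * u) (kk + B) s Good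
    (fdc F i₁ (ρ * u) c y₀ Φ gD) (Pool.Agent.H49.Ent.cond F.p B₁ True) (by omega)
    (Ok_mono hOkB₁ hκM)
    (by
      have := Finset.mem_range.1 (hGood hkkG)
      rw [Nat.add_mul, Nat.one_mul]
      omega)
    hs1 hsK hGood hcard hkB hHom hTub
    (fun k hk j U B' h1 h2 h3 h4 h5 h6 P₁ P₂ h7 h8 h9 =>
      hCnt k hk j U B' h1 h2 h3 h4 h5 h6 P₁ P₂ h7 h8 h9)
  have hkv : k + v ≤ kk + B := by have := hkB k hk; omega
  rw [hgD0, hgD1 _ hkv, hgD1 _ (hkB k hk)] at hgap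
  rw [hgD0, hgD1 _ hkv, e1] at hnew
  -- the new label of the family
  have htime := hOkB₁.time
  obtain ⟨B₂, hB₂, hPB₂, hTb₂⟩ := hPrd J (ρ * u) (x * u) ((a₀ + (k + v) * x) * u)
    (thrT F i₁ N ρ K A (a₀ + (k + v) * x) (a₀ + (k + v) * x) * u + 2 * (x * u)) h ψ gs F i₁ A B₁
    Γ c y₀ Φ gD (by omega) hρJ
    (by
      have h1 : a₀ + (k + v) * x ≤ thrT F i₁ N ρ K A (a₀ + (k + v) * x) (a₀ + (k + v) * x) + 1 :=
        le_ball hNpos hNleJ hρN ((hb1 _ hkv).trans hbρ)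
      have h2 : (a₀ + (k + v) * x) * u ≤
          thrT F i₁ N ρ K A (a₀ + (k + v) * x) (a₀ + (k + v) * x) * u + u := by
        calc (a₀ + (k + v) * x) * u ≤
              (thrT F i₁ N ρ K A (a₀ + (k + v) * x) (a₀ + (k + v) * x) + 1) * u :=
              Nat.mul_le_mul_right u h1
          _ = _ := by ring
      omega)
    (by
      have h1 : (a₀ + (k + v) * x) * u + x * u = (a₀ + (k + v + 1) * x) * u := by ring
      rw [h1]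
      refine le_trans (Nat.mul_le_mul_right _ ?_) hρJ
      have : (k + v + 1) * x ≤ (kk + B + 1) * x := Nat.mul_le_mul_right _ (by omega)
      omega)
    hPA0 hCh hh' hgs' hgs0 hSp (hB₁.trans hA')
    (num4 he₂0 he₂1 hJ2 le_rfl hPA0 hψe hPB₁')
    (by
      refine le_trans ?_ htime
      have := mul_le_mul_of_nonneg_right hκP hz0
      linarith only [this])
    (fdc_NewLab F i₁ (ρ * u) c y₀ Φ gD hnew)
  -- stability
  have hgρ : thrT F i₁ N ρ K A (a₀ + (k + v) * x) (a₀ + (k + v) * x) + 2 * x ≤ ρ := by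
    have h1 : (thrT F i₁ N ρ K A (a₀ + (k + v) * x) (a₀ + (k + v) * x) + 2 * x) * u ≤
        thrT F i₁ N ρ K A (a₀ + (k + B) * x) (a₀ + (k + B) * x) * u := by
      calc _ = thrT F i₁ N ρ K A (a₀ + (k + v) * x) (a₀ + (k + v) * x) * u + 2 * (x * u) := by
            ring
        _ ≤ _ := hgap
    exact (Nat.le_of_mul_le_mul_right h1 hNJ).trans (thrT_le _ _)
  have hfin : Tb F i₁ (ρ * u) K ((a₀ + (k + v) * x) * u) ((a₀ + (k + v) * x) * u)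
      ((thrT F i₁ N ρ K A (a₀ + (k + v) * x) (a₀ + (k + v) * x) + 2 * x) * u) A := by
    refine (hStb (a₀ + (k + v) * x) (thrT F i₁ N ρ K A (a₀ + (k + v) * x) (a₀ + (k + v) * x) +
      2 * x) (by have := hb1 _ hkv; omega) (by omega)).of_sub (hB₂.trans (hB₁.trans hA')) ?_ ?_
    · exact num5 he₂0 he₂1 hPA0 hLe hPB₁' hPB₂
    · rw [show (thrT F i₁ N ρ K A (a₀ + (k + v) * x) (a₀ + (k + v) * x) + 2 * x) * u =
        thrT F i₁ N ρ K A (a₀ + (k + v) * x) (a₀ + (k + v) * x) * u + 2 * (x * u) by ring]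
      exact hTb₂
  rw [hu] at hfin
  have := le_thrT hgρ hfin
  omega

end Pool.BFL
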