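import Pool.Agent.H19.BFL.Asm5

/-!
# Ball frontier lemma, assembly 6: one event, the constants
-/

set_option autoImplicit false

namespace Pool.BFL

open Finset Real
open Pool.Agent.H49.Ent Pool.Agent.H32.Dense Pool.STK Pool.KS3 Pool.KA Pool.KSAT Pool.K2S Pool.PB
open Pool.Agent.H34.BFL

theorem h_large {h₁ z κ : ℝ} {J : ℕ} (hh : 0 < h₁) (hκ : κ ≤ h₁) (hz : z ≤ J) (hz0 : 0 ≤ z)
    (hJ : 4 ≤ h₁ * J) : κ * z ≤ 2 * ((⌊h₁ * J⌋₊ : ℝ) * Real.log 2) := by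
  have h1 : h₁ * J - 1 ≤ (⌊h₁ * J⌋₊ : ℝ) := by
    have := Nat.lt_floor_add_one (h₁ * (J : ℝ))
    linarith only [this]
  have h2 : (0.69 : ℝ) ≤ Real.log 2 := by
    have := Real.log_two_gt_d9
    linarith only [this]
  have h3 : κ * z ≤ h₁ * J := by
    calc κ * z ≤ h₁ * z := mul_le_mul_of_nonneg_right hκ hz0
      _ ≤ h₁ * J := mul_le_mul_of_nonneg_left hz hh.le
  have h4 : 0 ≤ (⌊h₁ * J⌋₊ : ℝ) := Nat.cast_nonneg _
  have h5 : (0.69 : ℝ) * (⌊h₁ * J⌋₊ : ℝ) ≤ (⌊h₁ * J⌋₊ : ℝ) * Real.log 2 := by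
    rw [mul_comm]
    exact mul_le_mul_of_nonneg_left h2 h4
  nlinarith only [hJ, h1, h3, h5]

open Classical in
/-- **The theorem for one event.** -/
theorem event (hSYS : SYS3Stmt) (hRTE : RTEStmt) (hUCN : UCNStmt) (hPRD : PRDStmt)
    (hSCL : SCL2Stmt) (hMAI : MAIStmt) {m : ℕ} (hm : 2 ≤ m) (K : ℕ) (cc h₁ ε : ℝ)
    (hK : 1 ≤ K) (hc : 0 < cc) (hh : 0 < h₁) (hε : 0 < ε) :
    ∃ (N₁ X₁ : ℕ) (gs : ℝ), 1 ≤ N₁ ∧ 1 ≤ X₁ ∧ 0 < gs ∧ ∀ (M L N : ℕ), N = M * L → 1 ≤ L →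
      (N₁ : ℝ) * X₁ ≤ ε * M → (N₁ : ℝ) * N₁ ≤ ε * N → ∀ ψ κL : ℝ, 0 < ψ → 0 < κL →
      ∃ τ₀ : ℝ, 0 < τ₀ ∧ ∃ J₀ : ℕ, ∀ J ≥ J₀, ∀ (F : Fam m J) (i₁ : Fin m) (ρ w γ : ℕ)
        (A : F.Ω → Prop), (N₁ : ℝ) * γ ≤ ε * N → 2 ≤ γ → ρ ≤ N → F.Tr →
        (∀ τ ≥ τ₀, F.Tm (τ * J) ∧ F.Rb (τ * J)) → Real.exp (-(τ₀ * J)) ≤ Pe F.p A →
        Ch F i₁ ⌊h₁ * J⌋₊ A → Sp F (m - 2) ψ gs A → Trl F i₁ N ρ K A →
        (∀ a p : ℕ, a ≤ N → p ≤ N → Stb F.p (κL * J) A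
          (Tb F i₁ (ρ * (J / N)) K (a * (J / N)) (a * (J / N)) (p * (J / N)))) →
        (∀ l < M, Zr F cc N (l * L) ((l + 1) * L) A →
          Cp F (l * (L * (J / N))) ((l + 1) * (L * (J / N)))
            ((m - cc / 2) * (((L * (J / N) : ℕ) : ℝ) * Real.log 2)) A) →
        (((range N).filter fun a => w ≤ a ∧
          thrT F i₁ N ρ K A a a ≤ thrT F i₁ N ρ K A a w + γ ∧
          thrT F i₁ N ρ K A a w + 2 * γ ≤ ρ ∧
          Zr F cc N (thrT F i₁ N ρ K A a w / L * L)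
            ((thrT F i₁ N ρ K A a w / L + 1) * L) A).card : ℝ) ≤ ε * N := by
  have hm1 : 1 ≤ m := by omega
  have hKr : (1 : ℝ) ≤ K := by exact_mod_cast hK
  obtain ⟨δ₀, hδ₀⟩ : ∃ δ₀ : ℝ, δ₀ = ε / (32 * K) := ⟨_, rfl⟩
  have hδ0 : 0 < δ₀ := by rw [hδ₀]; positivity
  obtain ⟨c₂, hc₂⟩ : ∃ c₂ : ℝ, c₂ = min 1 (cc / 2 * δ₀) := ⟨_, rfl⟩
  have hc₂0 : 0 < c₂ := by rw [hc₂]; exact lt_min one_pos (by positivity)
  have hc₂1 : c₂ ≤ 1 := by rw [hc₂]; exact min_le_left _ _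
  have hc₂2 : c₂ ≤ cc / 2 * δ₀ := by rw [hc₂]; exact min_le_right _ _
  obtain ⟨C₃, U₀, hC₃, hU₀, hU⟩ := hUCN m K (40 * K + 1) hm1 hK (by linarith only [hKr])
  obtain ⟨B, Λ, η, κM, z₁, hB, hΛ, hη, hκM, hMain⟩ := hMAI m K 2 U₀ (40 * K + 1) C₃ c₂ hm1 hK
    (by linarith only [hKr]) hC₃ hc₂0 hc₂1
  obtain ⟨N₁, hN₁, hScale⟩ := scale hSCL K B Λ ε η hK hB hΛ hε hη
  have hN₁r : (1 : ℝ) ≤ N₁ := by exact_mod_cast hN₁
  obtain ⟨R, hR⟩ : ∃ R : ℕ, R = ⌈2 * N₁ / ε⌉₊ + 1 := ⟨_, rfl⟩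
  have hR1 : (1 : ℝ) ≤ R := by rw [hR]; push_cast; linarith only [Nat.cast_nonneg (α := ℝ) ⌈2 * N₁ / ε⌉₊]
  have hR2 : 2 * N₁ / ε ≤ R := by
    rw [hR]
    push_cast
    have := Nat.le_ceil (2 * N₁ / ε : ℝ)
    linarith only [this]
  choose κU hκU hU2 using fun T => hU B R T
  obtain ⟨Mx, hMx⟩ : ∃ Mx, Mx = (Λ + 1) * B := ⟨_, rfl⟩
  obtain ⟨κu, hκu, hκu'⟩ := fam_min Mx κU (fun j _ => hκU j)
  obtain ⟨κP, hκP⟩ : ∃ κP : ℝ, κP = min (1 / 8) h₁ := ⟨_, rfl⟩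
  have hκP0 : 0 < κP := by rw [hκP]; exact lt_min (by norm_num) hh
  have hκP8 : κP ≤ 1 / 8 := by rw [hκP]; exact min_le_left _ _
  have hκPh : κP ≤ h₁ := by rw [hκP]; exact min_le_right _ _
  obtain ⟨κ₁P, hκ₁P, z₂, hPrd⟩ := hPRD m K κP hm hκP0 hκP8
  obtain ⟨κ, hκ⟩ : ∃ κ : ℝ, κ = min (min κM κu) (min κ₁P (min h₁ 1)) := ⟨_, rfl⟩
  have hκ0 : 0 < κ := by
    rw [hκ]
    exact lt_min (lt_min hκM hκu) (lt_min hκ₁P (lt_min hh one_pos))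
  have hκκM : κ ≤ κM := by rw [hκ]; exact (min_le_left _ _).trans (min_le_left _ _)
  have hκκu : κ ≤ κu := by rw [hκ]; exact (min_le_left _ _).trans (min_le_right _ _)
  have hκκP : κ ≤ κ₁P := by rw [hκ]; exact (min_le_right _ _).trans (min_le_left _ _)
  have hκh : κ ≤ h₁ := by
    rw [hκ]; exact (min_le_right _ _).trans ((min_le_right _ _).trans (min_le_left _ _))
  have hκ1 : κ ≤ 1 := by
    rw [hκ]; exact (min_le_right _ _).trans ((min_le_right _ _).trans (min_le_right _ _))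
  choose κS hκS hκSκ zS hSys using fun T => hSYS m K T κ hm hκ0
  obtain ⟨κ₁, hκ₁, hκ₁'⟩ := fam_min Mx κS (fun j _ => hκS j)
  obtain ⟨z₃, hz₃⟩ := fam_maxN Mx zS
  obtain ⟨gs, hgs⟩ : ∃ gs : ℝ, gs = min κ₁ κP / (4 * R) := ⟨_, rfl⟩
  have hgs0 : 0 < gs := by rw [hgs]; exact div_pos (lt_min hκ₁ hκP0) (by linarith only [hR1, hκP0, hκP8])
  obtain ⟨X₁, hX₁⟩ : ∃ X₁ : ℕ, X₁ = ⌈1 / κ₁⌉₊ + ⌈cc⌉₊ + 1 := ⟨_, rfl⟩
  refine ⟨N₁, X₁, gs, hN₁, by omega, hgs0, ?_⟩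
  intro M L N hN hL hNX hNN ψ κL hψ hκL
  obtain ⟨τ, hτ⟩ : ∃ τ : ℝ, τ = κ₁ / R := ⟨_, rfl⟩
  have hτ0 : 0 < τ := by rw [hτ]; exact div_pos hκ₁ (by linarith only [hR1, hκP0, hκP8])
  obtain ⟨κ₂, hκ₂⟩ : ∃ κ₂ : ℝ, κ₂ = min (τ / 3) (min (ψ / 4) (κL / 4)) := ⟨_, rfl⟩
  have hκ₂0 : 0 < κ₂ := by
    rw [hκ₂]
    exact lt_min (by linarith only [hτ0]) (lt_min (by linarith only [hψ]) (by linarith only [hκL]))
  have hκ₂τ : 3 * κ₂ ≤ τ := by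
    have : κ₂ ≤ τ / 3 := by rw [hκ₂]; exact min_le_left _ _
    linarith only [this]
  have hκ₂ψ : 4 * κ₂ ≤ ψ := by
    have : κ₂ ≤ ψ / 4 := by rw [hκ₂]; exact (min_le_right _ _).trans (min_le_left _ _)
    linarith only [this]
  have hκ₂L : 4 * κ₂ ≤ κL := by
    have : κ₂ ≤ κL / 4 := by rw [hκ₂]; exact (min_le_right _ _).trans (min_le_right _ _)
    linarith only [this]
  choose zU hUcn using fun T => hU2 T κ₂ hκ₂0
  obtain ⟨z₄, hz₄⟩ := fam_maxN Mx zU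
  obtain ⟨Cl, hCl⟩ := thrT_lip m K
  obtain ⟨J₁, hJ₁⟩ := exp_small κ₂ (min κ₁ κP / 4) hκ₂0 (by
    have := lt_min hκ₁ hκP0
    linarith only [this])
  obtain ⟨J₂, hJ₂⟩ := exists_nat_ge (4 / h₁)
  have hNr : (1 : ℝ) ≤ N₁ * N₁ := by nlinarith only [hN₁r]
  have hN0 : 0 < N := by
    rcases Nat.eq_zero_or_pos N with h | h
    · rw [h, Nat.cast_zero, mul_zero] at hNN
      linarith only [hκP0, hκP8, hNN, hNr]
    · exact h
  refine ⟨κ₂, hκ₂0, J₁ + J₂ + (z₁ + z₂ + z₃ + z₄ + Cl + 1) * N, ?_⟩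
  intro J hJ F i₁ ρ w γ A hNγ hγ hρN hTr hTm hPA hCh hSp hTrl hStb hCp
  by_contra hcon
  push Not at hcon
  -- the unit
  obtain ⟨u, hu⟩ : ∃ u, u = J / N := ⟨_, rfl⟩
  have huz : z₁ + z₂ + z₃ + z₄ + Cl + 1 ≤ u := by
    rw [hu, Nat.le_div_iff_mul_le hN0]
    omega
  have hNJ : N ≤ J := by
    have : 1 * N ≤ (z₁ + z₂ + z₃ + z₄ + Cl + 1) * N := Nat.mul_le_mul_right _ (by omega)
    omega
  have hu1 : 1 ≤ u := by omega
  have hJr : 4 ≤ h₁ * J := by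
    have h1 : (J₂ : ℝ) ≤ J := by
      have : J₂ ≤ J := by omega
      exact_mod_cast this
    have h2 := hJ₂.trans h1
    rw [div_le_iff₀ hh] at h2
    linarith only [h2]
  -- the scale
  obtain ⟨x, a₀, b, kk, s, Good, hx1, hx2, hwa, hbN, hgb, hpb, hkb, hkkG, hkk, hs1, hsK, hG, hcard,
    hgood⟩ := hScale N (fun a => thrT F i₁ N ρ K A a a) (fun a => thrT F i₁ N ρ K A a w)
    (fun P => Zr F cc N (P / L * L) ((P / L + 1) * L) A) w γ ρ hNN hNγ hγ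
    (by
      intro b hbN hwb hgb hpb
      have hgb' : thrT F i₁ N ρ K A b b ≤ thrT F i₁ N ρ K A b w + γ := hgb
      have hpb' : thrT F i₁ N ρ K A b w + 2 * γ ≤ ρ := hpb
      have hbρ : b ≤ ρ := le_cap (F := F) (i₁ := i₁) (K := K) (A := A) hN0 hNJ hρN hbN.le
        (by omega)
      refine ⟨fun a a' h1 h2 => thrT_mono h1 h1 (by omega), fun a a' h0 h1 h2 =>
        hCl J F i₁ N ρ A a a' w (by omega) h1, fun a h1 h2 => thrT_mono le_rfl h1 (by omega),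
        fun a a' h0 h1 h2 => trl_ball hTrl hρN h1 h2 hbρ (by omega),
        fun a a' h0 h1 h2 => trl_thr' hTrl hρN h0 h1 h2 hbρ (by omega)⟩)
    hcon
  have hgb' : thrT F i₁ N ρ K A b b ≤ thrT F i₁ N ρ K A b w + γ := hgb
  have hpb' : thrT F i₁ N ρ K A b w + 2 * γ ≤ ρ := hpb
  have hbρ : b ≤ ρ := le_cap (F := F) (i₁ := i₁) (K := K) (A := A) hN0 hNJ hρN hbN.le
        (by omega)
  have hkkB : kk + B ≤ Mx := by
    have := Finset.mem_range.1 (hG hkkG)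
    rw [hMx, Nat.add_mul, Nat.one_mul]
    omega
  -- sizes
  have hx0 : 1 ≤ x := hN₁.trans hx1
  have hX₁x : X₁ * L ≤ x := by
    have h1 : (N₁ : ℝ) * X₁ * L ≤ ε * M * L := mul_le_mul_of_nonneg_right hNX (Nat.cast_nonneg L)
    have h2 : ε * M * L = ε * N := by rw [hN]; push_cast; ring
    have h3 : (N₁ : ℝ) * (X₁ * L) ≤ N₁ * x := by
      calc (N₁ : ℝ) * (X₁ * L) = N₁ * X₁ * L := by ring
        _ ≤ ε * N := by rw [← h2]; exact h1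
        _ ≤ _ := hx2
    have h4 : (X₁ : ℝ) * L ≤ x := le_of_mul_le_mul_left h3 (by linarith only [hN₁r, hκP0, hκP8])
    exact_mod_cast h4
  have hLr : (1 : ℝ) ≤ L := by exact_mod_cast hL
  have hLx : L ≤ x := (Nat.le_mul_of_pos_left L (by omega)).trans hX₁x
  have hX₁x' : (X₁ : ℝ) * L ≤ x := by exact_mod_cast hX₁x
  have hX₁1 : 1 / κ₁ + cc ≤ X₁ := by
    rw [hX₁]
    push_cast
    have h1 := Nat.le_ceil (1 / κ₁ : ℝ)
    have h2 := Nat.le_ceil (cc : ℝ)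
    linarith only [hκP0, hκP8, h1, h2]
  have hκ₁i : 0 < 1 / κ₁ := by positivity
  have hcL : cc * L ≤ x := by
    refine le_trans (mul_le_mul_of_nonneg_right ?_ (by linarith only [hκP0, hκP8, hLr])) hX₁x'
    linarith only [hX₁1, hκ₁i]
  have hκx : 1 ≤ κ₁ * x := by
    have h1 : 1 / κ₁ ≤ x := by
      refine le_trans ?_ hX₁x'
      have : (X₁ : ℝ) * 1 ≤ X₁ * L := mul_le_mul_of_nonneg_left hLr (Nat.cast_nonneg _)
      linarith only [hc, hX₁1, this]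
    rw [div_le_iff₀ hκ₁] at h1
    linarith only [h1]
  have huN : N * u ≤ J := by rw [hu]; exact Nat.mul_div_le J N
  have hxN : x ≤ N := by
    have : 1 * x ≤ (kk + B + 1) * x := Nat.mul_le_mul_right _ (by omega)
    omega
  have hzJ : x * u ≤ J := (Nat.mul_le_mul_right _ hxN).trans huN
  have hzJr : ((x * u : ℕ) : ℝ) ≤ J := by exact_mod_cast hzJ
  have hz0 : (0 : ℝ) ≤ ((x * u : ℕ) : ℝ) := Nat.cast_nonneg _
  have hJR' : (J : ℝ) ≤ R * ((x * u : ℕ) : ℝ) := by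
    have h1 : (J : ℝ) ≤ 2 * (N * u) := by
      have h2 : J < N * (u + 1) := by
        rw [hu]
        exact Nat.lt_mul_div_succ J hN0
      have h3 : J ≤ 2 * (N * u) := by
        have : N * (u + 1) ≤ N * (2 * u) := Nat.mul_le_mul_left _ (by omega)
        have h4 : N * (2 * u) = 2 * (N * u) := by ring
        omega
      exact_mod_cast h3
    have h2 : (N : ℝ) ≤ N₁ / ε * x := by
      rw [div_mul_eq_mul_div, le_div_iff₀ hε]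
      linarith only [hx2]
    have hur : (0 : ℝ) ≤ u := Nat.cast_nonneg u
    calc (J : ℝ) ≤ 2 * (N * u) := h1
      _ ≤ 2 * (N₁ / ε * x * u) := by
        have := mul_le_mul_of_nonneg_right h2 hur
        linarith only [this]
      _ = 2 * N₁ / ε * (x * u) := by ring
      _ ≤ R * (x * u) := mul_le_mul_of_nonneg_right hR2 (by positivity)
      _ = _ := by push_cast; ring
  have hJR : J ≤ R * (x * u) := by exact_mod_cast hJR'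
  have hR0 : (0 : ℝ) < R := by linarith only [hR1, hκP0, hκP8]
  have hτJ : τ * J ≤ κ₁ * ((x * u : ℕ) : ℝ) := by
    calc τ * J ≤ τ * (R * ((x * u : ℕ) : ℝ)) := mul_le_mul_of_nonneg_left hJR' hτ0.le
      _ = κ₁ * ((x * u : ℕ) : ℝ) := by rw [hτ]; field_simp
  have hgsJ : 4 * (gs * J) ≤ min κ₁ κP * ((x * u : ℕ) : ℝ) := by
    calc 4 * (gs * J) ≤ 4 * (gs * (R * ((x * u : ℕ) : ℝ))) := by
          have := mul_le_mul_of_nonneg_left hJR' hgs0.le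
          linarith only [this]
      _ = min κ₁ κP * ((x * u : ℕ) : ℝ) := by rw [hgs]; field_simp
  have hJ1' := hJ₁ J (by omega)
  obtain ⟨hTmτ, hRbτ⟩ := hTm τ (by linarith only [hκ₂0, hκ₂τ])
  refine inner hRTE (hMain : MAIi m K 2 U₀ (40 * K + 1) C₃ c₂ B Λ η κM z₁)
    (hUcn (kk + B) : UCNi m K (40 * K + 1) C₃ U₀ B R (kk + B) (κU (kk + B)) κ₂ (zU (kk + B)))
    (hPrd : PRDi m K κP κ₁P z₂)
    (hSys (kk + B) : SYSi m K (kk + B) κ (κS (kk + B)) (zS (kk + B)))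
    hu hN hu1 hL hK hc hδ0 hc₂1 hc₂2 hc₂0.le hx0 hκ1 hκκM
    (hκκu.trans (hκu' _ ⟨by omega, hkkB⟩)) hκκP (hκ₁' _ ⟨by omega, hkkB⟩) hκ₁ hκP8 hτ0.le hκ₂0
    hκ₂τ hκ₂ψ hκ₂L hτJ
    (hgsJ.trans (mul_le_mul_of_nonneg_right (min_le_left _ _) hz0))
    (hgsJ.trans (mul_le_mul_of_nonneg_right (min_le_right _ _) hz0)) hgs0 hJR
    (by omega) (by omega) (by have := hz₃ _ ⟨(by omega : 1 ≤ kk + B), hkkB⟩; omega)
    (by have := hz₄ _ ⟨(by omega : 1 ≤ kk + B), hkkB⟩; omega)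
    (h_large hh ((hκSκ _).trans hκh) hzJr hz0 hJr) (h_large hh hκPh hzJr hz0 hJr)
    (by have := min_le_left κ₁ κP; linarith only [hJ1', this]) (by have := min_le_right κ₁ κP; linarith only [hJ1', this])
    hLx hcL hκx hTr hTmτ hRbτ hPA hCh hSp hρN
    (by rw [hu]; exact hStb) (by rw [hu]; exact hCp) hwa hbρ hkb hkk hkkG hB hs1 hsK hG hcard
    (fun k hk => (hgood k hk).1) (fun k hk => (hgood k hk).2.1)
    (fun k hk P₁ P₂ h1 h2 h3 => by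
      rw [hδ₀]
      exact (hgood k hk).2.2 P₁ P₂ h1 h2 h3) hN0 hNJ

end Pool.BFL
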