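import Pool.Agent.H19.BFL.Asm6

/-!
# Ball frontier lemma, assembly 7: the class theorem
-/

set_option autoImplicit false

namespace Pool.BFL

open Finset Real
open Pool.Agent.H49.Ent Pool.Agent.H32.Dense Pool.STK Pool.KS3 Pool.KA Pool.KSAT Pool.K2S Pool.PB
open Pool.Agent.H34.BFL

variable {m : ℕ}

/-- The trivial law in a class. -/
theorem trl_clg {S : FCl m} {h₁ X : ℝ} {K N ρ : ℕ} {i₁ : Fin m} (hρN : ρ ≤ N)
    (h : ∀ (a w v P : ℕ), w ≤ a → a + v ≤ ρ → P + v ≤ ρ →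
      Clg S (fun J F A => Ch F i₁ ⌊h₁ * J⌋₊ A →
        Tb F i₁ (ρ * (J / N)) K (a * (J / N)) (w * (J / N)) (P * (J / N)) A →
        Tb F i₁ (ρ * (J / N)) K ((a + v) * (J / N)) (w * (J / N)) ((P + v - 1) * (J / N)) A)) :
    Clg S (fun J F A => Ch F i₁ ⌊h₁ * J⌋₊ A → Trl F i₁ N ρ K A) := by
  have h1 : Clg S (fun J F A => ∀ i : Fin (N + 1) × Fin (N + 1) × Fin (N + 1) × Fin (N + 1),
      ((i.2.1 : ℕ) ≤ i.1 ∧ (i.1 : ℕ) + i.2.2.1 ≤ ρ ∧ (i.2.2.2 : ℕ) + i.2.2.1 ≤ ρ) →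
      Ch F i₁ ⌊h₁ * J⌋₊ A →
        Tb F i₁ (ρ * (J / N)) K (i.1 * (J / N)) (i.2.1 * (J / N)) (i.2.2.2 * (J / N)) A →
        Tb F i₁ (ρ * (J / N)) K ((i.1 + i.2.2.1) * (J / N)) (i.2.1 * (J / N))
          ((i.2.2.2 + i.2.2.1 - 1) * (J / N)) A) := by
    refine Clg.finite fun i => Clg.cnd fun hi => ?_
    exact h i.1 i.2.1 i.2.2.1 i.2.2.2 hi.1 hi.2.1 hi.2.2
  refine Clg.mono (J₂ := 0) h1 ?_
  intro J _ F A h2 hCh a w v P hwa hav hPv hTb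
  exact h2 (⟨a, by omega⟩, ⟨w, by omega⟩, ⟨v, by omega⟩, ⟨P, by omega⟩) ⟨hwa, hav, hPv⟩ hCh hTb

open Classical in
/-- **The ball frontier lemma**, from the rows. -/
theorem bflw_of (hSYS : SYS3Stmt) (hRTE : RTEStmt) (hUCN : UCNStmt) (hPRD : PRDStmt)
    (hSCL : SCL2Stmt) (hMAI : MAIStmt) (hCPS : CPSStmt) (hm : 2 ≤ m) {S : FCl m}
    (hTRL : TRLS S) (hSPS : SPS S (m - 2)) : BFLW S := by
  intro c h₁ X ε K hc hh hX hε hK γ₀ hγ₀
  obtain ⟨N₁, X₁, gs, hN₁, hX₁, hgs, hev⟩ := event hSYS hRTE hUCN hPRD hSCL hMAI hm K c h₁ ε hK hc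
    hh hε
  obtain ⟨ψ, hψ, hSp⟩ := hSPS gs hgs
  obtain ⟨N₂, hN₂⟩ := hTRL h₁ X K hh hX hK
  have hN₁r : (1 : ℝ) ≤ N₁ := by exact_mod_cast hN₁
  have hX₁r : (1 : ℝ) ≤ X₁ := by exact_mod_cast hX₁
  obtain ⟨γ, hγ⟩ : ∃ γ : ℝ, γ = min γ₀ (ε / N₁) := ⟨_, rfl⟩
  have hγ0 : 0 < γ := by rw [hγ]; exact lt_min hγ₀ (div_pos hε (by linarith))
  have hγ1 : γ ≤ γ₀ := by rw [hγ]; exact min_le_left _ _
  have hγ2 : γ ≤ ε / N₁ := by rw [hγ]; exact min_le_right _ _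
  obtain ⟨M₁, hM₁⟩ := exists_nat_ge ((N₁ * X₁ + N₁ * N₁ : ℝ) / ε + 2 / γ + N₂ + 1)
  refine ⟨γ, hγ0, hγ1, M₁, fun M hM => ⟨1, fun L hL N hN i₁ ρ w hρX => ?_⟩⟩
  have hMr : (N₁ * X₁ + N₁ * N₁ : ℝ) / ε + 2 / γ + N₂ + 1 ≤ M :=
    hM₁.trans (by exact_mod_cast hM)
  have hp1 : 0 ≤ (N₁ * X₁ + N₁ * N₁ : ℝ) / ε := by positivity
  have hp2 : 0 ≤ 2 / γ := by positivity
  have hp3 : (0 : ℝ) ≤ N₂ := Nat.cast_nonneg _
  have hMN : M ≤ N := by rw [hN]; exact Nat.le_mul_of_pos_right M hL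
  have hMNr : (M : ℝ) ≤ N := by exact_mod_cast hMN
  have hM0 : 0 < M := by
    have : (0 : ℝ) < M := by linarith
    exact_mod_cast this
  have hN0 : 0 < N := by omega
  have hc1 : (N₁ * X₁ + N₁ * N₁ : ℝ) ≤ ε * M := by
    have : (N₁ * X₁ + N₁ * N₁ : ℝ) / ε ≤ M := by linarith
    rw [div_le_iff₀ hε] at this
    linarith
  have hNX : (N₁ : ℝ) * X₁ ≤ ε * M := by
    have : (0 : ℝ) ≤ N₁ * N₁ := by positivity
    linarith
  have hNN : (N₁ : ℝ) * N₁ ≤ ε * N := by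
    have h1 : (0 : ℝ) ≤ N₁ * X₁ := by positivity
    have h2 : ε * M ≤ ε * N := mul_le_mul_of_nonneg_left hMNr hε.le
    linarith
  have hγN : 2 ≤ γ * N := by
    have : 2 / γ ≤ N := by linarith
    rw [div_le_iff₀ hγ0] at this
    linarith
  have hN₂N : N₂ ≤ N := by
    have : (N₂ : ℝ) ≤ N := by linarith
    exact_mod_cast this
  have hρN : ρ ≤ N := by
    have h1 : 0 ≤ X * N := by positivity
    have : (ρ : ℝ) ≤ N := by linarith
    exact_mod_cast this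
  have hγf : (⌊γ * N⌋₊ : ℝ) ≤ γ * N := Nat.floor_le (by positivity)
  -- the first list
  refine Clg.step (plist (ι := Fin (N + 1) × Fin (N + 1)) (fun i J F =>
    Tb F i₁ (ρ * (J / N)) K (i.1 * (J / N)) (i.1 * (J / N)) (i.2 * (J / N)))
    fun i J F => Tb.hered F i₁ _ _ _ _ _) fun κL hκL => ?_
  obtain ⟨τ₀, hτ₀, J₀, hev2⟩ := hev M L N hN hL hNX hNN ψ κL hψ hκL
  -- the second list
  obtain ⟨ε₂, hε₂⟩ : ∃ ε₂ : ℝ, ε₂ = c * Real.log 2 / (4 * M) := ⟨_, rfl⟩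
  have hlog : 0 < Real.log 2 := Real.log_pos one_lt_two
  have hMr0 : (0 : ℝ) < M := by exact_mod_cast hM0
  have hε₂0 : 0 < ε₂ := by rw [hε₂]; positivity
  refine Clg.step (plist (ι := Fin M) (fun l J F =>
    Cp F (l * (L * (J / N))) ((l + 1) * (L * (J / N)))
      ((m - c) * (((L * (J / N) : ℕ) : ℝ) * Real.log 2) + ε₂ * J))
    fun l J F => cp_hered F _ _ _) fun κC hκC => ?_
  obtain ⟨J₃, hcps⟩ := hCPS m κC ε₂ hκC hε₂0
  have hT : Clg S (fun J F A => Ch F i₁ ⌊h₁ * J⌋₊ A → Trl F i₁ N ρ K A) :=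
    trl_clg (X := X) hρN fun a w v P h1 h2 h3 => hN₂ N hN₂N i₁ ρ a w v P h1 h2 h3 hρX
  have hSt : Clg S (fun J F A => S.St τ₀ F A) := Clg.of hτ₀ 0 fun J _ F A h => h
  refine Clg.mono (J₂ := J₀ + J₃ + N) ((hSp.and hT).and hSt) ?_
  rintro J hJ F A ⟨⟨h1, h2⟩, h3⟩ hL2 hL1 hCh
  have hJN : N ≤ J := by omega
  have hu1 : 1 ≤ J / N := Nat.div_pos hJN hN0
  have hPA : 0 < Pe F.p A := (Real.exp_pos _).trans_le h3.2
  refine le_trans ?_ (hev2 J (by omega) F i₁ ρ w ⌊γ * N⌋₊ A ?_ ?_ hρN (S.tr h3.1)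
    (fun τ hτ => ⟨S.tm (S.mono hτ h3.1), S.rb (S.mono hτ h3.1)⟩) h3.2 hCh h1 (h2 hCh) ?_ ?_)
  · have hsub : ((range N).filter fun a => w ≤ a ∧
        (thrT F i₁ N ρ K A a a : ℝ) ≤ thrT F i₁ N ρ K A a w + γ * N ∧
        (thrT F i₁ N ρ K A a w : ℝ) + 2 * γ * N ≤ ρ ∧
        Zr F c N (thrT F i₁ N ρ K A a w / L * L)
          ((thrT F i₁ N ρ K A a w / L + 1) * L) A) ⊆
        ((range N).filter fun a => w ≤ a ∧
          thrT F i₁ N ρ K A a a ≤ thrT F i₁ N ρ K A a w + ⌊γ * N⌋₊ ∧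
          thrT F i₁ N ρ K A a w + 2 * ⌊γ * N⌋₊ ≤ ρ ∧
          Zr F c N (thrT F i₁ N ρ K A a w / L * L)
            ((thrT F i₁ N ρ K A a w / L + 1) * L) A) := by
      intro a ha
      rw [Finset.mem_filter] at ha ⊢
      obtain ⟨ha0, ha1, ha2, ha3, ha4⟩ := ha
      refine ⟨ha0, ha1, ?_, ?_, ha4⟩
      · have h5 : thrT F i₁ N ρ K A a w ≤ thrT F i₁ N ρ K A a a :=
          thrT_mono le_rfl ha1 (Finset.mem_range.1 ha0).le
        have h6 : thrT F i₁ N ρ K A a a - thrT F i₁ N ρ K A a w ≤ ⌊γ * N⌋₊ := by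
          refine Nat.le_floor ?_
          rw [Nat.cast_sub h5]
          linarith
        omega
      · have h7 : (thrT F i₁ N ρ K A a w : ℝ) + 2 * (⌊γ * N⌋₊ : ℝ) ≤ ρ := by linarith
        exact_mod_cast h7
    exact_mod_cast Finset.card_le_card hsub
  · calc (N₁ : ℝ) * (⌊γ * N⌋₊ : ℝ) ≤ N₁ * (γ * N) :=
          mul_le_mul_of_nonneg_left hγf (by linarith)
      _ ≤ N₁ * (ε / N₁ * N) := by
          refine mul_le_mul_of_nonneg_left ?_ (by linarith)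
          exact mul_le_mul_of_nonneg_right hγ2 (Nat.cast_nonneg _)
      _ = ε * N := by field_simp
  · exact Nat.le_floor (by exact_mod_cast hγN)
  · intro a p ha hp
    exact plist_sb hL1 (⟨a, by omega⟩, ⟨p, by omega⟩)
  · intro l hl hZ
    have h5 := plist_sb hL2 ⟨l, hl⟩
    have h6 : CH (Pool.Agent.H49.Ent.cond F.p A True) (F.X ((l + 1) * (L * (J / N))))
        (fun ω => (F.X (l * (L * (J / N))) ω, F.W ω)) ≤
        (m - c) * (((L * (J / N) : ℕ) : ℝ) * Real.log 2) := by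
      have h7 : CH (Pool.Agent.H49.Ent.cond F.p A True) (F.X ((l + 1) * L * (J / N)))
        (fun ω => (F.X (l * L * (J / N)) ω, F.W ω)) ≤
        (m - c) * (((((l + 1) * L * (J / N) : ℕ) : ℝ) - ((l * L * (J / N) : ℕ) : ℝ)) *
          Real.log 2) := hZ
      rw [Nat.mul_assoc, Nat.mul_assoc] at h7
      refine h7.trans (le_of_eq ?_)
      push_cast
      ring
    have h7 := hcps J (by omega) F A (l * (L * (J / N))) ((l + 1) * (L * (J / N))) _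
      (Nat.mul_le_mul_right _ (Nat.le_succ l))
      (by
        have e1 : (l + 1) * (L * (J / N)) ≤ M * (L * (J / N)) := Nat.mul_le_mul_right _ hl
        have e2 : M * (L * (J / N)) = N * (J / N) := by rw [hN]; ring
        have e3 : N * (J / N) ≤ J := Nat.mul_div_le J N
        omega)
      hPA h6 h5
    refine cp_mono ?_ h7
    have h8 : (J : ℝ) ≤ 2 * (M * (L * (J / N) : ℕ)) := by
      have e2 : J < N * (J / N + 1) := Nat.lt_mul_div_succ J hN0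
      have e3 : N * (J / N + 1) ≤ N * (2 * (J / N)) := Nat.mul_le_mul_left _ (by omega)
      have e4 : N * (2 * (J / N)) = 2 * (M * (L * (J / N))) := by rw [hN]; ring
      have e5 : J ≤ 2 * (M * (L * (J / N))) := by omega
      exact_mod_cast e5
    have h9 : ε₂ * J ≤ c / 2 * (((L * (J / N) : ℕ) : ℝ) * Real.log 2) := by
      calc ε₂ * J ≤ ε₂ * (2 * (M * (L * (J / N) : ℕ))) := mul_le_mul_of_nonneg_left h8 hε₂0.le
        _ = c / 2 * (((L * (J / N) : ℕ) : ℝ) * Real.log 2) := by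
          rw [hε₂]
          field_simp
          ring
    linarith

end Pool.BFL
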