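import Pool.Agent.H19.BFL.Stmts3
import Pool.Agent.H18.PB.Skel2
import Pool.Agent.H18.PB.Tb
import Pool.Agent.H6.SLP.Grow

/-!
# Ball frontier lemma: from families to systems (board kbfo)

Closed labels of a family (`Pool.PB.Tb`) give a system `Dat`; new labels of the system give labels
of the family on large events; the final statement `BFL`.
-/

set_option autoImplicit false

namespace Pool.BFL

open Finset Real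
open Pool.Agent.H49.Ent Pool.Agent.H32.Dense Pool.STK Pool.KS3 Pool.KA Pool.KSAT Pool.K2S Pool.PB

variable {m J : ℕ}

/-- Row RGR: a random grid separates two close functions rarely. -/
def RGRStmt : Prop :=
  ∀ (Ω ι : Type) [Fintype Ω] [Fintype ι] (p : Ω → ℝ) (A : Ω → Prop) (f f' : ι → Ω → ℝ)
    (d : ι → ℝ), IsLaw p → (∀ i, 0 ≤ d i) → (∀ i ω, A ω → |f i ω - f' i ω| ≤ d i) →
    ∃ θ : ℝ, 0 ≤ θ ∧ θ < 1 ∧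
      Pe p (fun ω => A ω ∧ ∃ i, ⌊f i ω + θ⌋ ≠ ⌊f' i ω + θ⌋) ≤ (∑ i, d i) * Pe p A

/-- The system of a family, with closed labels `c k`. -/
noncomputable def fdat (F : Fam m J) (i₁ : Fin m) (r : ℕ) {Γ : Type} (c : ℕ → F.Ω → Γ)
    (y₀ : ℕ → Γ → Fin m → ℝ) (Φ : ℕ → Γ → Pl m) (g : ℕ → ℕ) : Dat m where
  Ω := F.Ω
  Λ := ((Fin m → ℝ) × (Fin m → ℝ)) × F.ζ
  Z := (Fin m → ℤ) × (ℕ × F.ζ)
  Γ := Γ
  fin := F.fin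
  ln ω := (F.l ω, F.Z ω)
  A l := Function.update l.1.1 i₁ 0
  E l := Function.update l.1.2 i₁ 1
  T := F.T
  h ω := F.x ω i₁
  pt := ptr F r
  c := c
  y₀ := y₀
  F := Φ
  g := g
  i₀ := i₁

/-- The part of `Dat.Ok` which does not depend on the law, on the event `A`; the gradient of the
polynomials is bounded only at the base point. -/
structure Dat.Cl {n : ℕ} (D : Dat n) (K J w₀ z M : ℕ) (κ : ℝ) (A : D.Ω → Prop) : Prop where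
  c_pt : ∀ k ≤ M, ∀ ω ω', A ω → A ω' → D.pt ω = D.pt ω' → D.c k ω = D.c k ω'
  c_wn : ∀ k ≤ M, ∀ ω ω', A ω → A ω' → D.wn J (w₀ + k * z) ω = D.wn J (w₀ + k * z) ω' →
    D.c k ω = D.c k ω'
  c_c : ∀ k < M, ∀ ω ω', A ω → A ω' → D.c (k + 1) ω = D.c (k + 1) ω' → D.c k ω = D.c k ω'
  c_T : ∀ k ≤ M, ∀ ω ω', A ω → A ω' → D.c k ω = D.c k ω' →
    D.T ω / 2 ^ (J - (w₀ + k * z)) = D.T ω' / 2 ^ (J - (w₀ + k * z))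
  y₀_near : ∀ k ≤ M, ∀ ω, A ω → ∀ i,
    |D.Y J ω i - D.y₀ k (D.c k ω) i| ≤ Real.exp (κ * z) / 2 ^ (w₀ + k * z)
  F_deg : ∀ k x, (D.F k x).totalDegree ≤ K
  F_hgt : ∀ k ≤ M, ∀ ω, A ω → |D.rh J k ω| ≤ Real.exp (κ * z) / 2 ^ D.g k
  F_grad : ∀ k ≤ M, ∀ ω, A ω → ∀ i,
    |MvPolynomial.eval (D.Y J ω) (MvPolynomial.pderiv i (D.F k (D.c k ω)))| ≤ Real.exp (κ * z)

/-- Row CLO: the labels of a family give closed labels, on a large event. `g k` is the precision of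
the ball label of level `k`, `tp k v` the precision of the tube label with the window of level `k`
and the radius of level `k + v`. -/
def CLOStmt : Prop :=
  ∀ (m K M : ℕ) (κ : ℝ), 1 ≤ m → 0 < κ → ∃ z₀ : ℕ, ∀ (J r w₀ z : ℕ) (F : Fam m J) (i₁ : Fin m)
    (A : F.Ω → Prop) (g : ℕ → ℕ) (tp : ℕ → ℕ → ℕ), z₀ ≤ z → r ≤ J → w₀ + (M + 1) * z ≤ r →
    (∀ k ≤ M, ((w₀ + k * z : ℕ) : ℝ) ≤ g k + κ / 2 * z) →
    (∀ k ≤ M, Tb F i₁ r K (w₀ + k * z) (w₀ + k * z) (g k) A) →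
    (∀ k v : ℕ, k + v ≤ M → Tb F i₁ r K (w₀ + (k + v) * z) (w₀ + k * z) (tp k v) A) →
    ∃ (Γ : Type) (c : ℕ → F.Ω → Γ) (y₀ : ℕ → Γ → Fin m → ℝ) (Φ : ℕ → Γ → Pl m)
      (A' : F.Ω → Prop), Sub A' A ∧ 1 / 2 * Pe F.p A ≤ Pe F.p A' ∧
      (fdat F i₁ r c y₀ Φ g).Cl K J w₀ z M κ A' ∧
      ∀ k v : ℕ, k + v ≤ M →
        ∃ (Q : (((Fin m → ℝ) × (Fin m → ℝ)) × F.ζ) × ℕ → Pl m) (Qb : Γ → Pl m),
        (∀ x, (Q x).totalDegree ≤ K) ∧ (∀ x, (Qb x).totalDegree ≤ K) ∧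
        ∀ ω, A' ω → |F.x ω i₁ - MvPolynomial.eval (bp F i₁ ω) (Qb (c (k + v) ω))| ≤
            Real.exp (κ * z) / 2 ^ tp k v ∧
          ∀ b : Fin m → ℝ, (∀ i, |b i - bp F i₁ ω i| ≤ 1 / 2 ^ (w₀ + (k + v) * z)) →
            |MvPolynomial.eval b (Q ((F.l ω, F.Z ω), F.T ω / 2 ^ (J - (w₀ + k * z)))) -
              MvPolynomial.eval b (Qb (c (k + v) ω))| ≤ Real.exp (κ * z) / 2 ^ tp k v

/-- Row TIM: the times of a large event are nearly uniform given the line. -/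
def TIMStmt : Prop :=
  ∀ (m : ℕ) (J : ℕ) (F : Fam m J) (τ : ℝ) (B : F.Ω → Prop), 0 ≤ τ → F.Tr → F.Tm (τ * J) →
    F.Rb (τ * J) → Real.exp (-(τ * J)) ≤ Pe F.p B →
    J * Real.log 2 - (20 * (τ * J) + 20) ≤
      CH (Pool.Agent.H49.Ent.cond F.p B True) F.T (fun ω => (F.l ω, F.Z ω))

/-- Row NCO: the spread of the fans at the points of resolution `r`. -/
def NCOStmt : Prop :=
  ∀ (m : ℕ) (κ : ℝ), 2 ≤ m → 0 < κ → ∃ z₀ : ℕ, ∀ (J r z h : ℕ) (ψ g : ℝ) (F : Fam m J)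
    (i₁ : Fin m) (A B : F.Ω → Prop), z₀ ≤ z → r ≤ J → 0 < Pe F.p A →
    Ch F i₁ h A → κ * z ≤ 2 * (h * Real.log 2) → 4 * (g * J) ≤ κ * z → 0 < g →
    Sp F (m - 2) ψ g A → Sub B A → Real.exp (-(ψ * J)) * Pe F.p A ≤ κ * Pe F.p B →
    ∃ e : (Fin m → ℤ) × (ℕ × F.ζ) → ℝ, (∀ x, 0 ≤ e x) ∧
      Ex (Pool.Agent.H49.Ent.cond F.p B True) (fun ω => e (ptr F r ω)) ≤ κ ∧
      ∀ ω, 0 < Pool.Agent.H49.Ent.cond F.p B True ω → ∀ u : Fin m → ℝ, (∃ i, 1 ≤ |u i|) →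
        Pb (Pool.Agent.H49.Ent.cond F.p B True) (fun ω' => ptr F r ω' = ptr F r ω ∧
          |∑ i, u i * Function.update (F.d ω') i₁ 1 i| ≤ Real.exp (-(κ * z))) ≤
          e (ptr F r ω) * law (Pool.Agent.H49.Ent.cond F.p B True) (ptr F r) (ptr F r ω)

/-- Row GRA: the gradient bound at the base points gives the bound on the balls, on a large event
(CMR for the trivial labels). -/
def GRAStmt : Prop :=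
  ∀ (n K M : ℕ) (κ : ℝ), 1 ≤ n → 0 < κ → ∃ κ₀ : ℝ, 0 < κ₀ ∧ κ₀ ≤ κ ∧ ∃ z₀ : ℕ,
    ∀ (J r w₀ z : ℕ) (D : Dat n) (p : D.Ω → ℝ) (A : D.Ω → Prop), z₀ ≤ z → IsLaw p →
      0 < Pe p A → r ≤ J → w₀ + (M + 1) * z ≤ r → (∀ ω, D.T ω < 2 ^ J) →
      (∀ l i, |D.E l i| ≤ 1) → (∀ l, D.A l D.i₀ = 0) → (∀ l, D.E l D.i₀ = 1) →
      J * Real.log 2 - κ₀ * z ≤ CH (cond p A True) D.T D.ln →
      Det (cond p A True) D.pt D.T → Det (cond p A True) D.pt (D.cell J r) →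
      D.Cl K J w₀ z M κ₀ A →
      (∃ e : D.Z → ℝ, (∀ x, 0 ≤ e x) ∧ Ex (cond p A True) (fun ω => e (D.pt ω)) ≤ κ₀ ∧
        ∀ ω, 0 < cond p A True ω → ∀ u : Fin n → ℝ, (∃ i, 1 ≤ |u i|) →
          Pb (cond p A True) (fun ω' => D.pt ω' = D.pt ω ∧
            |∑ i, u i * D.E (D.ln ω') i| ≤ Real.exp (-(κ₀ * z))) ≤
            e (D.pt ω) * law (cond p A True) D.pt (D.pt ω)) →
      ∃ A' : D.Ω → Prop, Sub A' A ∧ 1 / 2 * Pe p A ≤ Pe p A' ∧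
        ∀ k ≤ M, ∀ ω, A' ω → ∀ b : Fin n → ℝ,
          (∀ i, |b i - D.Y J ω i| ≤ 1 / 2 ^ (w₀ + k * z)) → ∀ i,
          |MvPolynomial.eval b (MvPolynomial.pderiv i (D.F k (D.c k ω)))| ≤ Real.exp (κ * z)

/-- Row SYS (assembly of CLO, GRA, TIM, NCO): the system of a family, for all large events. -/
def SYSStmt : Prop :=
  ∀ (m K M : ℕ) (κ : ℝ), 2 ≤ m → 0 < κ → ∃ κ₁ : ℝ, 0 < κ₁ ∧ ∃ z₀ : ℕ,
    ∀ (J r w₀ z h : ℕ) (ψ τ gs : ℝ) (F : Fam m J) (i₁ : Fin m) (A : F.Ω → Prop) (g : ℕ → ℕ)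
      (tp : ℕ → ℕ → ℕ), z₀ ≤ z → r ≤ J → w₀ + (M + 1) * z ≤ r → F.Tr → 0 ≤ τ →
    F.Tm (τ * J) → F.Rb (τ * J) → τ * J ≤ κ₁ * z → 2 * Real.exp (-(τ * J)) ≤ κ₁ * Pe F.p A →
    Ch F i₁ h A → κ₁ * z ≤ 2 * (h * Real.log 2) → 4 * (gs * J) ≤ κ₁ * z → 0 < gs →
    Real.exp (-(ψ * J)) ≤ κ₁ → Sp F (m - 2) ψ gs A → Monotone g →
    (∀ k ≤ M, ((w₀ + k * z : ℕ) : ℝ) ≤ g k + κ₁ * z) →
    (∀ k ≤ M, Tb F i₁ r K (w₀ + k * z) (w₀ + k * z) (g k) A) →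
    (∀ k v : ℕ, k + v ≤ M → Tb F i₁ r K (w₀ + (k + v) * z) (w₀ + k * z) (tp k v) A) →
    ∃ (Γ : Type) (c : ℕ → F.Ω → Γ) (y₀ : ℕ → Γ → Fin m → ℝ) (Φ : ℕ → Γ → Pl m)
      (A' : F.Ω → Prop), Sub A' A ∧ 1 / 4 * Pe F.p A ≤ Pe F.p A' ∧
      (∀ B : F.Ω → Prop, Sub B A' → Real.exp (-(τ * J)) ≤ Pe F.p B →
        Real.exp (-(ψ * J)) * Pe F.p A ≤ κ₁ * Pe F.p B →
        (fdat F i₁ r c y₀ Φ g).Ok K J r w₀ z M κ (Pool.Agent.H49.Ent.cond F.p B True)) ∧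
      ∀ k v : ℕ, k + v ≤ M →
        ∃ (Q : (((Fin m → ℝ) × (Fin m → ℝ)) × F.ζ) × ℕ → Pl m) (Qb : Γ → Pl m),
        (∀ x, (Q x).totalDegree ≤ K) ∧ (∀ x, (Qb x).totalDegree ≤ K) ∧
        ∀ ω, A' ω → |F.x ω i₁ - MvPolynomial.eval (bp F i₁ ω) (Qb (c (k + v) ω))| ≤
            Real.exp (κ * z) / 2 ^ tp k v ∧
          ∀ b : Fin m → ℝ, (∀ i, |b i - bp F i₁ ω i| ≤ 1 / 2 ^ (w₀ + (k + v) * z)) →
            |MvPolynomial.eval b (Q ((F.l ω, F.Z ω), F.T ω / 2 ^ (J - (w₀ + k * z)))) -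
              MvPolynomial.eval b (Qb (c (k + v) ω))| ≤ Real.exp (κ * z) / 2 ^ tp k v

/-- The number of points of resolution `P₂` over a point of resolution `P₁` is at most
`exp θ`. -/
def Cp (F : Fam m J) (P₁ P₂ : ℕ) (θ : ℝ) (A : F.Ω → Prop) : Prop :=
  ∀ ω, A ω → (Set.ncard {x | ∃ ω', A ω' ∧ (F.X P₁ ω', F.W ω') = (F.X P₁ ω, F.W ω) ∧
    x = F.X P₂ ω'} : ℝ) ≤ Real.exp θ

/-- Row CPS: entropy bounds of the rows give counts on the event itself, by stability (Unf). -/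
def CPSStmt : Prop :=
  ∀ (m : ℕ) (κ ε : ℝ), 0 < κ → 0 < ε → ∃ J₀ : ℕ, ∀ J ≥ J₀, ∀ (F : Fam m J) (A : F.Ω → Prop)
    (P₁ P₂ : ℕ) (θ : ℝ), P₁ ≤ P₂ → P₂ ≤ J → 0 < Pe F.p A →
    CH (Pool.Agent.H49.Ent.cond F.p A True) (F.X P₂) (fun ω => (F.X P₁ ω, F.W ω)) ≤ θ →
    Stb F.p (κ * J) A (Cp F P₁ P₂ (θ + ε * J)) → Cp F P₁ P₂ (θ + ε * J) A

/-- Row RTE: the rates of the rows for all smaller events, from counts in blocks of length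
`L'`. -/
def RTEStmt : Prop :=
  ∀ (m J : ℕ) (F : Fam m J) (i₁ : Fin m) (r : ℕ) (Γ : Type) (c : ℕ → F.Ω → Γ)
    (y₀ : ℕ → Γ → Fin m → ℝ) (Φ : ℕ → Γ → Pl m) (g : ℕ → ℕ) (A B : F.Ω → Prop) (L' : ℕ)
    (G : Finset ℕ) (P₁ P₂ : ℕ) (c₁ c₂ κ' : ℝ), F.Tr → Sub B A → 0 < Pe F.p B → P₁ ≤ P₂ →
    P₂ ≤ J →
    (∀ l ∈ G, P₁ ≤ l * L' ∧ (l + 1) * L' ≤ P₂ ∧
      Cp F (l * L') ((l + 1) * L') ((m - c₁) * (L' * Real.log 2)) A) →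
    c₂ * (((P₂ : ℝ) - P₁) * Real.log 2) ≤ c₁ * (L' * Real.log 2) * G.card + κ' →
    (fdat F i₁ r c y₀ Φ g).Rate J (Pool.Agent.H49.Ent.cond F.p B True) c₂ κ' P₁ P₂

/-- Row UCN: uniform counts on a large event (RAT and `cnt_core`, finitely many times). -/
def UCNStmt : Prop :=
  ∀ (n K : ℕ) (C₁ : ℝ), 1 ≤ n → 1 ≤ K → 1 ≤ C₁ → ∃ (C₃ : ℝ) (U₀ : ℕ), 1 ≤ C₃ ∧ 1 ≤ U₀ ∧
    ∀ B R M : ℕ, ∃ κ : ℝ, 0 < κ ∧ ∀ κ₂ : ℝ, 0 < κ₂ → ∃ z₀ : ℕ,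
    ∀ (J r w₀ z : ℕ) (c : ℝ) (D : Dat n) (p : D.Ω → ℝ) (A : D.Ω → Prop) (Good : Finset ℕ),
      z₀ ≤ z → J ≤ R * z → IsLaw p → 0 < Pe p A → 0 ≤ c → c ≤ 1 →
      (∀ k ∈ Good, k + B ≤ M ∧ D.g (k + B) ≤ r) →
      (∀ B' : D.Ω → Prop, Sub B' A → Real.exp (-(κ₂ * z)) * Pe p A ≤ Pe p B' →
        D.Ok K J r w₀ z M κ (cond p B' True) ∧
        ∀ k ∈ Good, ∀ P₁ P₂ : ℕ, D.g k ≤ P₁ → P₁ ≤ P₂ → P₂ ≤ D.g (k + B) →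
          D.Rate J (cond p B' True) c (C₁ * z) P₁ P₂) →
      ∃ B' : D.Ω → Prop, Sub B' A ∧ Real.exp (-(κ₂ * z)) * Pe p A ≤ Pe p B' ∧
        ∀ k ∈ Good, ∀ j U B₁ : ℕ, 1 ≤ j → j ≤ K → U₀ ≤ U → (j + 2) * U ≤ B₁ → B₁ ≤ B →
        D.Hom z B₁ k j (C₁ + 1) → ∀ P₁ P₂ : ℕ, D.g k + j * ((U - 1) * z) ≤ P₁ → P₁ ≤ P₂ →
        P₂ ≤ D.g k + (j + 1) * (U * z) →
        D.Cnt J k (k + U) (w₀ + (k + B₁) * z) (cond p B' True) c (C₃ * z) P₁ P₂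

/-- Row PRD: a new label of the system gives a label of the family on a large event. `P` is well
above the digit `v`, so the gradient at the base points is bounded by the chart. -/
def PRDStmt : Prop :=
  ∀ (m K : ℕ) (κ : ℝ), 2 ≤ m → 0 < κ → κ ≤ 1 / 8 → ∃ κ₁ : ℝ, 0 < κ₁ ∧ ∃ z₀ : ℕ,
    ∀ (J r z v P h : ℕ) (ψ gs : ℝ) (F : Fam m J)
    (i₁ : Fin m) (A B : F.Ω → Prop) (Γ : Type) (c : ℕ → F.Ω → Γ) (y₀ : ℕ → Γ → Fin m → ℝ)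
    (Φ : ℕ → Γ → Pl m) (gp : ℕ → ℕ), z₀ ≤ z → r ≤ J → v + z ≤ P → v + z ≤ J → 0 < Pe F.p A →
    Ch F i₁ h A → κ * z ≤ 2 * (h * Real.log 2) → 4 * (gs * J) ≤ κ * z → 0 < gs →
    Sp F (m - 2) ψ gs A → Sub B A → Real.exp (-(ψ * J)) * Pe F.p A ≤ κ * Pe F.p B →
    J * Real.log 2 - κ₁ * z ≤
      CH (Pool.Agent.H49.Ent.cond F.p B True) F.T (fun ω => (F.l ω, F.Z ω)) →
    (fdat F i₁ r c y₀ Φ gp).NewLab K J (Pool.Agent.H49.Ent.cond F.p B True) v P →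
    ∃ B' : F.Ω → Prop, Sub B' B ∧ 1 / 4 * Pe F.p B ≤ Pe F.p B' ∧ Tb F i₁ r K v v P B'

open Classical in
/-- **The ball frontier lemma** for a class of families: at most of the radii where the precision
of the tubes is almost that of the balls, the rows are full. -/
def BFLS (S : FCl m) : Prop :=
  ∀ (c h₁ X ε : ℝ) (K : ℕ), 0 < c → 0 < h₁ → 0 < X → 0 < ε → 1 ≤ K → ∃ γ : ℝ, 0 < γ ∧
    ∃ M₁ : ℕ, ∀ M ≥ M₁, ∃ L₁ : ℕ, ∀ L ≥ L₁, ∀ N : ℕ, N = M * L → ∀ (i₁ : Fin m) (ρ w : ℕ),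
    (ρ : ℝ) + X * N ≤ N → Clg S (fun J F A => Ch F i₁ ⌊h₁ * J⌋₊ A →
      (((range N).filter fun a => w ≤ a ∧
        (thrT F i₁ N ρ K A a a : ℝ) ≤ thrT F i₁ N ρ K A a w + γ * N ∧
        (thrT F i₁ N ρ K A a w : ℝ) + 2 * γ * N ≤ ρ ∧
        Zr F c N (thrT F i₁ N ρ K A a w / L * L)
          ((thrT F i₁ N ρ K A a w / L + 1) * L) A).card : ℝ) ≤ ε * N)

end Pool.BFL
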