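import Pool.Agent.H19.BFL.Asm7
import Pool.Agent.H40.SLP.Trl
import Pool.Agent.H34.BFL.MAI
import Pool.Agent.H34.BFL.RTE
import Pool.Agent.H34.BFL.SCL2
import Pool.Agent.H90.BFL.Cnl
import Pool.Agent.H32.BFL.NON
import Pool.Agent.H58.BFL.VEN
import Pool.Agent.H58.BFL.NCO
import Pool.Agent.H97.BFL.VCS
import Pool.Agent.H40.BFL.VST
import Pool.Agent.H89.BFL.JET
import Pool.Agent.H89.BFL.RGR
import Pool.Agent.H87.BFL.CMR
import Pool.Agent.H25.BFL.LJT
import Pool.Agent.H25.BFL.PRD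
import Pool.Agent.H67.BFL.CLO
import Pool.Agent.H55.BFL.TIM
import Pool.Agent.H1.BFL.CPS
import Pool.Agent.H74.BFL.UCN
import Pool.Agent.H57.BFL.GRA

/-!
# The ball frontier lemma

For a class of families with spread fans: at most of the radii where the precision of the tube
labels of a fixed window is almost that of the ball labels, the rows are full.
-/

set_option autoImplicit false

namespace Pool.BFL

open Pool.PB

theorem jetThm : JETStmt := Pool.Agent.H89.BFL.jet_thm cmr_thm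

theorem maiThm : MAIStmt :=
  Pool.Agent.H34.BFL.mai_thm
    (ven_thm Pool.Agent.H25.BFL.ljt_thm (Pool.Agent.H40.BFL.vst_thm jetThm
      Pool.Agent.H25.BFL.ljt_thm) jetThm)
    vcs_thm (Cnl.cnl_thm jetThm) (Pool.Agent.H32.BFL.non_thm jetThm)

theorem sysThm : SYS3Stmt :=
  sys_thm (Pool.Agent.H67.BFL.clo_thm Pool.Agent.H89.BFL.rgr_thm) gra_thm tim_thm nco_thm

/-- **The ball frontier lemma.** -/
theorem bflw {m : ℕ} (hm : 2 ≤ m) {S : FCl m} (hS : SPS S (m - 2)) : BFLW S :=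
  bflw_of sysThm Pool.Agent.H34.BFL.rte_thm ucn_full Pool.Agent.H25.BFL.prd_thm scl2_thm maiThm
    Pool.Agent.H1.BFL.cps_thm hm (Trl.trl_thm hS) hS

end Pool.BFL
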