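import Pool.Agent.H19.BFL.Bfl
import Pool.Agent.H76.SLP.Stmts

/-!
# The ball frontier lemma in the form of the board `slp`
-/

set_option autoImplicit false

namespace Pool.PB

/-- **(BFL)** for classes with spread fans. -/
theorem bflw_thm {m : ℕ} (hm : 2 ≤ m) {S : FCl m} (hS : SPS S (m - 2)) : BFLW S :=
  fun c h₁ X hc hh hX K hK ε γ₀ hε hγ => Pool.BFL.bflw hm hS c h₁ X ε K hc hh hX hε hK γ₀ hγ

end Pool.PB
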