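import Pool.Agent.H19.BFL.Stmts

/-!
# Ball frontier lemma: polynomial and scale rows (board kbfo)

`/team-store/K_BFL_helper19.md`. Jets of polynomials, Taylor polynomials along a line, Remez
inequalities outside small events, and the choice of the scale.
-/

set_option autoImplicit false

namespace Pool.BFL

open Finset Real
open Pool.Agent.H49.Ent Pool.Agent.H32.Dense Pool.STK Pool.KS3

/-! ### Jets -/

/-- The polynomial `F (y + ·)`. -/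
noncomputable def sh {n : ℕ} (y : Fin n → ℝ) (F : Pl n) : Pl n :=
  MvPolynomial.aeval (fun i => MvPolynomial.X i + MvPolynomial.C (y i)) F

/-- The homogeneous part of order `i` of `F` at `y`. -/
noncomputable def jt {n : ℕ} (i : ℕ) (F : Pl n) (y : Fin n → ℝ) : Pl n :=
  MvPolynomial.homogeneousComponent i (sh y F)

/-- The derivative in the direction `E`. -/
noncomputable def dE {n : ℕ} (E : Fin n → ℝ) (F : Pl n) : Pl n :=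
  ∑ i, MvPolynomial.C (E i) * MvPolynomial.pderiv i F

/-- The Taylor polynomial of degree `< j` at `y`. -/
noncomputable def tay {n : ℕ} (j : ℕ) (F : Pl n) (y : Fin n → ℝ) : Pl n :=
  ∑ i ∈ range j, sh (fun l => -y l) (jt i F y)

/-- Row LAB, (7.4): adding a potential. -/
def LABStmt : Prop :=
  ∀ (n j : ℕ) (C₀ : ℝ), 1 ≤ j → 1 ≤ C₀ → ∃ C : ℝ, 1 ≤ C ∧
    ∀ (y y' E : Fin n → ℝ) (s d r : ℝ) (T T' b H H' : Pl n), (∀ i, |y i| ≤ C₀) →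
      (∀ i, |y' i| ≤ C₀) → (∀ i, |E i| ≤ C₀) → |s| ≤ 1 → 0 ≤ d → 1 ≤ r →
      b.IsHomogeneous (j - 1) → H.IsHomogeneous j → H'.IsHomogeneous j → CB H r → CB H' r →
      CB (H - H') d →
      (∀ v : Fin n → ℝ, (∀ i, |v i| ≤ 1) → |MvPolynomial.eval v b -
        ∑ i, E i * MvPolynomial.eval v (MvPolynomial.pderiv i H)| ≤ d) →
      (∀ i, |y' i - y i - s * E i| ≤ d) → d ≤ 1 →
      (∀ x : Fin n → ℝ, (∀ i, |x i| ≤ C₀) →
        |MvPolynomial.eval x T' - MvPolynomial.eval x T - lg b y E s x| ≤ d) →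
      ∀ x : Fin n → ℝ, (∀ i, |x i| ≤ C₀) →
        |MvPolynomial.eval x T' + MvPolynomial.eval (fun i => x i - y' i) H' -
          (MvPolynomial.eval x T + MvPolynomial.eval (fun i => x i - y i) H)| ≤ C * r * d

/-- Row QPL: the function `Qw` is a polynomial in the lengths. -/
def QPLStmt : Prop :=
  ∀ (n N j : ℕ) (C₀ : ℝ), 1 ≤ j → 1 ≤ C₀ → ∃ C : ℝ, 1 ≤ C ∧
    ∀ (b : Fin N → Pl n) (E : Fin N → Fin n → ℝ) (r : ℝ), (∀ a, (b a).IsHomogeneous (j - 1)) →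
      (∀ a i, |E a i| ≤ C₀) → (∀ a, CB (b a) r) → 0 ≤ r →
      ∃ Q : Pl N, Q.IsHomogeneous j ∧ CB Q (C * r) ∧ ∀ σ, MvPolynomial.eval σ Q = Qw b E σ

/-- Row TAL: the Taylor polynomials along a line. -/
def TALStmt : Prop :=
  ∀ (n j : ℕ) (F : Pl n) (y E : Fin n → ℝ) (s : ℝ) (x : Fin n → ℝ),
    MvPolynomial.eval x (tay j F (fun i => y i + s * E i)) - MvPolynomial.eval x (tay j F y) =
      ∫ τ in (0 : ℝ)..s, MvPolynomial.eval (fun i => x i - y i - τ * E i)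
        (dE E (jt j F (fun i => y i + τ * E i)))

/-- Row JTB: bounds for the jets. -/
def JTBStmt : Prop :=
  ∀ n K : ℕ, ∃ C : ℝ, 1 ≤ C ∧ ∀ (F : Pl n) (y : Fin n → ℝ) (r S : ℝ), F.totalDegree ≤ K →
    0 < r → (∀ b : Fin n → ℝ, (∀ i, |b i - y i| ≤ r) → |MvPolynomial.eval b F| ≤ S) →
    ∀ i, CB (jt i F y) (C * S / r ^ i)

/-- Row JTE: values from jets. -/
def JTEStmt : Prop :=
  ∀ n K : ℕ, ∃ C : ℝ, 1 ≤ C ∧ ∀ (F : Pl n) (y : Fin n → ℝ) (r S : ℝ), F.totalDegree ≤ K →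
    0 < r → 0 ≤ S → (∀ i ≤ K, CB (jt i F y) (S / r ^ i)) →
    ∀ b : Fin n → ℝ, (∀ i, |b i - y i| ≤ r) → |MvPolynomial.eval b F| ≤ C * S

/-- Row LJT: along a line the coefficients of the jets are polynomials in the time, and the time
derivative is the derivative of the next jet along the line. -/
def LJTStmt : Prop :=
  ∀ (n K i : ℕ) (F : Pl n) (y E : Fin n → ℝ) (k : Fin n →₀ ℕ), F.totalDegree ≤ K →
    ∃ q : Polynomial ℝ, q.natDegree ≤ K ∧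
      (∀ t, q.eval t = (jt i F (fun l => y l + t * E l)).coeff k) ∧
      ∀ t, q.derivative.eval t = (dE E (jt (i + 1) F (fun l => y l + t * E l))).coeff k

/-- Row MKO: Markov inequality. -/
def MKOStmt : Prop :=
  ∀ D : ℕ, ∃ C : ℝ, 1 ≤ C ∧ ∀ (q : Polynomial ℝ) (a r S : ℝ), q.natDegree ≤ D → 0 < r →
    (∀ t ∈ Set.Icc a (a + r), |q.eval t| ≤ S) →
    ∀ t ∈ Set.Icc a (a + r), |q.derivative.eval t| ≤ C * S / r

/-- Row TRA: transport. `Q` is the tube polynomial, `R` and `R'` are the ball polynomials at the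
times `0` and `s`, `r` is the size of the window. -/
def TRAStmt : Prop :=
  ∀ (n K j : ℕ) (C₀ : ℝ), 1 ≤ j → 1 ≤ C₀ → ∃ C : ℝ, 1 ≤ C ∧
    ∀ (Q R R' : Pl n) (y E : Fin n → ℝ) (s r δ D : ℝ), Q.totalDegree ≤ K → 0 < r → |s| ≤ r →
      0 ≤ δ → 0 ≤ D → (∀ i, |E i| ≤ C₀) →
      (∀ i < j, CB (jt i (Q - R) y) (δ / r ^ i)) →
      (∀ i < j, CB (jt i (Q - R') (fun l => y l + s * E l)) (δ / r ^ i)) →
      (∀ t ∈ Set.uIcc 0 s, CB (jt j Q (fun l => y l + t * E l) - jt j Q y) D) →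
      ∀ x : Fin n → ℝ, (∀ i, |x i - y i| ≤ C₀ * r) →
        |MvPolynomial.eval x (tay j R' (fun l => y l + s * E l)) -
          MvPolynomial.eval x (tay j R y) - lg (dE E (jt j Q y)) y E s x| ≤
          C * (δ + D * r ^ j)

/-! ### Remez inequalities outside small events -/

/-- Row REM: one variable. -/
def REMStmt : Prop :=
  ∀ D : ℕ, ∃ C : ℝ, 1 ≤ C ∧ ∀ (Ω S' : Type) [Fintype Ω] (p : Ω → ℝ) (N : ℕ) (T : Ω → ℕ)
    (s : Ω → S') (q : S' → Polynomial ℝ) (Gd : Ω → Prop) (S₀ : S' → ℝ) (θ η : ℝ),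
    IsLaw p → (∀ ω, T ω < N) → (∀ x, (q x).natDegree ≤ D) → 0 ≤ θ → 0 < η → η ≤ 1 →
    Real.log N - θ ≤ CH p T s → Pb p (fun ω => ¬ Gd ω) ≤ η / 4 → (∀ x, 0 < S₀ x) →
    C * (θ + 1) / η ≤ Real.log N →
    (∀ ω, Gd ω → |(q (s ω)).eval ((T ω : ℝ) / N)| ≤ S₀ (s ω)) →
    Pb p (fun ω => ¬ ∀ t ∈ Set.Icc (0 : ℝ) 1,
      |(q (s ω)).eval t| ≤ Real.exp (C * (θ + 1) / η) * S₀ (s ω)) ≤ η

/-- Row REN: several variables. -/
def RENStmt : Prop :=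
  ∀ (n D : ℕ) (C₀ : ℝ), 1 ≤ C₀ → ∃ C : ℝ, 1 ≤ C ∧ ∀ (Ω Γ : Type) [Fintype Ω] (p : Ω → ℝ)
    (L : ℕ) (Y : Ω → Fin n → ℕ) (c : Ω → Γ) (P : Γ → Pl n) (Gd : Ω → Prop) (S₀ : Γ → ℝ)
    (θ η : ℝ),
    IsLaw p → (∀ ω i, Y ω i < 2 ^ L) → (∀ x, (P x).totalDegree ≤ D) → 0 ≤ θ → 0 < η → η ≤ 1 →
    n * (L * Real.log 2) - θ ≤ CH p Y c → Pb p (fun ω => ¬ Gd ω) ≤ η / 4 → (∀ x, 0 < S₀ x) →
    C * (θ + 1) / η ≤ L * Real.log 2 →
    (∀ ω, Gd ω → ∃ y : Fin n → ℝ, (∀ i, |y i - (Y ω i : ℝ) / 2 ^ L| ≤ C₀ / 2 ^ L) ∧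
      |MvPolynomial.eval y (P (c ω))| ≤ S₀ (c ω)) →
    Pb p (fun ω => ¬ ∀ y : Fin n → ℝ, (∀ i, |y i| ≤ C₀) →
      |MvPolynomial.eval y (P (c ω))| ≤ Real.exp (C * (θ + 1) / η) * S₀ (c ω)) ≤ η

/-! ### The choice of the scale -/

open Classical in
/-- Row SCL: a homogeneous scale. `g` is the precision of the balls, `p` the precision of the tubes
of the fixed window `w`, `R` the set of the rows which are not full. The unit of length of the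
homogeneous scale is `x`. -/
def SCLStmt : Prop :=
  ∀ (K B Λ : ℕ) (ε η : ℝ), 1 ≤ K → 1 ≤ B → 1 ≤ Λ → 0 < ε → 0 < η → ∃ N₁ : ℕ, 1 ≤ N₁ ∧
    ∀ (N : ℕ) (g p : ℕ → ℕ) (R : ℕ → Prop) (w γ : ℕ), N₁ * N₁ ≤ N → N₁ * γ ≤ N → Monotone g →
      (∀ a ≤ N, g a ≤ N) →
      (∀ a a', w ≤ a → a ≤ a' → a' ≤ N → p a' ≤ p a + K * (a' - a) + γ) →
      (∀ a, w ≤ a → a ≤ N → p a ≤ g a) →
      (∀ a a', w ≤ a → a ≤ a' → a' ≤ N → g a + (a' - a) ≤ g a' + 2) →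
      ε * N ≤ (((range N).filter fun a => w ≤ a ∧ g a ≤ p a + γ ∧ R (g a)).card : ℝ) →
      ∃ (x a₀ : ℕ) (s : ℝ) (Good : Finset ℕ), N ≤ N₁ * x ∧ N₁ ≤ x ∧ w ≤ a₀ ∧
        a₀ + ((Λ + 1) * B) * x ≤ N ∧ 1 ≤ s ∧ s ≤ K ∧ Good ⊆ range (Λ * B) ∧
        (1 - η) * (Λ * B) ≤ (Good.card : ℝ) ∧ ∀ k ∈ Good,
          (∀ v ≤ B, |(g (a₀ + (k + v) * x) : ℝ) - g (a₀ + k * x) - s * (v * x)| ≤
            4 * K * x) ∧
          (∀ v ≤ B, g (a₀ + (k + v) * x) ≤ p (a₀ + (k + v) * x) + 4 * K * x) ∧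
          (∀ P₁ P₂ : ℕ, g (a₀ + k * x) ≤ P₁ → P₁ + 32 * K * x ≤ P₂ →
            P₂ ≤ g (a₀ + (k + B) * x) →
            ε / (32 * K) * (P₂ - P₁) ≤ (((Ico P₁ P₂).filter fun P => R P).card : ℝ)) ∧
          ∃ b, a₀ + (k + B) * x ≤ b ∧ b < N ∧ w ≤ b ∧ g b ≤ p b + γ ∧ R (g b)

end Pool.BFL
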