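import Pool.Agent.H19.BFL.Stmts2

/-!
# Ball frontier lemma: systems of lines with closed labels (board kbfo)

`/team-store/K_BFL_helper19.md`, sections 2-5. A system has closed labels at the levels
`k = 0, ..., M`; the level `k` is the digit `w₀ + k z`. All errors are `exp (κ z)` with small `κ`,
or `exp (C z)`.
-/

set_option autoImplicit false

namespace Pool.BFL

open Finset Real
open Pool.Agent.H49.Ent Pool.Agent.H32.Dense Pool.STK Pool.KS3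

/-- The data of a system: lines `ln` with the positions `A + t E` (base coordinates), times `T`,
heights `h`, visible points `pt`, closed labels `c k`, their centres `y₀`, their polynomials `F k`
and precisions `g k`; the coordinate `i₀` of the base is the time. -/
structure Dat (n : ℕ) : Type 1 where
  Ω : Type
  Λ : Type
  Z : Type
  Γ : Type
  fin : Fintype Ω
  ln : Ω → Λ
  A : Λ → Fin n → ℝ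
  E : Λ → Fin n → ℝ
  T : Ω → ℕ
  h : Ω → ℝ
  pt : Ω → Z
  c : ℕ → Ω → Γ
  y₀ : ℕ → Γ → Fin n → ℝ
  F : ℕ → Γ → Pl n
  g : ℕ → ℕ
  i₀ : Fin n

attribute [instance] Dat.fin

namespace Dat

variable {n : ℕ}

/-- The base position. -/
noncomputable def Y (D : Dat n) (J : ℕ) (ω : D.Ω) (i : Fin n) : ℝ :=
  D.A (D.ln ω) i + (D.T ω : ℝ) / 2 ^ J * D.E (D.ln ω) i

/-- The line and the window of length `2 ^ (-v)`. -/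
def wn (D : Dat n) (J v : ℕ) (ω : D.Ω) : D.Λ × ℕ := (D.ln ω, D.T ω / 2 ^ (J - v))

/-- The base position at the relative time `t` of the window of length `2 ^ (-v)`. -/
noncomputable def Yt (D : Dat n) (J v : ℕ) (ω : D.Ω) (t : ℝ) (i : Fin n) : ℝ :=
  D.A (D.ln ω) i + (((D.T ω / 2 ^ (J - v) : ℕ) : ℝ) + t) / 2 ^ v * D.E (D.ln ω) i

/-- The height above the sheet of level `k`. -/
noncomputable def rh (D : Dat n) (J k : ℕ) (ω : D.Ω) : ℝ :=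
  D.h ω - MvPolynomial.eval (D.Y J ω) (D.F k (D.c k ω))

/-- The cell of the base position. -/
noncomputable def cell (D : Dat n) (J v : ℕ) (ω : D.Ω) (i : Fin n) : ℤ :=
  ⌊(2 : ℝ) ^ v * D.Y J ω i⌋

/-- The cell of the point. -/
noncomputable def XY (D : Dat n) (J P : ℕ) (ω : D.Ω) : (Fin n → ℤ) × ℤ :=
  (D.cell J P ω, ⌊(2 : ℝ) ^ P * D.h ω⌋)

/-- The axioms of a system, for the law `q`. -/
structure Ok (D : Dat n) (K J r w₀ z M : ℕ) (κ : ℝ) (q : D.Ω → ℝ) : Prop where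
  isLaw : IsLaw q
  r_le : r ≤ J
  top : w₀ + (M + 1) * z ≤ r
  T_lt : ∀ ω, D.T ω < 2 ^ J
  E_le : ∀ l i, |D.E l i| ≤ 1
  A_i₀ : ∀ l, D.A l D.i₀ = 0
  E_i₀ : ∀ l, D.E l D.i₀ = 1
  time : J * Real.log 2 - κ * z ≤ CH q D.T D.ln
  pt_T : Det q D.pt D.T
  pt_Y : Det q D.pt (D.cell J r)
  c_pt : ∀ k ≤ M, Det q D.pt (D.c k)
  c_wn : ∀ k ≤ M, Det q (D.wn J (w₀ + k * z)) (D.c k)
  c_c : ∀ k < M, Det q (D.c (k + 1)) (D.c k)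
  c_T : ∀ k ≤ M, Det q (D.c k) (fun ω => D.T ω / 2 ^ (J - (w₀ + k * z)))
  y₀_near : ∀ k ≤ M, ∀ ω, 0 < q ω → ∀ i,
    |D.Y J ω i - D.y₀ k (D.c k ω) i| ≤ Real.exp (κ * z) / 2 ^ (w₀ + k * z)
  F_deg : ∀ k x, (D.F k x).totalDegree ≤ K
  F_hgt : ∀ k ≤ M, ∀ ω, 0 < q ω → |D.rh J k ω| ≤ Real.exp (κ * z) / 2 ^ D.g k
  F_grad : ∀ k ≤ M, ∀ ω, 0 < q ω → ∀ b : Fin n → ℝ,
    (∀ i, |b i - D.Y J ω i| ≤ 1 / 2 ^ (w₀ + k * z)) →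
      ∀ i, |MvPolynomial.eval b (MvPolynomial.pderiv i (D.F k (D.c k ω)))| ≤ Real.exp (κ * z)
  g_mono : Monotone D.g
  g_ge : ∀ k ≤ M, ((w₀ + k * z : ℕ) : ℝ) ≤ D.g k + κ * z
  nc : ∃ e : D.Z → ℝ, (∀ x, 0 ≤ e x) ∧ Ex q (fun ω => e (D.pt ω)) ≤ κ ∧
    ∀ ω, 0 < q ω → ∀ u : Fin n → ℝ, (∃ i, 1 ≤ |u i|) →
      Pb q (fun ω' => D.pt ω' = D.pt ω ∧ |∑ i, u i * D.E (D.ln ω') i| ≤ Real.exp (-(κ * z))) ≤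
        e (D.pt ω) * law q D.pt (D.pt ω)

/-- The slope of the precisions of the balls is `s` on `B` levels after `k`. -/
def Hom (D : Dat n) (z B k : ℕ) (s C₁ : ℝ) : Prop :=
  ∀ v ≤ B, |(D.g (k + v) : ℝ) - D.g k - s * (v * z)| ≤ C₁ * z

/-- The tube label of radius `k + B` and window `k`: the polynomial `Q` is a function of the line
and of the window, `Qb` is the same polynomial near the point, as a function of `c (k + B)`; the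
precision is almost that of the balls. -/
structure Tube (D : Dat n) (K J w₀ z B k : ℕ) (C₁ : ℝ) (q : D.Ω → ℝ) (Q : D.Λ × ℕ → Pl n)
    (Qb : D.Γ → Pl n) : Prop where
  deg : ∀ x, (Q x).totalDegree ≤ K
  degb : ∀ x, (Qb x).totalDegree ≤ K
  agree : ∀ ω, 0 < q ω → ∀ b : Fin n → ℝ, (∀ i, |b i - D.Y J ω i| ≤ 1 / 2 ^ (w₀ + (k + B) * z)) →
    |MvPolynomial.eval b (Q (D.wn J (w₀ + k * z) ω)) -
      MvPolynomial.eval b (Qb (D.c (k + B) ω))| ≤ Real.exp (C₁ * z) / 2 ^ D.g (k + B)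
  hgt : ∀ ω, 0 < q ω → |D.h ω - MvPolynomial.eval (D.Y J ω) (Qb (D.c (k + B) ω))| ≤
    Real.exp (C₁ * z) / 2 ^ D.g (k + B)

/-- The jets at a typical sample: adjacent levels, levels over `k`, the tube polynomial against the
finest ball polynomial, and the tube polynomial on the whole window. -/
structure JGd (D : Dat n) (K J w₀ z B k j : ℕ) (C₂ : ℝ) (Q : D.Λ × ℕ → Pl n) (ω : D.Ω) :
    Prop where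
  b0 : ∀ v < B, ∀ i ≤ K, CB (jt i (D.F (k + v + 1) (D.c (k + v + 1) ω) -
      D.F (k + v) (D.c (k + v) ω)) (D.Y J ω))
    (Real.exp (C₂ * z) * 2 ^ (i * (w₀ + (k + v) * z)) / 2 ^ D.g (k + v))
  b1 : ∀ v ≤ B, ∀ i ≤ K, CB (jt i (D.F (k + v) (D.c (k + v) ω) - D.F k (D.c k ω)) (D.Y J ω))
    (Real.exp (C₂ * z) * 2 ^ (i * (w₀ + k * z) + (i - j) * (v * z)) / 2 ^ D.g k)
  b2 : ∀ i ≤ K, CB (jt i (Q (D.wn J (w₀ + k * z) ω) - D.F (k + B) (D.c (k + B) ω)) (D.Y J ω))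
    (Real.exp (C₂ * z) * 2 ^ (i * (w₀ + (k + B) * z)) / 2 ^ D.g (k + B))
  b3 : ∀ t ∈ Set.Icc (0 : ℝ) 1, ∀ i ≤ j,
    CB (jt i (Q (D.wn J (w₀ + k * z) ω) - D.F k (D.c k ω)) (D.Yt J (w₀ + k * z) ω t))
      (Real.exp (C₂ * z) * 2 ^ (i * (w₀ + k * z)) / 2 ^ D.g k)

/-- The tensor of the line (4.1), in absolute units. -/
noncomputable def tb (D : Dat n) (J w₀ z j k : ℕ) (Q : D.Λ × ℕ → Pl n) (ω : D.Ω) : Pl n :=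
  dE (D.E (D.ln ω)) (jt j (Q (D.wn J (w₀ + k * z) ω) - D.F k (D.c k ω)) (D.Y J ω))

end Dat

open Classical in
/-- Truncated integer part. -/
noncomputable def tf (a S x : ℝ) : ℤ := if |x| ≤ S then ⌊a * x⌋ else 0

namespace Dat

variable {n : ℕ}

/-- The variable `V` of (4.1) at the level `k`: digits of the direction and of the tensor. -/
noncomputable def V (D : Dat n) (J w₀ z j B U k : ℕ) (C₂ : ℝ) (Q : D.Λ × ℕ → Pl n) (ω : D.Ω) :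
    (Fin n → ℤ) × ((Fin n →₀ ℕ) → ℤ) :=
  (fun i => ⌊(2 : ℝ) ^ (B * z) * D.E (D.ln ω) i⌋,
    fun m => tf ((2 : ℝ) ^ (D.g k + U * z) / 2 ^ (j * (w₀ + k * z)))
      (Real.exp (C₂ * z) * 2 ^ (j * (w₀ + k * z)) / 2 ^ D.g k) ((D.tb J w₀ z j k Q ω).coeff m))

/-- The rows `(P₁, P₂]` are not full. -/
def Rate (D : Dat n) (J : ℕ) (q : D.Ω → ℝ) (c κ' : ℝ) (P₁ P₂ : ℕ) : Prop :=
  CH q (D.XY J P₂) (fun ω => (D.XY J P₁ ω, D.T ω)) ≤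
    (n - c) * (((P₂ : ℝ) - P₁) * Real.log 2) + κ'

/-- The number of the heights over the sheet of level `k`, given the label of level `k₁` and the
cell of level `v`. -/
def Cnt (D : Dat n) (J k k₁ v : ℕ) (q : D.Ω → ℝ) (c κ' : ℝ) (P₁ P₂ : ℕ) : Prop :=
  ∀ ω, 0 < q ω → (Set.ncard {x : ℤ | ∃ ω', 0 < q ω' ∧ D.c k₁ ω' = D.c k₁ ω ∧
    D.cell J v ω' = D.cell J v ω ∧ ⌊(2 : ℝ) ^ P₁ * D.rh J k ω'⌋ = ⌊(2 : ℝ) ^ P₁ * D.rh J k ω⌋ ∧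
    x = ⌊(2 : ℝ) ^ P₂ * D.rh J k ω'⌋} : ℝ) ≤
    Real.exp ((1 - c) * (((P₂ : ℝ) - P₁) * Real.log 2) + κ')

/-- A new closed label at the digit `v`, of precision `P`; its gradient is almost constant on the
ball. -/
def NewLab (D : Dat n) (K J : ℕ) (q : D.Ω → ℝ) (v P : ℕ) : Prop :=
  ∃ G : D.Z → Pl n, (∀ x, (G x).totalDegree ≤ K) ∧
    Pb q (fun ω => 1 / 2 ^ P < |D.h ω - MvPolynomial.eval (D.Y J ω) (G (D.pt ω))|) ≤ 1 / 8 ∧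
    Pb q (fun ω => ¬ ∀ b : Fin n → ℝ, (∀ i, |b i - D.Y J ω i| ≤ 1 / 2 ^ v) → ∀ i,
      |MvPolynomial.eval b (MvPolynomial.pderiv i (G (D.pt ω))) -
        MvPolynomial.eval (D.Y J ω) (MvPolynomial.pderiv i (G (D.pt ω)))| ≤ 1 / 8) ≤ 1 / 8 ∧
    P2 q (D.wn J v) (fun ω ω' => ¬ ∀ b : Fin n → ℝ, (∀ i, |b i - D.Y J ω i| ≤ 1 / 2 ^ v) →
      |MvPolynomial.eval b (G (D.pt ω')) - MvPolynomial.eval b (G (D.pt ω))| ≤ 1 / 2 ^ P) ≤ 1 / 8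

end Dat

/-- Row CMR: closed labels are determined by the heights (fullness from `mkc_thm`, then REN). -/
def CMRStmt : Prop :=
  ∀ (n K : ℕ) (η : ℝ), 1 ≤ n → 0 < η → η ≤ 1 → ∃ κ : ℝ, 0 < κ ∧ ∃ z₀ : ℕ,
    ∀ (J r w₀ z M : ℕ) (D : Dat n) (q : D.Ω → ℝ), z₀ ≤ z → D.Ok K J r w₀ z M κ q →
    ∀ k ≤ M, ∀ (φ : D.Γ → Pl n) (Gd : D.Ω → Prop) (S₀ : D.Γ → ℝ),
      (∀ x, (φ x).totalDegree ≤ K) → (∀ x, 0 < S₀ x) → Pb q (fun ω => ¬ Gd ω) ≤ η / 8 →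
      (∀ ω, Gd ω → |MvPolynomial.eval (D.Y J ω) (φ (D.c k ω))| ≤ S₀ (D.c k ω)) →
      Pb q (fun ω => ¬ ∀ b : Fin n → ℝ,
        (∀ i, |b i - D.Y J ω i| ≤ Real.exp (κ * z) / 2 ^ (w₀ + k * z)) →
        |MvPolynomial.eval b (φ (D.c k ω))| ≤ Real.exp z * S₀ (D.c k ω)) ≤ η

/-- Row JET: (2.1) and (2.2). -/
def JETStmt : Prop :=
  ∀ (n K j : ℕ) (C₁ : ℝ), 1 ≤ n → 1 ≤ C₁ → ∃ C₂ : ℝ, 1 ≤ C₂ ∧ ∀ (B : ℕ) (η : ℝ), 1 ≤ B →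
    0 < η → η ≤ 1 → ∃ κ : ℝ, 0 < κ ∧ ∃ z₀ : ℕ,
    ∀ (J r w₀ z M k : ℕ) (s : ℝ) (D : Dat n) (q : D.Ω → ℝ) (Q : D.Λ × ℕ → Pl n)
      (Qb : D.Γ → Pl n), z₀ ≤ z → D.Ok K J r w₀ z M κ q → k + B ≤ M → (j : ℝ) ≤ s → s ≤ K →
      D.Hom z B k s C₁ → D.Tube K J w₀ z B k C₁ q Q Qb →
      Pb q (fun ω => ¬ D.JGd K J w₀ z B k j C₂ Q ω) ≤ η

/-- Row VST: the tensors of two levels. -/
def VSTStmt : Prop :=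
  ∀ (n K j : ℕ) (C₁ : ℝ), 1 ≤ n → 1 ≤ j → j ≤ K → 1 ≤ C₁ → ∃ C₂ : ℝ, 1 ≤ C₂ ∧
    ∀ (B U : ℕ) (η : ℝ), 1 ≤ U → U < B → 0 < η → η ≤ 1 → ∃ κ : ℝ, 0 < κ ∧ ∃ z₀ : ℕ,
    ∀ (J r w₀ z M k k' : ℕ) (D : Dat n) (q : D.Ω → ℝ) (Q Q' : D.Λ × ℕ → Pl n)
      (Qb Qb' : D.Γ → Pl n), z₀ ≤ z → D.Ok K J r w₀ z M κ q → k' + U = k + B → k' + B ≤ M →
      D.Hom z B k j C₁ → D.Hom z B k' j C₁ → D.Tube K J w₀ z B k C₁ q Q Qb →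
      D.Tube K J w₀ z B k' C₁ q Q' Qb' →
      Pb q (fun ω => ¬ CB (dE (D.E (D.ln ω)) (jt j (Q' (D.wn J (w₀ + k' * z) ω) -
        Q (D.wn J (w₀ + k * z) ω)) (D.Y J ω)))
        (Real.exp (C₂ * z) * 2 ^ ((j - 1) * (w₀ + (k + B) * z) + (w₀ + k' * z)) /
          2 ^ D.g (k + B))) ≤ η

/-- Row VEN: the variable `V` of the next level costs little. -/
def VENStmt : Prop :=
  ∀ (n K j : ℕ) (C₁ : ℝ), 1 ≤ n → 1 ≤ j → j ≤ K → 1 ≤ C₁ → ∃ C₄ : ℝ, 1 ≤ C₄ ∧ ∀ C₂ : ℝ,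
    C₄ ≤ C₂ → ∃ C₃ : ℝ, 1 ≤ C₃ ∧
    ∀ B U : ℕ, 1 ≤ U → 2 * U ≤ B → ∃ κ : ℝ, 0 < κ ∧ ∃ z₀ : ℕ,
    ∀ (J r w₀ z M k k' : ℕ) (D : Dat n) (q : D.Ω → ℝ) (Q Q' : D.Λ × ℕ → Pl n)
      (Qb Qb' : D.Γ → Pl n), z₀ ≤ z → D.Ok K J r w₀ z M κ q → k' + U = k + B → k' + B ≤ M →
      D.Hom z B k j C₁ → D.Hom z B k' j C₁ → D.Tube K J w₀ z B k C₁ q Q Qb →
      D.Tube K J w₀ z B k' C₁ q Q' Qb' →
      H q (D.V J w₀ z j B U k C₂ Q) ≤ C₃ * (B * z) ∧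
      CH q (D.V J w₀ z j B U k' C₂ Q') (fun ω => (D.V J w₀ z j B U k C₂ Q ω, D.c (k' + U) ω)) ≤
        C₃ * z

/-- Row VCS: the choice of the level. -/
def VCSStmt : Prop :=
  ∀ (B U L : ℕ) (Good : Finset ℕ) (Φ Ψ : ℕ → ℝ) (e M η : ℝ), 1 ≤ L → U < B → 0 ≤ M → 0 ≤ e →
    Good ⊆ range (L * B) → 0 ≤ η → η ≤ 1 / 2 → (1 - η) * (L * B) ≤ (Good.card : ℝ) →
    (∀ k ∈ Good, 0 ≤ Ψ k ∧ Φ k ≤ M) →
    (∀ k ∈ Good, ∀ k' ∈ Good, k' + U = k + B → Φ k' ≤ Ψ k + e) →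
    ∃ k ∈ Good, Φ k - Ψ k ≤ e + 2 * M * (1 / L + η)

/-- Row RAT: (5.4), entropy form. -/
def RATStmt : Prop :=
  ∀ (n K j : ℕ) (C₁ : ℝ), 1 ≤ n → 1 ≤ j → j ≤ K → 1 ≤ C₁ → ∃ (C₂ : ℝ) (U₁ : ℕ), 1 ≤ C₂ ∧
    ∀ B U : ℕ, U₁ ≤ U → (j + 2) * U ≤ B → ∃ κ : ℝ, 0 < κ ∧ ∃ z₀ : ℕ,
    ∀ (J r w₀ z M k : ℕ) (c : ℝ) (D : Dat n) (q : D.Ω → ℝ), z₀ ≤ z →
      D.Ok K J r w₀ z M κ q → k + B ≤ M → D.Hom z B k j C₁ → 0 ≤ c → c ≤ 1 →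
      ∀ P₁ P₂ : ℕ, D.g k + j * ((U - 1) * z) ≤ P₁ → P₁ ≤ P₂ → P₂ ≤ D.g k + (j + 1) * (U * z) →
      P₂ ≤ r → D.Rate J q c (C₁ * z) P₁ P₂ →
      CH q (fun ω => ⌊(2 : ℝ) ^ P₂ * D.rh J k ω⌋) (fun ω => (D.c (k + U) ω,
        D.cell J (w₀ + (k + B) * z) ω, ⌊(2 : ℝ) ^ P₁ * D.rh J k ω⌋)) ≤
        (1 - c) * (((P₂ : ℝ) - P₁) * Real.log 2) + C₂ * z

/-- Row CNL: the new closed label, integer slope (from `CORStmt`). -/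
def CNLStmt : Prop :=
  ∀ (n K j A : ℕ) (C₁ c : ℝ), 1 ≤ n → 1 ≤ j → j ≤ K → 1 ≤ C₁ → 0 < c → c ≤ 1 →
    ∃ C₄ : ℝ, 1 ≤ C₄ ∧ ∀ C₂ C₃ : ℝ, C₄ ≤ C₂ → 1 ≤ C₃ → ∃ U₁ : ℕ, 1 ≤ U₁ ∧ ∀ U B : ℕ, U₁ ≤ U →
    B = (K + 2) * U → ∃ κ : ℝ, 0 < κ ∧ ∃ z₀ : ℕ,
    ∀ (J r w₀ z M k : ℕ) (D : Dat n) (q : D.Ω → ℝ) (Q : D.Λ × ℕ → Pl n) (Qb : D.Γ → Pl n),
      z₀ ≤ z → D.Ok K J r w₀ z M κ q → k + B ≤ M → D.Hom z B k j C₁ →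
      D.Tube K J w₀ z B k C₁ q Q Qb →
      CH q (D.V J w₀ z j B U k C₂ Q) (D.c (k + U)) - CH q (D.V J w₀ z j B U k C₂ Q) (D.c (k + B)) ≤
        C₃ * z →
      (∀ P₁ P₂ : ℕ, D.g k + j * ((U - 1) * z) ≤ P₁ → P₁ ≤ P₂ → P₂ ≤ D.g k + (j + 1) * (U * z) →
        D.Cnt J k (k + U) (w₀ + (k + B) * z) q c (C₃ * z) P₁ P₂) →
      D.NewLab K J q (w₀ + (k + U) * z) (D.g (k + U) + A * z)

/-- Row NON: the new closed label, slope not an integer. -/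
def NONStmt : Prop :=
  ∀ (n K j A : ℕ) (C₁ σ : ℝ), 1 ≤ n → 1 ≤ C₁ → 0 < σ → ∃ B₁ : ℕ, ∀ B : ℕ, B₁ ≤ B →
    ∃ κ : ℝ, 0 < κ ∧ ∃ z₀ : ℕ,
    ∀ (J r w₀ z M k : ℕ) (s : ℝ) (D : Dat n) (q : D.Ω → ℝ) (Q : D.Λ × ℕ → Pl n)
      (Qb : D.Γ → Pl n), z₀ ≤ z → D.Ok K J r w₀ z M κ q → k + B ≤ M → s ≤ K → j + σ ≤ s →
      s ≤ j + 1 - σ → D.Hom z B k s C₁ → D.Tube K J w₀ z B k C₁ q Q Qb →
      ∃ v < B, D.NewLab K J q (w₀ + (k + v) * z) (D.g (k + v) + A * z)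

/-- Row MAI: the theorem for systems. There is a new closed label at some level. -/
def MAIStmt : Prop :=
  ∀ (n K A U₀ : ℕ) (C₁ C₃ c : ℝ), 1 ≤ n → 1 ≤ K → 1 ≤ C₁ → 1 ≤ C₃ → 0 < c → c ≤ 1 →
    ∃ (B L : ℕ) (η κ : ℝ) (z₀ : ℕ), 1 ≤ B ∧ 1 ≤ L ∧ 0 < η ∧ 0 < κ ∧
    ∀ (J r w₀ z M : ℕ) (s : ℝ) (Good : Finset ℕ) (D : Dat n) (q : D.Ω → ℝ),
      z₀ ≤ z → D.Ok K J r w₀ z M κ q → M ≤ (L + 1) * B → 1 ≤ s → s ≤ K →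
      Good ⊆ range (L * B) → (1 - η) * (L * B) ≤ (Good.card : ℝ) → (∀ k ∈ Good, k + B ≤ M) →
      (∀ k ∈ Good, D.Hom z B k s C₁) →
      (∀ k ∈ Good, ∀ v, 1 ≤ v → v ≤ B → ∃ Q Qb, D.Tube K J w₀ z v k C₁ q Q Qb) →
      (∀ k ∈ Good, ∀ j U B' : ℕ, 1 ≤ j → j ≤ K → U₀ ≤ U → (j + 2) * U ≤ B' → B' ≤ B →
        D.Hom z B' k j (C₁ + 1) → ∀ P₁ P₂ : ℕ, D.g k + j * ((U - 1) * z) ≤ P₁ → P₁ ≤ P₂ →
        P₂ ≤ D.g k + (j + 1) * (U * z) →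
        D.Cnt J k (k + U) (w₀ + (k + B') * z) q c (C₃ * z) P₁ P₂) →
      ∃ k ∈ Good, ∃ v ≤ B, D.g (k + v) + A * z ≤ D.g (k + B) ∧
        D.NewLab K J q (w₀ + (k + v) * z) (D.g (k + v) + A * z)

end Pool.BFL
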