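import Pool.Agent.H19.BFL.Stmts2

/-!
# Ball frontier lemma: the choice of the scale, final form
-/

set_option autoImplicit false

namespace Pool.BFL

open Finset Real

open Classical in
/-- Row SCL2: a homogeneous scale. `g` is the precision of the balls, `p` the precision of the
tubes of the fixed window `w`, `R` the set of the rows which are not full. The unit of length of
the homogeneous scale is `x`. -/
def SCL2Stmt : Prop :=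
  ∀ (K B Λ : ℕ) (ε η : ℝ), 1 ≤ K → 1 ≤ B → 1 ≤ Λ → 0 < ε → 0 < η → ∃ N₁ : ℕ, 1 ≤ N₁ ∧
    ∀ (N : ℕ) (g p : ℕ → ℕ) (R : ℕ → Prop) (w γ : ℕ), N₁ * N₁ ≤ N → N₁ * γ ≤ N → Monotone g →
      (∀ a a', w ≤ a → a ≤ a' → a' ≤ N → p a' ≤ p a + K * (a' - a) + γ) →
      (∀ a, w ≤ a → a ≤ N → p a ≤ g a) →
      (∀ a a', w ≤ a → a ≤ a' → a' ≤ N → g a + (a' - a) ≤ g a' + 2) →
      (∀ a a', w ≤ a → a ≤ a' → a' ≤ N → p a + (a' - a) ≤ p a' + 2) →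
      ε * N ≤ (((range N).filter fun a => w ≤ a ∧ g a ≤ p a + γ ∧ R (p a)).card : ℝ) →
      ∃ (x a₀ : ℕ) (s : ℝ) (Good : Finset ℕ), N ≤ N₁ * x ∧ N₁ ≤ x ∧ w ≤ a₀ ∧
        a₀ + ((Λ + 1) * B) * x ≤ N ∧ 1 ≤ s ∧ s ≤ K ∧ Good ⊆ range (Λ * B) ∧
        (1 - η) * (Λ * B) ≤ (Good.card : ℝ) ∧ ∀ k ∈ Good,
          (∀ v ≤ B, |(g (a₀ + (k + v) * x) : ℝ) - g (a₀ + k * x) - s * (v * x)| ≤
            4 * K * x) ∧
          (∀ v ≤ B, g (a₀ + (k + v) * x) ≤ p (a₀ + (k + v) * x) + 4 * K * x) ∧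
          (∀ P₁ P₂ : ℕ, g (a₀ + k * x) ≤ P₁ → P₁ + 32 * K * x ≤ P₂ →
            P₂ ≤ g (a₀ + (k + B) * x) →
            ε / (32 * K) * (P₂ - P₁) ≤ (((Ico P₁ P₂).filter fun P => R P).card : ℝ)) ∧
          ∃ b, a₀ + (k + B) * x ≤ b ∧ b < N ∧ w ≤ b ∧ g b ≤ p b + γ ∧ R (p b)

end Pool.BFL
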